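import Pool.Agent.Helper8.Defs

set_option autoImplicit false

/-!
MP_9b3484_nt, component F: from the one-step statement `StageStmt` to the frozen statement.
-/

namespace Pool.Agent.Helper4.Chain

open Pool.Agent.Helper8

/-! ### Continued fractions -/

theorem cf_get (ξ : ℝ) (hξ : Irrational ξ) (n : ℕ) :
    ∃ gp, (GenContFract.of ξ).s.get? n = some gp := by
  apply Option.ne_none_iff_exists'.1
  intro h
  have : (GenContFract.of ξ).Terminates := ⟨n, h⟩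
  rw [GenContFract.terminates_iff_rat] at this
  obtain ⟨q, hq⟩ := this
  exact hξ ⟨q, hq.symm⟩

theorem cf_int (ξ : ℝ) (hξ : Irrational ξ) (n : ℕ) :
    (∃ A B : ℤ, (GenContFract.of ξ).nums n = A ∧ (GenContFract.of ξ).dens n = B) ∧
    (∃ A B : ℤ, (GenContFract.of ξ).nums (n + 1) = A ∧
      (GenContFract.of ξ).dens (n + 1) = B) := by
  induction n with
  | zero =>
    constructor
    · refine ⟨⌊ξ⌋, 1, ?_, ?_⟩
      · simp [GenContFract.zeroth_num_eq_h, GenContFract.of_h_eq_floor]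
      · simp
    · obtain ⟨gp, hgp⟩ := cf_get ξ hξ 0
      obtain ⟨ha, z, hz⟩ := GenContFract.of_partNum_eq_one_and_exists_int_partDen_eq hgp
      refine ⟨z * ⌊ξ⌋ + 1, z, ?_, ?_⟩
      · rw [GenContFract.first_num_eq hgp, ha, hz, GenContFract.of_h_eq_floor]
        push_cast
        ring
      · rw [GenContFract.first_den_eq hgp, hz]
  | succ n ih =>
    refine ⟨ih.2, ?_⟩
    obtain ⟨⟨A, B, hA, hB⟩, ⟨A', B', hA', hB'⟩⟩ := ih
    obtain ⟨gp, hgp⟩ := cf_get ξ hξ (n + 1)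
    obtain ⟨ha, z, hz⟩ := GenContFract.of_partNum_eq_one_and_exists_int_partDen_eq hgp
    refine ⟨z * A' + A, z * B' + B, ?_, ?_⟩
    · rw [GenContFract.nums_recurrence hgp hA hA', ha, hz]
      push_cast
      ring
    · rw [GenContFract.dens_recurrence hgp hB hB', ha, hz]
      push_cast
      ring

theorem cf_pair (ξ : ℝ) (hξ : Irrational ξ) (n : ℕ) :
    ∃ A B : ℤ, (GenContFract.of ξ).nums n = A ∧ (GenContFract.of ξ).dens n = B ∧
      IsCoprime A B ∧ 0 < B := by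
  obtain ⟨⟨A, B, hA, hB⟩, ⟨A', B', hA', hB'⟩⟩ := cf_int ξ hξ n
  refine ⟨A, B, hA, hB, ?_, ?_⟩
  · have hterm : ¬ (GenContFract.of ξ).TerminatedAt n := by
      intro h
      obtain ⟨gp, hgp⟩ := cf_get ξ hξ n
      rw [GenContFract.terminatedAt_iff_s_none] at h
      rw [h] at hgp
      cases hgp
    have hdet := SimpContFract.determinant (s := SimpContFract.of ξ) (n := n) hterm
    change (GenContFract.of ξ).nums n * (GenContFract.of ξ).dens (n + 1) -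
      (GenContFract.of ξ).dens n * (GenContFract.of ξ).nums (n + 1) = (-1) ^ (n + 1) at hdet
    rw [hA, hB, hA', hB'] at hdet
    have hdet' : A * B' - B * A' = (-1) ^ (n + 1) := by exact_mod_cast hdet
    rcases neg_one_pow_eq_or ℤ (n + 1) with h1 | h1
    · rw [h1] at hdet'
      exact ⟨B', -A', by linarith⟩
    · rw [h1] at hdet'
      exact ⟨-B', A', by linarith⟩
  · have h := GenContFract.succ_nth_fib_le_of_nth_den (v := ξ) (n := n) (by
      rcases Nat.eq_zero_or_pos n with h0 | h0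
      · exact Or.inl h0
      · right
        intro h
        obtain ⟨gp, hgp⟩ := cf_get ξ hξ (n - 1)
        rw [GenContFract.terminatedAt_iff_s_none] at h
        rw [h] at hgp
        cases hgp)
    have h1 : 0 < Nat.fib (n + 1) := Nat.fib_pos.2 (Nat.succ_pos n)
    rw [hB] at h
    have h2 : (0 : ℝ) < B := lt_of_lt_of_le (by exact_mod_cast h1) h
    exact_mod_cast h2

/-! ### The chain -/

/-- admissible pairs -/
def Adm (M : ℕ) (x : ℕ × ℕ) : Prop :=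
  M ≤ x.2 ∧ x.1.Coprime x.2 ∧ Smooth23 x.1 ∧ Smooth23 x.2 ∧ x.2 < x.1 ∧ x.1 < 2 * x.2

/-- the link relation -/
def Link (w : ℕ) (x y : ℕ × ℕ) : Prop :=
  (x.1 : ℝ) / x.2 < (y.1 : ℝ) / y.2 ∧ (y.1 : ℝ) / y.2 - (x.1 : ℝ) / x.2 ≤ 1 / (x.2 : ℝ) ^ 4 ∧
      ∀ (a : ℤ) (b : ℕ), x.2 ≤ b → (a : ℝ) / b ≠ (y.1 : ℝ) / y.2 →
        1 / (b : ℝ) ^ w ≤ |(y.1 : ℝ) / y.2 - (a : ℝ) / b|

theorem link_cube {x y : ℕ × ℕ} {w : ℕ} (hx : 2 ≤ x.2) (hy : 0 < y.2) (h : Link w x y) :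
    x.2 ^ 3 ≤ y.2 := by
  obtain ⟨h1, h2, -⟩ := h
  have hx0 : (0 : ℝ) < x.2 := by exact_mod_cast (by omega : 0 < x.2)
  have hy0 : (0 : ℝ) < y.2 := by exact_mod_cast hy
  have h3 : 1 / ((x.2 : ℝ) * y.2) ≤ (y.1 : ℝ) / y.2 - (x.1 : ℝ) / x.2 := by
    rw [div_sub_div _ _ hy0.ne' hx0.ne', div_le_div_iff₀ (by positivity) (by positivity)]
    have h4 : (0 : ℝ) < (y.1 : ℝ) * x.2 - y.2 * x.1 := by
      rw [div_lt_div_iff₀ hx0 hy0] at h1
      linarith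
    have h5 : (0 : ℤ) < (y.1 : ℤ) * x.2 - y.2 * x.1 := by exact_mod_cast h4
    have h6 : (1 : ℝ) ≤ (y.1 : ℝ) * x.2 - y.2 * x.1 := by
      have : (1 : ℤ) ≤ (y.1 : ℤ) * x.2 - y.2 * x.1 := h5
      exact_mod_cast this
    nlinarith [mul_pos hx0 hy0]
  have h7 : 1 / ((x.2 : ℝ) * y.2) ≤ 1 / (x.2 : ℝ) ^ 4 := h3.trans h2
  rw [div_le_div_iff₀ (by positivity) (by positivity)] at h7
  have h8 : (x.2 : ℝ) * (x.2 : ℝ) ^ 3 ≤ (x.2 : ℝ) * y.2 := by
    calc (x.2 : ℝ) * (x.2 : ℝ) ^ 3 = 1 * (x.2 : ℝ) ^ 4 := by ring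
      _ ≤ 1 * ((x.2 : ℝ) * y.2) := h7
      _ = _ := by ring
  have h9 : ((x.2 : ℝ)) ^ 3 ≤ y.2 := le_of_mul_le_mul_left h8 hx0
  exact_mod_cast h9

theorem start (M : ℕ) : ∃ x, Adm M x := by
  set m := M + 2 with hm
  have h3 : 3 ^ m ≠ 0 := by positivity
  refine ⟨(3 ^ m, 2 ^ Nat.log 2 (3 ^ m)), ?_, ?_, ⟨0, m, by simp⟩,
    ⟨Nat.log 2 (3 ^ m), 0, by simp⟩, ?_, ?_⟩
  · have h1 : m ≤ Nat.log 2 (3 ^ m) := by
      apply Nat.le_log_of_pow_le (by norm_num)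
      exact Nat.pow_le_pow_left (by norm_num) m
    calc M ≤ m := by omega
      _ ≤ 2 ^ m := Nat.lt_two_pow_self.le
      _ ≤ 2 ^ Nat.log 2 (3 ^ m) := Nat.pow_le_pow_right (by norm_num) h1
  · exact Nat.Coprime.pow _ _ (by norm_num)
  · have h1 : 2 ^ Nat.log 2 (3 ^ m) ≤ 3 ^ m := Nat.pow_log_le_self 2 h3
    rcases Nat.lt_or_ge (2 ^ Nat.log 2 (3 ^ m)) (3 ^ m) with h | h
    · exact h
    · exfalso
      have h2 : 2 ^ Nat.log 2 (3 ^ m) = 3 ^ m := le_antisymm h1 h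
      have hl : 1 ≤ Nat.log 2 (3 ^ m) := by
        apply Nat.le_log_of_pow_le (by norm_num)
        calc 2 ^ 1 ≤ 3 ^ 1 := by norm_num
          _ ≤ 3 ^ m := Nat.pow_le_pow_right (by norm_num) (by omega)
      have h4 : 2 ∣ 3 ^ m := by
        rw [← h2]
        exact dvd_pow_self 2 (by omega)
      have h5 : 2 ∣ 3 := Nat.prime_two.dvd_of_dvd_pow h4
      omega
  · have h1 : 3 ^ m < 2 ^ (Nat.log 2 (3 ^ m) + 1) := Nat.lt_pow_succ_log_self (by norm_num) _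
    calc 3 ^ m < 2 ^ (Nat.log 2 (3 ^ m) + 1) := h1
      _ = 2 * 2 ^ Nat.log 2 (3 ^ m) := by ring

theorem exists_chain (h : StageStmt) : ∃ (w M : ℕ) (s : ℕ → ℕ × ℕ), 2 ≤ M ∧
    (∀ k, Adm M (s k)) ∧ ∀ k, Link w (s k) (s (k + 1)) := by
  obtain ⟨w, N, hN⟩ := h
  have step : ∀ x : {x : ℕ × ℕ // Adm (N + 2) x}, ∃ y : {x : ℕ × ℕ // Adm (N + 2) x},
      Link w x.1 y.1 := by
    rintro ⟨⟨p, q⟩, h1, h2, h3, h4, h5, h6⟩
    dsimp only at h1 h2 h3 h4 h5 h6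
    obtain ⟨p', q', g1, g2, g3, g4, g5, g6, g7, g8⟩ := hN p q (by omega) h2 h3 h4 h5 h6
    have hl : Link w (p, q) (p', q') := ⟨g6, g7, g8⟩
    have hq' : 0 < q' := by omega
    have hc := link_cube (x := (p, q)) (y := (p', q')) (by dsimp only; omega) hq' hl
    dsimp only at hc
    have hqc : q ≤ q ^ 3 := Nat.le_self_pow (by norm_num) q
    exact ⟨⟨(p', q'), by dsimp only; omega, g1, g2, g3, g4, g5⟩, hl⟩
  choose F hF using step
  obtain ⟨x0, hx0⟩ := start (N + 2)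
  let s : ℕ → {x : ℕ × ℕ // Adm (N + 2) x} := fun k => Nat.rec ⟨x0, hx0⟩ (fun _ x => F x) k
  refine ⟨w, N + 2, fun k => (s k).1, by omega, fun k => (s k).2, fun k => hF (s k)⟩

section Limit

variable {w M : ℕ} {s : ℕ → ℕ × ℕ}

/-- the k-th ratio -/
noncomputable def rat (s : ℕ → ℕ × ℕ) (k : ℕ) : ℝ := ((s k).1 : ℝ) / (s k).2

theorem q_two (hM : 2 ≤ M) (hA : ∀ k, Adm M (s k)) (k : ℕ) : 2 ≤ (s k).2 :=
  hM.trans (hA k).1

theorem q_cube (hM : 2 ≤ M) (hA : ∀ k, Adm M (s k)) (hL : ∀ k, Link w (s k) (s (k + 1)))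
    (k : ℕ) : (s k).2 ^ 3 ≤ (s (k + 1)).2 :=
  link_cube (q_two hM hA k) (by have := q_two hM hA (k + 1); omega) (hL k)

theorem q_double (hM : 2 ≤ M) (hA : ∀ k, Adm M (s k)) (hL : ∀ k, Link w (s k) (s (k + 1)))
    (k : ℕ) : 2 * (s k).2 ≤ (s (k + 1)).2 := by
  have h1 := q_cube hM hA hL k
  have h2 := q_two hM hA k
  nlinarith [Nat.mul_le_mul h2 h2, Nat.mul_le_mul h2 (Nat.mul_le_mul h2 h2)]

theorem q_lower (hM : 2 ≤ M) (hA : ∀ k, Adm M (s k)) (hL : ∀ k, Link w (s k) (s (k + 1)))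
    (k : ℕ) : k < (s k).2 := by
  induction k with
  | zero => have := q_two hM hA 0; omega
  | succ k ih => have := q_double hM hA hL k; omega

theorem rat_mono (hL : ∀ k, Link w (s k) (s (k + 1))) : StrictMono (rat s) :=
  strictMono_nat_of_lt_succ fun k => (hL k).1

theorem rat_lt_two (hM : 2 ≤ M) (hA : ∀ k, Adm M (s k)) (k : ℕ) : rat s k < 2 := by
  have h := hA k
  have h0 : (0 : ℝ) < (s k).2 := by
    have := q_two hM hA k
    exact_mod_cast (by omega : 0 < (s k).2)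
  unfold rat
  rw [div_lt_iff₀ h0]
  exact_mod_cast h.2.2.2.2.2

theorem rat_upper (hM : 2 ≤ M) (hA : ∀ k, Adm M (s k)) (hL : ∀ k, Link w (s k) (s (k + 1)))
    (k j : ℕ) : rat s (k + j) + 2 / ((s (k + j)).2 : ℝ) ^ 4 ≤
      rat s k + 2 / ((s k).2 : ℝ) ^ 4 := by
  induction j with
  | zero => simp
  | succ j ih =>
    refine le_trans ?_ ih
    rw [← add_assoc]
    set i := k + j
    have h1 : rat s (i + 1) - rat s i ≤ 1 / ((s i).2 : ℝ) ^ 4 := (hL i).2.1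
    have h2 := q_double hM hA hL i
    have h3 := q_two hM hA i
    have h4 : (0 : ℝ) < (s i).2 := by exact_mod_cast (by omega : 0 < (s i).2)
    have h5 : 2 * ((s i).2 : ℝ) ≤ (s (i + 1)).2 := by exact_mod_cast h2
    have h6 : 2 / ((s (i + 1)).2 : ℝ) ^ 4 ≤ 1 / ((s i).2 : ℝ) ^ 4 := by
      have hpos : (0 : ℝ) < (s (i + 1)).2 := by linarith
      rw [div_le_div_iff₀ (by positivity) (by positivity)]
      have h7 : (2 * ((s i).2 : ℝ)) ^ 4 ≤ ((s (i + 1)).2 : ℝ) ^ 4 :=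
        pow_le_pow_left₀ (by positivity) h5 4
      have h8 : (0 : ℝ) < ((s i).2 : ℝ) ^ 4 := by positivity
      nlinarith
    have h9 : 2 / ((s i).2 : ℝ) ^ 4 = 1 / ((s i).2 : ℝ) ^ 4 + 1 / ((s i).2 : ℝ) ^ 4 := by
      ring
    linarith

/-- the limit -/
noncomputable def lim (s : ℕ → ℕ × ℕ) : ℝ := ⨆ k, rat s k

theorem rat_lt_lim (hM : 2 ≤ M) (hA : ∀ k, Adm M (s k)) (hL : ∀ k, Link w (s k) (s (k + 1)))
    (k : ℕ) : rat s k < lim s := by
  have hb : BddAbove (Set.range (rat s)) := by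
    refine ⟨2, ?_⟩
    rintro _ ⟨k, rfl⟩
    exact (rat_lt_two hM hA k).le
  calc rat s k < rat s (k + 1) := rat_mono hL (Nat.lt_succ_self k)
    _ ≤ lim s := le_ciSup hb (k + 1)

theorem lim_le (hM : 2 ≤ M) (hA : ∀ k, Adm M (s k)) (hL : ∀ k, Link w (s k) (s (k + 1)))
    (k : ℕ) : lim s ≤ rat s k + 2 / ((s k).2 : ℝ) ^ 4 := by
  apply ciSup_le
  intro l
  rcases le_total l k with h | h
  · have h1 : rat s l ≤ rat s k := (rat_mono hL).monotone h
    have h2 : (0 : ℝ) ≤ 2 / ((s k).2 : ℝ) ^ 4 := by positivity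
    linarith
  · obtain ⟨j, rfl⟩ := Nat.exists_eq_add_of_le h
    have h1 := rat_upper hM hA hL k j
    have h2 : (0 : ℝ) ≤ 2 / ((s (k + j)).2 : ℝ) ^ 4 := by positivity
    linarith

theorem lim_irrational (hM : 2 ≤ M) (hA : ∀ k, Adm M (s k))
    (hL : ∀ k, Link w (s k) (s (k + 1))) : Irrational (lim s) := by
  rintro ⟨x, hx⟩
  have hden : (0 : ℝ) < x.den := by exact_mod_cast x.den_pos
  set k := 2 * x.den with hk
  have h1 := rat_lt_lim hM hA hL k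
  have h2 := lim_le hM hA hL k
  have h3 := q_lower hM hA hL k
  have h4 : (0 : ℝ) < (s k).2 := by exact_mod_cast (by omega : 0 < (s k).2)
  have h5 : (lim s) = (x.num : ℝ) / x.den := by
    rw [← hx]
    exact_mod_cast (Rat.num_div_den x).symm
  unfold rat at h1 h2
  rw [h5] at h1 h2
  have h6 : 1 / ((x.den : ℝ) * (s k).2) ≤ (x.num : ℝ) / x.den - ((s k).1 : ℝ) / (s k).2 := by
    rw [div_sub_div _ _ hden.ne' h4.ne', div_le_div_iff₀ (by positivity) (by positivity)]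
    rw [div_lt_div_iff₀ h4 hden] at h1
    have h7 : (0 : ℝ) < (x.num : ℝ) * (s k).2 - x.den * (s k).1 := by linarith
    have h8 : (0 : ℤ) < (x.num : ℤ) * (s k).2 - x.den * (s k).1 := by exact_mod_cast h7
    have h9 : (1 : ℝ) ≤ (x.num : ℝ) * (s k).2 - x.den * (s k).1 := by
      have : (1 : ℤ) ≤ (x.num : ℤ) * (s k).2 - x.den * (s k).1 := h8
      exact_mod_cast this
    nlinarith [mul_pos hden h4]
  have h10 : 1 / ((x.den : ℝ) * (s k).2) ≤ 2 / ((s k).2 : ℝ) ^ 4 := by linarith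
  rw [div_le_div_iff₀ (by positivity) (by positivity)] at h10
  have h11 : 2 * (x.den : ℝ) < (s k).2 := by
    have : 2 * x.den < (s k).2 := h3
    exact_mod_cast this
  have h12 : (1 : ℝ) ≤ (s k).2 := by exact_mod_cast (by omega : 1 ≤ (s k).2)
  have h13 : ((s k).2 : ℝ) * (s k).2 ≤ ((s k).2 : ℝ) ^ 4 := by
    have : (1 : ℝ) ≤ ((s k).2 : ℝ) ^ 2 := one_le_pow₀ h12
    calc ((s k).2 : ℝ) * (s k).2 = ((s k).2 : ℝ) ^ 2 * 1 := by ring
      _ ≤ ((s k).2 : ℝ) ^ 2 * ((s k).2 : ℝ) ^ 2 := by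
        apply mul_le_mul_of_nonneg_left this (by positivity)
      _ = _ := by ring
  nlinarith [mul_lt_mul_of_pos_right h11 h4]

theorem smooth_prime {m p : ℕ} (hm : Smooth23 m) (hp : p.Prime) (h : p ∣ m) : p ≤ 3 := by
  obtain ⟨i, j, rfl⟩ := hm
  rcases (Nat.Prime.dvd_mul hp).1 h with h1 | h1
  · have := Nat.le_of_dvd (by norm_num) (hp.dvd_of_dvd_pow h1)
    omega
  · exact Nat.le_of_dvd (by norm_num) (hp.dvd_of_dvd_pow h1)

theorem convergent_k (hM : 2 ≤ M) (hA : ∀ k, Adm M (s k))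
    (hL : ∀ k, Link w (s k) (s (k + 1))) (k : ℕ) :
    ∃ n, (GenContFract.of (lim s)).nums n = ((s k).1 : ℝ) ∧
      (GenContFract.of (lim s)).dens n = ((s k).2 : ℝ) := by
  have h1 := rat_lt_lim hM hA hL k
  have h2 := lim_le hM hA hL k
  have h3 := q_two hM hA k
  have h4 : (0 : ℝ) < (s k).2 := by exact_mod_cast (by omega : 0 < (s k).2)
  have h5 : (2 : ℝ) ≤ (s k).2 := by exact_mod_cast h3
  have hco : (s k).1.Coprime (s k).2 := (hA k).2.1
  -- the rational number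
  have hq0 : (s k).2 ≠ 0 := by omega
  set x : ℚ := ((s k).1 : ℚ) / ((s k).2 : ℚ) with hx
  have hxden : x.den = (s k).2 := by
    have := Rat.den_div_eq_of_coprime (a := ((s k).1 : ℤ)) (b := ((s k).2 : ℤ))
      (by exact_mod_cast (by omega : 0 < (s k).2)) (by simpa using hco)
    have h' : (x.den : ℤ) = ((s k).2 : ℤ) := by
      rw [← this, hx]
      push_cast
      rfl
    exact_mod_cast h'
  have hxr : (x : ℝ) = rat s k := by
    rw [hx]
    unfold rat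
    push_cast
    rfl
  have hlt : |lim s - (x : ℝ)| < 1 / (2 * (x.den : ℝ) ^ 2) := by
    rw [hxr, hxden, abs_of_pos (by linarith)]
    have h6 : 2 / ((s k).2 : ℝ) ^ 4 < 1 / (2 * ((s k).2 : ℝ) ^ 2) ∨
        2 / ((s k).2 : ℝ) ^ 4 = 1 / (2 * ((s k).2 : ℝ) ^ 2) := by
      apply lt_or_eq_of_le
      rw [div_le_div_iff₀ (by positivity) (by positivity)]
      have : (4 : ℝ) ≤ ((s k).2 : ℝ) ^ 2 := by nlinarith
      have h8 : (0 : ℝ) < ((s k).2 : ℝ) ^ 2 := by positivity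
      have h9 : ((s k).2 : ℝ) ^ 4 = ((s k).2 : ℝ) ^ 2 * ((s k).2 : ℝ) ^ 2 := by ring
      rw [h9]
      nlinarith
    -- strict because the bound `lim_le` at `k` can be improved through `k + 1`
    have h7 := rat_upper hM hA hL k 1
    have h8 := lim_le hM hA hL (k + 1)
    have h9 : rat s (k + 1) + 2 / ((s (k + 1)).2 : ℝ) ^ 4 < rat s k + 2 / ((s k).2 : ℝ) ^ 4 := by
      have g1 : rat s (k + 1) - rat s k ≤ 1 / ((s k).2 : ℝ) ^ 4 := (hL k).2.1
      have g2 := q_double hM hA hL k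
      have g5 : 2 * ((s k).2 : ℝ) ≤ (s (k + 1)).2 := by exact_mod_cast g2
      have g6 : 2 / ((s (k + 1)).2 : ℝ) ^ 4 < 1 / ((s k).2 : ℝ) ^ 4 := by
        have hpos : (0 : ℝ) < (s (k + 1)).2 := by linarith
        rw [div_lt_div_iff₀ (by positivity) (by positivity)]
        have g7 : (2 * ((s k).2 : ℝ)) ^ 4 ≤ ((s (k + 1)).2 : ℝ) ^ 4 :=
          pow_le_pow_left₀ (by positivity) g5 4
        have g8 : (0 : ℝ) < ((s k).2 : ℝ) ^ 4 := by positivity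
        nlinarith
      have g9 : 2 / ((s k).2 : ℝ) ^ 4 = 1 / ((s k).2 : ℝ) ^ 4 + 1 / ((s k).2 : ℝ) ^ 4 := by
        ring
      linarith
    rcases h6 with h6 | h6 <;> linarith
  obtain ⟨n, hn⟩ := Real.exists_convs_eq_rat hlt
  obtain ⟨A, B, hAn, hBn, hcop, hBpos⟩ := cf_pair (lim s) (lim_irrational hM hA hL) n
  refine ⟨n, ?_⟩
  rw [GenContFract.conv_eq_num_div_den, hAn, hBn, hxr] at hn
  unfold rat at hn
  have hBr : (0 : ℝ) < B := by exact_mod_cast hBpos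
  rw [div_eq_div_iff hBr.ne' h4.ne'] at hn
  have hn' : A * ((s k).2 : ℤ) = ((s k).1 : ℤ) * B := by exact_mod_cast hn
  -- B ∣ q and q ∣ B
  have hcop' : IsCoprime ((s k).1 : ℤ) ((s k).2 : ℤ) := Nat.isCoprime_iff_coprime.2 hco
  have hd1 : B ∣ ((s k).2 : ℤ) := by
    have : B ∣ A * ((s k).2 : ℤ) := ⟨(s k).1, by rw [hn']; ring⟩
    exact hcop.symm.dvd_of_dvd_mul_left this
  have hd2 : ((s k).2 : ℤ) ∣ B := by
    have : ((s k).2 : ℤ) ∣ ((s k).1 : ℤ) * B := ⟨A, by rw [← hn']; ring⟩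
    exact hcop'.symm.dvd_of_dvd_mul_left this
  have hBq : B = ((s k).2 : ℤ) := Int.dvd_antisymm hBpos.le (by positivity) hd1 hd2
  have hAp : A = ((s k).1 : ℤ) := by
    rw [hBq] at hn'
    have hne : ((s k).2 : ℤ) ≠ 0 := by exact_mod_cast hq0
    exact mul_right_cancel₀ hne hn'
  constructor
  · rw [hAn, hAp]; simp
  · rw [hBn, hBq]; simp

theorem inf_convergents (hM : 2 ≤ M) (hA : ∀ k, Adm M (s k))
    (hL : ∀ k, Link w (s k) (s (k + 1))) (N : ℕ) :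
    ∃ n ≥ N, ∃ a b : ℤ,
        (a : ℝ) = (GenContFract.of (lim s)).nums n ∧
        (b : ℝ) = (GenContFract.of (lim s)).dens n ∧
        ∀ p : ℕ, p.Prime → (p ∣ a.natAbs ∨ p ∣ b.natAbs) → p ≤ 3 := by
  choose F hF using convergent_k hM hA hL
  have hinj : Function.Injective F := by
    intro k l hkl
    have h1 := hF k
    have h2 := hF l
    rw [hkl] at h1
    have e1 : ((s k).1 : ℝ) = (s l).1 := by rw [← h1.1, ← h2.1]
    have e2 : ((s k).2 : ℝ) = (s l).2 := by rw [← h1.2, ← h2.2]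
    have : rat s k = rat s l := by
      unfold rat
      rw [e1, e2]
    exact (rat_mono hL).injective this
  obtain ⟨_, ⟨k, rfl⟩, hk⟩ := (Set.infinite_range_of_injective hinj).exists_gt N
  refine ⟨F k, hk.le, (s k).1, (s k).2, ?_, ?_, ?_⟩
  · rw [(hF k).1]; simp
  · rw [(hF k).2]; simp
  · intro p hp hd
    simp only [Int.natAbs_natCast] at hd
    rcases hd with hd | hd
    · exact smooth_prime (hA k).2.2.1 hp hd
    · exact smooth_prime (hA k).2.2.2.1 hp hd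

/-- lower bound for all large denominators -/
theorem lower (hM : 2 ≤ M) (hA : ∀ k, Adm M (s k)) (hL : ∀ k, Link w (s k) (s (k + 1)))
    (a : ℤ) (b : ℕ) (hb : (s 0).2 ≤ b) :
    1 / (b : ℝ) ^ (w + 3) ≤ |lim s - (a : ℝ) / b| := by
  -- find k
  have hex : ∃ k, b < (s (k + 1)).2 := ⟨b, by
    have := q_lower hM hA hL (b + 1)
    omega⟩
  classical
  set k := Nat.find hex with hk
  have hk1 : b < (s (k + 1)).2 := Nat.find_spec hex
  have hk0 : (s k).2 ≤ b := by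
    rcases Nat.eq_zero_or_pos k with h0 | h0
    · rw [h0]; exact hb
    · have := Nat.find_min hex (m := k - 1) (by omega)
      rw [Nat.sub_add_cancel h0] at this
      omega
  have hq2 := q_two hM hA k
  have hb2 : 2 ≤ b := by omega
  have hbr : (2 : ℝ) ≤ b := by exact_mod_cast hb2
  have hb0 : (0 : ℝ) < b := by linarith
  have hQ2 := q_two hM hA (k + 1)
  set p' := (s (k + 1)).1 with hp'
  set Q := (s (k + 1)).2 with hQ
  have hQr : (2 : ℝ) ≤ Q := by exact_mod_cast hQ2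
  have hQ0 : (0 : ℝ) < Q := by linarith
  have hbQ : (b : ℝ) < Q := by exact_mod_cast hk1
  have hne : (a : ℝ) / b ≠ (p' : ℝ) / Q := by
    intro h
    rw [div_eq_div_iff hb0.ne' hQ0.ne'] at h
    have h' : a * (Q : ℤ) = (p' : ℤ) * b := by exact_mod_cast h
    have hc : IsCoprime (Q : ℤ) (p' : ℤ) :=
      (Nat.isCoprime_iff_coprime.2 (hA (k + 1)).2.1).symm
    have hd : (Q : ℤ) ∣ (p' : ℤ) * b := ⟨a, by rw [← h']; ring⟩
    have hd2 : (Q : ℤ) ∣ (b : ℤ) := hc.dvd_of_dvd_mul_left hd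
    have hd3 : Q ∣ b := by exact_mod_cast hd2
    have := Nat.le_of_dvd (by omega) hd3
    omega
  have hst : 1 / (b : ℝ) ^ w ≤ |(p' : ℝ) / Q - (a : ℝ) / b| := (hL k).2.2 a b hk0 hne
  have hsep : 1 / ((b : ℝ) * Q) ≤ |(p' : ℝ) / Q - (a : ℝ) / b| := by
    rw [div_sub_div _ _ hQ0.ne' hb0.ne', abs_div, abs_of_pos (mul_pos hQ0 hb0),
      div_le_div_iff₀ (by positivity) (by positivity)]
    have h1 : (p' : ℤ) * b - (Q : ℤ) * a ≠ 0 := by
      intro h0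
      apply hne
      rw [div_eq_div_iff hb0.ne' hQ0.ne']
      have h2 : (p' : ℝ) * b - (Q : ℝ) * a = 0 := by exact_mod_cast h0
      linarith
    have h2 : (1 : ℤ) ≤ |(p' : ℤ) * b - (Q : ℤ) * a| := Int.one_le_abs h1
    have h3 : (1 : ℝ) ≤ |(p' : ℝ) * b - (Q : ℝ) * a| := by exact_mod_cast h2
    nlinarith [mul_pos hQ0 hb0]
  have hl1 := rat_lt_lim hM hA hL (k + 1)
  have hl2 := lim_le hM hA hL (k + 1)
  have hrk : rat s (k + 1) = (p' : ℝ) / Q := rfl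
  rw [hrk] at hl1 hl2
  rw [← hQ] at hl2
  have htri : |(p' : ℝ) / Q - (a : ℝ) / b| - 2 / (Q : ℝ) ^ 4 ≤ |lim s - (a : ℝ) / b| := by
    have h1 : |(p' : ℝ) / Q - (a : ℝ) / b| ≤ |(p' : ℝ) / Q - lim s| + |lim s - (a : ℝ) / b| :=
      abs_sub_le _ _ _
    have h2 : |(p' : ℝ) / Q - lim s| ≤ 2 / (Q : ℝ) ^ 4 := by
      rw [abs_of_neg (by linarith)]
      linarith
    linarith
  refine le_trans ?_ htri
  rcases Nat.lt_or_ge (b ^ (w + 1)) Q with hcase | hcase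
  · -- b^(w+1) < Q
    have hc : (b : ℝ) ^ (w + 1) < Q := by exact_mod_cast hcase
    have hbw : (0 : ℝ) < (b : ℝ) ^ w := by positivity
    have h1 : 2 / (Q : ℝ) ^ 4 ≤ 1 / (2 * (b : ℝ) ^ w) := by
      rw [div_le_div_iff₀ (by positivity) (by positivity)]
      have h2 : (b : ℝ) ^ w ≤ (b : ℝ) ^ (w + 1) := by
        rw [pow_succ]
        nlinarith
      have h3 : (8 : ℝ) ≤ (Q : ℝ) ^ 3 := by
        calc (8 : ℝ) = 2 ^ 3 := by norm_num
          _ ≤ (Q : ℝ) ^ 3 := pow_le_pow_left₀ (by norm_num) hQr 3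
      calc 2 * (2 * (b : ℝ) ^ w) = 4 * (b : ℝ) ^ w := by ring
        _ ≤ 8 * Q := by nlinarith
        _ ≤ (Q : ℝ) ^ 3 * Q := by nlinarith
        _ = 1 * (Q : ℝ) ^ 4 := by ring
    have h4 : 1 / (b : ℝ) ^ w - 1 / (2 * (b : ℝ) ^ w) = 1 / (2 * (b : ℝ) ^ w) := by
      field_simp
      ring
    have h5 : 1 / (b : ℝ) ^ (w + 3) ≤ 1 / (2 * (b : ℝ) ^ w) := by
      apply one_div_le_one_div_of_le (by positivity)
      calc 2 * (b : ℝ) ^ w ≤ (b : ℝ) ^ 3 * (b : ℝ) ^ w := by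
            apply mul_le_mul_of_nonneg_right _ hbw.le
            nlinarith [pow_le_pow_left₀ (by norm_num : (0 : ℝ) ≤ 2) hbr 3]
        _ = (b : ℝ) ^ (w + 3) := by ring
    linarith
  · have hc : (Q : ℝ) ≤ (b : ℝ) ^ (w + 1) := by exact_mod_cast hcase
    have h1 : 2 / (Q : ℝ) ^ 4 ≤ 1 / (2 * ((b : ℝ) * Q)) := by
      rw [div_le_div_iff₀ (by positivity) (by positivity)]
      have h3 : (4 : ℝ) ≤ (Q : ℝ) ^ 2 := by nlinarith
      calc 2 * (2 * ((b : ℝ) * Q)) = 4 * ((b : ℝ) * Q) := by ring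
        _ ≤ 4 * (Q * Q) := by nlinarith
        _ ≤ (Q : ℝ) ^ 2 * (Q * Q) := by
            apply mul_le_mul_of_nonneg_right h3 (by positivity)
        _ = 1 * (Q : ℝ) ^ 4 := by ring
    have h4 : 1 / ((b : ℝ) * Q) - 1 / (2 * ((b : ℝ) * Q)) = 1 / (2 * ((b : ℝ) * Q)) := by
      field_simp
      ring
    have h5 : 1 / (b : ℝ) ^ (w + 3) ≤ 1 / (2 * ((b : ℝ) * Q)) := by
      apply one_div_le_one_div_of_le (by positivity)
      calc 2 * ((b : ℝ) * Q) ≤ b * (b * b ^ (w + 1)) := by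
            have : (b : ℝ) * Q ≤ b * b ^ (w + 1) := mul_le_mul_of_nonneg_left hc hb0.le
            nlinarith [mul_pos hb0 hQ0]
        _ = (b : ℝ) ^ (w + 3) := by ring
    linarith

theorem not_liouville (hM : 2 ≤ M) (hA : ∀ k, Adm M (s k))
    (hL : ∀ k, Link w (s k) (s (k + 1))) : ¬ Liouville (lim s) := by
  intro h
  set t := (s 0).2 with ht
  obtain ⟨a, b, hb1, hne, hlt⟩ := h ((t + 1) * (w + 3))
  have hbpos : 0 < b := by omega
  obtain ⟨c, rfl⟩ := Int.eq_ofNat_of_zero_le hbpos.le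
  have hc2 : 2 ≤ c := by
    have : (1 : ℤ) < (c : ℤ) := hb1
    omega
  have hc0 : (0 : ℝ) < c := by exact_mod_cast (by omega : 0 < c)
  have hbig : (s 0).2 ≤ c ^ (t + 1) := by
    calc (s 0).2 = t := rfl
      _ ≤ t + 1 := by omega
      _ ≤ 2 ^ (t + 1) := Nat.lt_two_pow_self.le
      _ ≤ c ^ (t + 1) := Nat.pow_le_pow_left hc2 _
  have h1 := lower hM hA hL (a * (c : ℤ) ^ t) (c ^ (t + 1)) hbig
  have h2 : ((a * (c : ℤ) ^ t : ℤ) : ℝ) / ((c ^ (t + 1) : ℕ) : ℝ) = (a : ℝ) / c := by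
    push_cast
    field_simp
    ring
  rw [h2] at h1
  have h3 : 1 / ((c ^ (t + 1) : ℕ) : ℝ) ^ (w + 3) = 1 / (c : ℝ) ^ ((t + 1) * (w + 3)) := by
    push_cast
    rw [← pow_mul]
  rw [h3] at h1
  have h4 : ((c : ℤ) : ℝ) = (c : ℝ) := by simp
  rw [h4] at hlt
  linarith

end Limit

/-- Component F. -/
theorem final_of_stage (h : StageStmt) :
    ¬ (∀ ξ : ℝ, Irrational ξ →
      (∃ B : ℕ, ∀ N : ℕ, ∃ n ≥ N, ∃ a b : ℤ,
        (a : ℝ) = (GenContFract.of ξ).nums n ∧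
        (b : ℝ) = (GenContFract.of ξ).dens n ∧
        ∀ p : ℕ, p.Prime → (p ∣ a.natAbs ∨ p ∣ b.natAbs) → p ≤ B) →
      Liouville ξ) := by
  obtain ⟨w, M, s, hM, hA, hL⟩ := exists_chain h
  intro H
  exact not_liouville hM hA hL
    (H (lim s) (lim_irrational hM hA hL) ⟨3, inf_convergents hM hA hL⟩)

end Pool.Agent.Helper4.Chain
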