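import Pool.Agent.Helper4.DonTermE
import Pool.Agent.Helper57.DonPath
import Pool.Agent.Helper57.DonModeK

set_option autoImplicit false
set_option linter.unusedSectionVars false

/-!
MP_cc0723_lc: the chain of stabilizers, and the saving lemma when some element of `K` is away
from `K` for `D - 2` steps.
-/

namespace Pool.Agent.Helper4.Don

open Pool.Agent.Helper57.Don (Kc Kc_mono K_le_Kc σ_mem_Kc_succ Kc_lt_succ)

variable {n : ℕ} [NeZero n]

theorem exists_step (A : Data n) (S : AddSubgroup (ZMod n)) (hKS : A.K ≤ S)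
    (hex : ∃ t, ¬ Kc A t ≤ S) (t : ℕ) (ht : ¬ Kc A t ≤ S) :
    ∃ s, s + 1 ≤ t ∧ Kc A s ≤ S ∧ ∃ k ∈ Kc A s, A.σ k ∉ S := by
  classical
  set t' := Nat.find hex with ht'
  have h1 : ¬ Kc A t' ≤ S := Nat.find_spec hex
  have h2 : t' ≤ t := Nat.find_min' hex ht
  have h3 : t' ≠ 0 := by
    intro h4
    rw [h4] at h1
    exact h1 hKS
  obtain ⟨s, hs⟩ : ∃ s, t' = s + 1 := ⟨t' - 1, by omega⟩
  have h4 : Kc A s ≤ S := by
    by_contra h5
    exact Nat.find_min hex (by omega : s < t') h5
  refine ⟨s, by omega, h4, ?_⟩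
  by_contra hcon
  push Not at hcon
  apply h1
  rw [hs]
  refine sup_le h4 ?_
  rw [AddSubgroup.closure_le]
  rintro _ ⟨k, hk, rfl⟩
  exact hcon k hk

/-- representatives: from `z ∈ W`, `z + v ∉ W` to a small one, for `W` an `S`-union -/
theorem exists_rep {S : AddSubgroup (ZMod n)} {W : Finset (ZMod n)} (hS : S ≤ Stab W)
    (v : ZMod n) (hv : ∃ z ∈ W, z + v ∉ W) : ∃ x ∈ W, x + v ∉ W ∧ x.val < S.index := by
  obtain ⟨z, hz1, hz2⟩ := hv
  obtain ⟨x, hx1, hx2, -⟩ := exists_small_rep S z
  have hxS := hS hx1
  refine ⟨x, ?_, ?_, hx2⟩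
  · have := (mem_Stab _ _).1 hxS x
    rw [add_sub_cancel] at this
    exact this.1 hz1
  · intro h2
    have := (mem_Stab _ _).1 hxS (x + v)
    rw [show x + v + (z - x) = z + v by ring] at this
    exact hz2 (this.2 h2)

theorem exists_not_mem_stab {W : Finset (ZMod n)} {v : ZMod n} (hv : v ∉ Stab W) :
    ∃ z ∈ W, z + v ∉ W := by
  by_contra hcon
  push Not at hcon
  exact hv (mem_Stab_of _ _ hcon)

/-- a criterion for `V_j ⊆ Stab` -/
theorem V_sub_stab {A : Data n} {N a : ℕ} (ih : IH A N) {Z : Finset (ZMod n)} (h : Pr A N Z a)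
    (G : AddSubgroup (ZMod n)) (W : Finset (ZMod n)) (hW : ∀ y, y ∈ W ↔ y ∈ Z ∧ y ∈ G)
    (j : ℕ) (hVG : ∀ v ∈ V A j, v ∈ G)
    (hlev : ∀ y ∈ G, y.val < (Stab W).index → a + y.val + j < A.K.index)
    (hWne : ∀ y ∈ W, y ∈ G) {v : ZMod n} (hv : v ∈ V A j) : v ∈ Stab W := by
  apply mem_Stab_of
  intro z hz
  obtain ⟨y, hy1, hy2, -⟩ := exists_small_rep (Stab W) z
  have hy3 : y ∈ W := by
    have := (mem_Stab _ _).1 hy1 y
    rw [add_sub_cancel] at this
    exact this.1 hz
  have hyG := hWne y hy3
  have h1 := h.c1 ih (x := y.val) (j := j)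
    (by rw [ZMod.natCast_zmod_val]; exact ((hW y).1 hy3).1) (hlev y hyG hy2) hv
  rw [ZMod.natCast_zmod_val] at h1
  have h2 : y + v ∈ W := (hW _).2 ⟨h1, G.add_mem hyG (hVG v hv)⟩
  have h3 := (mem_Stab _ _).1 hy1 (y + v)
  rw [show y + v + (z - y) = z + v by ring] at h3
  exact h3.2 h2

/-- the sideways move as a state of full size -/
theorem side_pr {A : Data n} {N a : ℕ} {Z : Finset (ZMod n)} (h : Pr A N Z a)
    {x : ZMod n} (hx : x ∈ Z) : Pr A N (pull A.σ (sh x Z)) (a + x.val + 1) := by
  have h1 : Pr A N (sh x Z) (a + x.val) := by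
    have := h.shift x.val
    rwa [ZMod.natCast_zmod_val] at this
  have h0 : (0 : ZMod n) ∈ sh x Z := by simpa using hx
  have h2 := h1.keep h0 1
  rwa [pow_one] at h2

/-- the chain lemma -/
theorem chain {A : Data n} {N : ℕ} (ih : IH A N) (H : AddSubgroup (ZMod n))
    (hNo : ∀ (G : AddSubgroup (ZMod n)) (Z : Finset (ZMod n)) (a e : ℕ), Term A N G Z a e →
      G ≤ H → (¬ A.K ≤ Stab (inG G Z) ∨ Stab (inG G Z) = A.K) → False) (m : ℕ) :
    ∀ (G : AddSubgroup (ZMod n)) (Z : Finset (ZMod n)) (a e t : ℕ), Nat.card G = m → G ≤ H →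
      Term A N G Z a e → Kc A t ≤ G → (∃ g ∈ Kc A t, g ∉ Z) → False := by
  induction m using Nat.strong_induction_on with
  | _ m ihm =>
    intro G Z a e t hGm hGH hT hKt hgZ
    obtain ⟨g, hg, hgZ⟩ := hgZ
    set S := Stab (inG G Z) with hS
    by_cases hKS : A.K ≤ S
    swap
    · exact hNo G Z a e hT hGH (Or.inl hKS)
    by_cases hSK : S = A.K
    · exact hNo G Z a e hT hGH (Or.inr hSK)
    have hKltS : A.K < S := lt_of_le_of_ne hKS (Ne.symm hSK)
    have h0 : (0 : ZMod n) ∈ inG G Z := (mem_inG _ _ _).2 ⟨hT.z0, G.zero_mem⟩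
    have hS_in : ∀ s ∈ S, s ∈ inG G Z := by
      intro s hs
      have := ((mem_Stab _ _).1 hs 0).2 h0
      rwa [zero_add] at this
    have hSG : S ≤ G := fun s hs => ((mem_inG _ _ _).1 (hS_in s hs)).2
    have hKtS : ¬ Kc A t ≤ S := fun h1 => hgZ ((mem_inG _ _ _).1 (hS_in g (h1 hg))).1
    have hSneG : S ≠ G := by
      intro h1
      rw [← h1] at hKt
      exact hKtS hKt
    have hSltG : S < G := lt_of_le_of_ne hSG hSneG
    have hcard : Nat.card S < m := by
      obtain ⟨c, hc⟩ := (le_iff_index_dvd _ _).1 hSG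
      have h1 := card_mul_index' S
      have h2 := card_mul_index' G
      have h3 := index_pos' G
      have h4 := index_pos' S
      have h5 : c ≠ 0 := by rintro rfl; omega
      have h6 : c ≠ 1 := by
        rintro rfl
        rw [mul_one] at hc
        exact hSneG (eq_of_index_eq hc)
      have h7 : 2 ≤ c := by omega
      rw [hGm] at h2
      rw [hc] at h1
      have h8 := card_pos' S
      have h9 : Nat.card S * (G.index * c) = (Nat.card S * c) * G.index := by ring
      rw [h9] at h1
      have h10 := Nat.eq_of_mul_eq_mul_right h3 (h1.trans h2.symm)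
      have h11 : Nat.card S * 2 ≤ Nat.card S * c := Nat.mul_le_mul_left _ h7
      omega
    obtain ⟨s, hst, hsS, k, hk, hσk⟩ := exists_step A S hKS ⟨t, hKtS⟩ t hKtS
    have hσG : A.σ k ∈ G := hKt (Kc_mono A hst (σ_mem_Kc_succ A hk))
    obtain ⟨x, hx1, hx2, hx3⟩ := exists_rep (le_refl S) (A.σ k) (exists_not_mem_stab hσk)
    have hx1' := (mem_inG _ _ _).1 hx1
    have hx2' : x + A.σ k ∉ Z := fun h1 => hx2 ((mem_inG _ _ _).2 ⟨h1, G.add_mem hx1'.2 hσG⟩)
    have hxv := val_add_index_le hSG hx1'.2 hx3
    have hpr := side_pr hT.pr hx1'.1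
    have hz0 : (0 : ZMod n) ∈ pull A.σ (sh x Z) := by
      rw [mem_pull, A.σ0, mem_sh, zero_add]
      exact hx1'.1
    have hkn : k ∉ pull A.σ (sh x Z) := by
      rw [mem_pull, mem_sh, add_comm]
      exact hx2'
    have hcd : (pull A.σ (sh x Z)).card = N := by rw [card_pull, card_sh, hT.card]
    have hμ := index_pos' G
    have hE := hT.e_lt
    have ha := hT.ha
    have he := hT.he
    obtain ⟨ρ, hρ1, hρ2, hρ3⟩ := Don.dims A S hKltS
    have hρ4 : S.index * 2 ≤ S.index * ρ := Nat.mul_le_mul_left _ hρ1
    obtain ⟨c, hc⟩ := (le_iff_index_dvd _ _).1 hSG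
    have hSpos := index_pos' S
    have hc2 : 2 ≤ c := by
      have h5 : c ≠ 0 := by rintro rfl; omega
      have h6 : c ≠ 1 := by
        rintro rfl
        rw [mul_one] at hc
        exact hSneG (eq_of_index_eq hc)
      omega
    rcases Nat.lt_or_ge c 3 with hc3 | hc3
    · -- index two
      have hc' : c = 2 := by omega
      subst hc'
      -- values of representatives in `G`
      have hval : ∀ y ∈ G, y.val < S.index → y.val = 0 ∨ y.val = G.index := by
        intro y hy hyS
        rw [mem_iff_dvd] at hy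
        obtain ⟨d, hd⟩ := hy
        have h1 : d < 2 := by
          by_contra h2
          push Not at h2
          have := Nat.mul_le_mul_left G.index h2
          omega
        have h2 : d = 0 ∨ d = 1 := by omega
        rcases h2 with rfl | rfl
        · left; simpa using hd
        · right; simpa using hd
      have hinS : ∀ v ∈ inG G Z, v ∈ S := by
        intro v hv
        by_contra hvS
        apply hx2
        have hvG := ((mem_inG _ _ _).1 hv).2
        -- every element of `G` is in `inG G Z`
        have hall : ∀ g' ∈ G, g' ∈ inG G Z := by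
          intro g' hg'
          obtain ⟨y, hy1, hy2, -⟩ := exists_small_rep S g'
          obtain ⟨y', hy1', hy2', -⟩ := exists_small_rep S v
          have hyG : y ∈ G := by
            have := G.sub_mem hg' (hSG hy1)
            simpa using this
          have hyG' : y' ∈ G := by
            have := G.sub_mem hvG (hSG hy1')
            simpa using this
          have hv0 : y'.val ≠ 0 := by
            intro h1
            have h2 : y' = 0 := by
              apply ZMod.val_injective n
              rw [h1, ZMod.val_zero]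
            rw [h2, sub_zero] at hy1'
            exact hvS hy1'
          have hv1 : y'.val = G.index := by
            rcases hval y' hyG' hy2' with h1 | h1
            · exact absurd h1 hv0
            · exact h1
          rcases hval y hyG hy2 with h1 | h1
          · have h2 : y = 0 := by
              apply ZMod.val_injective n
              rw [h1, ZMod.val_zero]
            rw [h2, sub_zero] at hy1
            exact hS_in g' hy1
          · have h2 : y = y' := by
              apply ZMod.val_injective n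
              rw [h1, hv1]
            have h3 : g' - v ∈ S := by
              have := S.sub_mem hy1 hy1'
              rw [h2] at this
              convert this using 1
              ring
            have h4 := ((mem_Stab _ _).1 h3 v).2 hv
            rwa [add_sub_cancel] at h4
        exact hall _ (G.add_mem hx1'.2 hσG)
      have hx0 : x.val = 0 := by
        have h1 := hinS x hx1
        rw [mem_iff_dvd] at h1
        exact Nat.eq_zero_of_dvd_of_lt h1 hx3
      have hT' : Term A N S (pull A.σ (sh x Z)) (a + x.val + 1) e := by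
        refine ⟨hKltS, hpr, hcd, hz0, ?_, ?_, ?_⟩
        · omega
        · omega
        · intro v hv
          apply hinS
          rw [mem_inG]
          constructor
          · have := hT.pr.c1 ih (x := 0) (j := A.K.index - S.index - e)
              (by simpa using hT.z0) (by omega) hv
            simpa using this
          · exact hT.hV v (V_mono A (by omega) hv)
      exact ihm _ hcard S _ _ e s rfl (hSG.trans hGH) hT' hsS ⟨k, hk, hkn⟩
    · -- index at least three
      have h3 : G.index * 3 ≤ S.index := by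
        rw [hc]
        exact Nat.mul_le_mul_left _ hc3
      have hT' : Term A N S (pull A.σ (sh x Z)) (a + x.val + 1) (e + 1) := by
        refine ⟨hKltS, hpr, hcd, hz0, ?_, ?_, ?_⟩
        · omega
        · rw [pow_succ]
          omega
        · intro v hv
          by_cases hD : A.K.index ≤ S.index + (e + 1)
          · apply hKS
            rw [mem_V] at hv
            obtain ⟨i, hi, k', hk', rfl⟩ := hv
            have : i = 0 := by omega
            subst this
            simpa using hk'
          · push Not at hD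
            refine V_sub_stab ih hT.pr G (inG G Z) (fun y => mem_inG _ _ _)
              (A.K.index - S.index - (e + 1)) ?_ ?_
              (fun y hy => ((mem_inG _ _ _).1 hy).2) hv
            · intro v' hv'
              exact hT.hV v' (V_mono A (by omega) hv')
            · intro y hy hy2
              have := val_add_index_le hSG hy hy2
              omega
      exact ihm _ hcard S _ _ (e + 1) s rfl (hSG.trans hGH) hT' hsS ⟨k, hk, hkn⟩

/-- the chain `K_t` leaves every proper subgroup -/
theorem exists_not_le (A : Data n) (H : AddSubgroup (ZMod n)) (hH : H ≠ ⊤) :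
    ∃ t, ¬ Kc A t ≤ H := by
  by_contra hcon
  push Not at hcon
  have hne : ∀ t, Kc A t ≠ ⊤ := by
    intro t h1
    have h2 := hcon t
    rw [h1, top_le_iff] at h2
    exact hH h2
  have hc : ∀ t, t + 1 ≤ Nat.card (Kc A t) := by
    intro t
    induction t with
    | zero => exact card_pos' _
    | succ t iht =>
      have h1 := Kc_lt_succ A (hne t)
      have h2 : Nat.card (Kc A t) < Nat.card (Kc A (t + 1)) := by
        have h3 := Set.ncard_lt_ncard (s := (Kc A t : Set (ZMod n)))
          (t := (Kc A (t + 1) : Set (ZMod n))) h1 (Set.toFinite _)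
        exact h3
      omega
  have h1 := hc n
  have h2 : Nat.card (Kc A n) ≤ n := by
    have h3 := card_mul_index' (Kc A n)
    have h4 := index_pos' (Kc A n)
    calc Nat.card (Kc A n) ≤ Nat.card (Kc A n) * (Kc A n).index :=
          Nat.le_mul_of_pos_right _ h4
      _ = n := h3
  omega

/-- the saving lemma in the case L -/
theorem saving_L (A : Data n) (hK : A.K ≠ ⊤) {k0 : ZMod n} (hk0 : k0 ∈ A.K)
    (hk1 : Away A (A.K.index - 2) k0) (Y : Finset (ZMod n)) (hne : Y.Nonempty)
    (hnu : Y ≠ Finset.univ) (hun : IsUnion A.K Y) (ih : IH A Y.card) :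
    Cst A.f Y (n * Y.card) := by
  by_contra hbad
  have hY : Pr A Y.card Y 0 := Pr.start hbad
  by_cases hst : Stab Y = A.K
  · exact Pool.Agent.Helper57.ModeK.modeK A Y ih hY hne hK hst
  have h3 := three_le_card A hK
  have hKH : A.K ≤ Stab Y := (isUnion_iff _ _).1 hun
  have hKltH : A.K < Stab Y := lt_of_le_of_ne hKH (Ne.symm hst)
  have hH : Stab Y ≠ ⊤ := by
    intro h1
    apply hnu
    obtain ⟨y, hy⟩ := hne
    ext z
    simp only [Finset.mem_univ, iff_true]
    have h2 : z - y ∈ Stab Y := by rw [h1]; exact AddSubgroup.mem_top _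
    have := ((mem_Stab _ _).1 h2 y).2 hy
    rwa [add_sub_cancel] at this
  have hN : Nat.card A.K ∣ Y.card := card_dvd_of_isUnion A.K Y hun
  have hNo : ∀ (G : AddSubgroup (ZMod n)) (Z : Finset (ZMod n)) (a e : ℕ),
      Term A Y.card G Z a e → G ≤ Stab Y →
        (¬ A.K ≤ Stab (inG G Z) ∨ Stab (inG G Z) = A.K) → False := by
    intro G Z a e hT hGH hor
    have hGN : Nat.card G ≤ Y.card :=
      le_card_of_isUnion ((isUnion_iff _ _).2 hGH) hne
    rcases hor with hB | hA
    · rcases Nat.eq_zero_or_pos e with rfl | he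
      · exact hT.B_zero ih hB hN h3
      · exact hT.B_pos ih hB hN hk0 hk1 he
    · rcases Nat.eq_zero_or_pos e with rfl | he
      · obtain ⟨r, U, w, hTA⟩ := hT.toTA ih hA hN h3 hGN
        rcases Nat.lt_or_ge (Nat.card A.K) 4 with h4 | h4
        · exact hTA.three ih (by omega)
        · obtain ⟨-, h5 | h5, -⟩ := hTA.stage ih h4
          · exact hTA.four ih h5 hY hGH hH
          · exact hTA.five ih h5
      · exact hT.A_pos ih hA hN h3 he
  -- the first step
  obtain ⟨t, ht⟩ := exists_not_le A (Stab Y) hH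
  obtain ⟨s, -, hsS, k, hk, hσk⟩ := exists_step A (Stab Y) hKH ⟨t, ht⟩ t ht
  obtain ⟨x, hx1, hx2, hx3⟩ := exists_rep (le_refl (Stab Y)) (A.σ k) (exists_not_mem_stab hσk)
  have hpr := side_pr hY hx1
  have hl2 : 2 ≤ (Stab Y).index := by
    have h1 := index_pos' (Stab Y)
    have h2 : (Stab Y).index ≠ 1 := fun h2 => hH (AddSubgroup.index_eq_one.1 h2)
    omega
  have hlD : (Stab Y).index ≤ A.K.index :=
    Nat.le_of_dvd (index_pos' _) ((le_iff_index_dvd _ _).1 hKH)
  have hT : Term A Y.card (Stab Y) (pull A.σ (sh x Y)) (0 + x.val + 1) 0 := by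
    refine ⟨hKltH, hpr, by rw [card_pull, card_sh], ?_, ?_, ?_, ?_⟩
    · rw [mem_pull, A.σ0, mem_sh, zero_add]
      exact hx1
    · omega
    · simpa using hl2
    · intro v hv
      refine V_sub_stab ih hY ⊤ Y (fun y => by simp) (A.K.index - (Stab Y).index - 0) ?_ ?_
        (fun y _ => AddSubgroup.mem_top y) hv
      · intro v' _
        exact AddSubgroup.mem_top v'
      · intro y _ hy2
        omega
  refine chain ih (Stab Y) hNo (Nat.card (Stab Y)) (Stab Y) _ _ 0 s rfl le_rfl hT hsS
    ⟨k, hk, ?_⟩
  rw [mem_pull, mem_sh, add_comm]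
  exact hx2

/-- Case L -/
theorem caseL (A : Data n) (hK : A.K ≠ ⊤)
    (hL : ∃ k ∈ A.K, Away A (A.K.index - 2) k) :
    ∀ U : Finset (ZMod n), U ≠ Finset.univ → Cst A.f U (n * U.card) := by
  obtain ⟨k0, hk0, hk1⟩ := hL
  exact main_of_H A (fun Y hne hnu hun ih => saving_L A hK hk0 hk1 Y hne hnu hun ih)

/-- the case `K = ⊤` -/
theorem caseTop (A : Data n) (hK : A.K = ⊤) :
    ∀ U : Finset (ZMod n), U ≠ Finset.univ → Cst A.f U (n * U.card) := by
  refine main_of_H A (fun Y hne hnu hun _ => ?_)
  exfalso
  apply hnu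
  obtain ⟨y, hy⟩ := hne
  ext z
  simp only [Finset.mem_univ, iff_true]
  have := hun y hy (z - y) (by rw [hK]; exact AddSubgroup.mem_top _)
  rwa [add_sub_cancel] at this

end Pool.Agent.Helper4.Don
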