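import Pool.Agent.Helper4.DonModel

set_option autoImplicit false
set_option linter.unusedSectionVars false

/-!
MP_cc0723_lc: core of the saving lemma. `Pr A N Z a` says `|Z| ≤ N` and
`cost Z + a > n |Z|`.
-/

namespace Pool.Agent.Helper4.Don

variable {n : ℕ} [NeZero n]

/-! ### Subgroups of `ZMod n` -/

theorem card_mul_index' (G : AddSubgroup (ZMod n)) : Nat.card G * G.index = n := by
  rw [AddSubgroup.card_mul_index, Nat.card_zmod]

theorem index_pos' (G : AddSubgroup (ZMod n)) : 0 < G.index :=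
  Nat.pos_of_ne_zero AddSubgroup.index_ne_zero_of_finite

theorem card_pos' (G : AddSubgroup (ZMod n)) : 0 < Nat.card G := Nat.card_pos

theorem index_dvd' (G : AddSubgroup (ZMod n)) : G.index ∣ n :=
  ⟨Nat.card G, by rw [mul_comm, card_mul_index']⟩

theorem index_mem' (G : AddSubgroup (ZMod n)) : ((G.index : ℕ) : ZMod n) ∈ G := by
  have := AddSubgroup.nsmul_index_mem G (1 : ZMod n)
  simpa using this

theorem natCast_mem_of_dvd (G : AddSubgroup (ZMod n)) {x : ℕ} (h : G.index ∣ x) :
    (x : ZMod n) ∈ G := by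
  obtain ⟨c, rfl⟩ := h
  have := G.nsmul_mem (index_mem' G) c
  rw [nsmul_eq_mul] at this
  push_cast
  rwa [mul_comm]

theorem dvd_of_natCast_mem (G : AddSubgroup (ZMod n)) {x : ℕ} (hx : (x : ZMod n) ∈ G) :
    G.index ∣ x := by
  have h8 : (Nat.card G) • (x : ZMod n) = 0 := by
    have h3 : (Nat.card G) • (⟨(x : ZMod n), hx⟩ : G) = 0 := card_nsmul_eq_zero'
    have h4 := congrArg (Subtype.val) h3
    rw [AddSubgroup.coe_nsmul] at h4
    exact h4
  rw [nsmul_eq_mul, ← Nat.cast_mul, ZMod.natCast_eq_zero_iff] at h8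
  have h5 := card_mul_index' G
  have h6 : Nat.card G * G.index ∣ Nat.card G * x := by
    rw [h5]
    exact h8
  exact Nat.dvd_of_mul_dvd_mul_left (card_pos' G) h6

theorem mem_iff_dvd (G : AddSubgroup (ZMod n)) (x : ZMod n) : x ∈ G ↔ G.index ∣ x.val := by
  constructor
  · intro hx
    apply dvd_of_natCast_mem
    rwa [ZMod.natCast_zmod_val]
  · intro h
    have := natCast_mem_of_dvd G h
    rwa [ZMod.natCast_zmod_val] at this

theorem le_iff_index_dvd (G G' : AddSubgroup (ZMod n)) : G ≤ G' ↔ G'.index ∣ G.index := by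
  constructor
  · intro h
    exact AddSubgroup.index_dvd_of_le h
  · intro h x hx
    rw [mem_iff_dvd] at hx ⊢
    exact h.trans hx

theorem eq_of_index_eq {G G' : AddSubgroup (ZMod n)} (h : G.index = G'.index) : G = G' :=
  le_antisymm ((le_iff_index_dvd _ _).2 (by rw [h])) ((le_iff_index_dvd _ _).2 (by rw [h]))

/-- the largest element of `G` -/
theorem neg_index_val (G : AddSubgroup (ZMod n)) (h : G.index < n) :
    (-((G.index : ℕ) : ZMod n)).val = n - G.index := by
  have h1 := index_pos' G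
  have h2 : (-((G.index : ℕ) : ZMod n)) = ((n - G.index : ℕ) : ZMod n) := by
    rw [Nat.cast_sub h.le, ZMod.natCast_self]
    ring
  rw [h2, ZMod.val_natCast_of_lt (by omega)]

theorem val_le_of_mem (G : AddSubgroup (ZMod n)) {x : ZMod n} (hx : x ∈ G) :
    x.val + G.index ≤ n := by
  rw [mem_iff_dvd] at hx
  obtain ⟨c, hc⟩ := hx
  obtain ⟨d, hd⟩ := index_dvd' G
  have h1 := x.val_lt
  have h2 : c < d := by
    by_contra h
    push Not at h
    have := Nat.mul_le_mul_left G.index h
    omega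
  have h3 : G.index * (c + 1) ≤ G.index * d := Nat.mul_le_mul_left _ h2
  rw [Nat.mul_succ] at h3
  omega

/-- small representatives inside a bigger subgroup -/
theorem val_add_index_le {G H : AddSubgroup (ZMod n)} (hHG : H ≤ G) {x : ZMod n} (hx : x ∈ G)
    (hx2 : x.val < H.index) : x.val + G.index ≤ H.index := by
  rw [mem_iff_dvd] at hx
  obtain ⟨c, hc⟩ := hx
  obtain ⟨d, hd⟩ := (le_iff_index_dvd _ _).1 hHG
  have h2 : c < d := by
    by_contra h
    push Not at h
    have := Nat.mul_le_mul_left G.index h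
    omega
  have h3 : G.index * (c + 1) ≤ G.index * d := Nat.mul_le_mul_left _ h2
  rw [Nat.mul_succ] at h3
  omega

/-! ### `Pr` -/

/-- `|Z| ≤ N` and `cost Z + a > n |Z|` -/
def Pr (A : Data n) (N : ℕ) (Z : Finset (ZMod n)) (a : ℕ) : Prop :=
  Z.card ≤ N ∧ ∀ t, Cst A.f Z t → n * Z.card < t + a

/-- the induction hypothesis -/
def IH (A : Data n) (N : ℕ) : Prop :=
  ∀ Z : Finset (ZMod n), Z.card < N → Cst A.f Z (n * Z.card)

theorem Pr.start {A : Data n} {Y : Finset (ZMod n)} (h : ¬ Cst A.f Y (n * Y.card)) :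
    Pr A Y.card Y 0 := by
  refine ⟨le_refl _, fun t ht => ?_⟩
  by_contra h1
  push Not at h1
  exact h (ht.mono (by omega))

theorem Pr.mono {A : Data n} {N a b : ℕ} {Z : Finset (ZMod n)} (h : Pr A N Z a) (hab : a ≤ b) :
    Pr A N Z b :=
  ⟨h.1, fun t ht => by have := h.2 t ht; omega⟩

theorem Pr.shift {A : Data n} {N a : ℕ} {Z : Finset (ZMod n)} (h : Pr A N Z a) (x : ℕ) :
    Pr A N (sh (x : ZMod n) Z) (a + x) := by
  refine ⟨by rw [card_sh]; exact h.1, fun t ht => ?_⟩
  have := h.2 _ (Cst.rot_nat x ht)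
  rw [card_sh]
  omega

theorem Pr.keep {A : Data n} {N a : ℕ} {Z : Finset (ZMod n)} (h : Pr A N Z a)
    (h0 : (0 : ZMod n) ∈ Z) (i : ℕ) : Pr A N (pull (A.σ ^ i) Z) (a + i) := by
  refine ⟨by rw [card_pull]; exact h.1, fun t ht => ?_⟩
  have := h.2 _ (Cst.keep A h0 i ht)
  rw [card_pull]
  omega

/-- an exit through `u_i` -/
theorem Pr.exit {A : Data n} {N a : ℕ} (ih : IH A N) {Z : Finset (ZMod n)} (h : Pr A N Z a)
    {x : ZMod n} (hx : x ∈ Z) (i : ℕ) (hi : x + A.u i ∉ Z) : n ≤ a + x.val + i := by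
  have hpos : 0 < Z.card := Finset.card_pos.2 ⟨x, hx⟩
  have hcard := card_exitAt A hx i
  have h1 := ih ((pull (A.σ ^ (i + 1)) (sh x Z)).erase 0) (by have := h.1; omega)
  have h2 := h.2 _ (Cst.exitAt A hx i hi h1)
  rw [hcard] at h2
  obtain ⟨m, hm⟩ : ∃ m, Z.card = m + 1 := ⟨Z.card - 1, by omega⟩
  rw [hm, Nat.add_sub_cancel, Nat.mul_succ] at h2
  omega

/-- dropping the token `0` -/
theorem Pr.drop {A : Data n} {N a : ℕ} {U : Finset (ZMod n)}
    (h : Pr A N U (n - 1 + a)) (h0 : (0 : ZMod n) ∈ U) (hu : A.u 0 ∉ U) :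
    Pr A N (pull A.σ (U.erase 0)) a := by
  have hn : 0 < n := Nat.pos_of_ne_zero (NeZero.ne n)
  have hpos : 0 < U.card := Finset.card_pos.2 ⟨0, h0⟩
  have hc : (U.erase 0).card = U.card - 1 := Finset.card_erase_of_mem h0
  refine ⟨by rw [card_pull, hc]; have := h.1; omega, fun t ht => ?_⟩
  have e : pull A.σ (U.erase 0) = (pull A.σ U).erase 0 := by
    ext y
    simp only [mem_pull, Finset.mem_erase]
    constructor
    · rintro ⟨h1, h2⟩
      exact ⟨fun h3 => h1 (by rw [h3, A.σ0]), h2⟩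
    · rintro ⟨h1, h2⟩
      refine ⟨fun h3 => h1 ?_, h2⟩
      apply A.σ.injective
      rw [h3, A.σ0]
  rw [e] at ht
  have h1 := h.2 _ (Cst.exit1 A h0 hu ht)
  rw [card_pull, hc]
  obtain ⟨m, hm⟩ : ∃ m, U.card = m + 1 := ⟨U.card - 1, by omega⟩
  rw [hm, Nat.mul_succ] at h1
  rw [hm, Nat.add_sub_cancel]
  omega

theorem Pr.pos {A : Data n} {N a : ℕ} (ih : IH A N) {Z : Finset (ZMod n)} (h : Pr A N Z a)
    (hZ : Z.card < N) : 1 ≤ a := by
  have := h.2 _ (ih Z hZ)
  omega

/-! ### Broken sets -/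

/-- `Z` meets `K` but does not contain it -/
def Brk (A : Data n) (Z : Finset (ZMod n)) : Prop :=
  (∃ k ∈ A.K, k ∈ Z) ∧ ∃ k ∈ A.K, k ∉ Z

theorem Data.u_mem_K (A : Data n) (i : ℕ) : A.u i ∈ A.K :=
  AddSubgroup.subset_closure ⟨i, rfl⟩

theorem Data.H_le_K (A : Data n) (i : ℕ) : A.H i ≤ A.K := by
  unfold Data.H Data.K
  apply AddSubgroup.closure_mono
  rintro _ ⟨j, -, rfl⟩
  exact ⟨j, rfl⟩

theorem Data.H_zero (A : Data n) : A.H 0 = ⊥ := by
  unfold Data.H
  simp

theorem brk_exit (A : Data n) (Z : Finset (ZMod n)) (h : Brk A Z) :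
    (∃ x ∈ A.K, x ∈ Z ∧ x + A.u 0 ∉ Z) ∨
      ∃ i : ℕ, ∃ x ∈ A.K, x ∈ Z ∧ x + A.u i ∉ Z ∧ x.val + i + 2 * A.K.index ≤ n := by
  classical
  obtain ⟨⟨k, hk1, hk2⟩, k', hk3, hk4⟩ := h
  set Z' : Finset (ZMod n) := Z.filter (fun y => y ∈ A.K) with hZ'
  have hnot : ¬ IsUnion A.K Z' := by
    intro h1
    have h2 := h1 k (by rw [hZ', Finset.mem_filter]; exact ⟨hk2, hk1⟩) (k' - k)
      (A.K.sub_mem hk3 hk1)
    rw [add_sub_cancel, hZ', Finset.mem_filter] at h2
    exact hk4 h2.1
  obtain ⟨i, h1, h2, x, h3, h4, h5⟩ := exists_exit' A Z' hnot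
  have h3' := h3
  rw [hZ', Finset.mem_filter] at h3'
  have h4' : x + A.u i ∉ Z := by
    intro h6
    apply h4
    rw [hZ', Finset.mem_filter]
    exact ⟨h6, A.K.add_mem h3'.2 (A.u_mem_K i)⟩
  rcases Nat.eq_zero_or_pos i with rfl | hi
  · exact Or.inl ⟨x, h3'.2, h3'.1, h4'⟩
  · right
    refine ⟨i, x, h3'.2, h3'.1, h4', ?_⟩
    have h6 := card_mul_index' (A.H i)
    have h7 := val_add_index_le (A.H_le_K i) h3'.2 h5
    -- `index (H i) ≥ 2 D`
    obtain ⟨c, hc⟩ := (le_iff_index_dvd _ _).1 (A.H_le_K i)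
    have h8 : 2 ≤ c := by
      rcases Nat.lt_or_ge c 2 with h9 | h9
      · exfalso
        have h10 : c = 0 ∨ c = 1 := by omega
        rcases h10 with rfl | rfl
        · have := index_pos' (A.H i)
          omega
        · rw [mul_one] at hc
          have h11 : A.H i = A.K := eq_of_index_eq hc
          apply hnot
          rw [isUnion_iff, ← h11]
          exact h1
      · exact h9
    have h9 : 2 * A.K.index ≤ (A.H i).index := by
      rw [hc, mul_comm]
      exact Nat.mul_le_mul_left _ h8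
    -- `n = h N`
    have h10 : 2 ≤ Nat.card (A.H i) := by omega
    obtain ⟨e, he⟩ : ∃ e, Nat.card (A.H i) = e + 2 := ⟨Nat.card (A.H i) - 2, by omega⟩
    have hD := index_pos' A.K
    rw [he] at h6 h2
    have h11 : (e + 2) * (A.H i).index = e * (A.H i).index + 2 * (A.H i).index := by ring
    have h12 : e ≤ e * (A.H i).index := Nat.le_mul_of_pos_right _ (index_pos' _)
    omega

theorem Pr.brk {A : Data n} {N a : ℕ} (ih : IH A N) {Z : Finset (ZMod n)} (h : Pr A N Z a)
    (hb : Brk A Z) : A.K.index ≤ a := by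
  rcases brk_exit A Z hb with ⟨x, h1, h2, h3⟩ | ⟨i, x, h1, h2, h3, h4⟩
  · have h5 := h.exit ih h2 0 h3
    have h6 := val_le_of_mem A.K h1
    omega
  · have h5 := h.exit ih h2 i h3
    omega

/-- unique exit of a broken set of level `< 2D` -/
theorem Pr.xu {A : Data n} {N a : ℕ} (ih : IH A N) {Z : Finset (ZMod n)} (h : Pr A N Z a)
    (hb : Brk A Z) (ha : a < 2 * A.K.index) :
    -((A.K.index : ℕ) : ZMod n) ∈ Z ∧ -((A.K.index : ℕ) : ZMod n) + A.u 0 ∉ Z ∧
      ∀ x ∈ A.K, x ∈ Z → x + A.u 0 ∉ Z → x = -((A.K.index : ℕ) : ZMod n) := by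
  have key : ∀ x ∈ A.K, x ∈ Z → x + A.u 0 ∉ Z → x = -((A.K.index : ℕ) : ZMod n) := by
    intro x h1 h2 h3
    have h5 := h.exit ih h2 0 h3
    have h6 := val_le_of_mem A.K h1
    have h7 := h1
    rw [mem_iff_dvd] at h7
    have hD := index_pos' A.K
    have h8 : A.K.index ∣ (n - x.val) := Nat.dvd_sub (index_dvd' _) h7
    obtain ⟨c, hc⟩ := h8
    have hv := x.val_lt
    have h9 : c = 1 := by
      have hc0 : c ≠ 0 := by
        rintro rfl
        omega
      have hc2 : c < 2 := by
        by_contra h10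
        push Not at h10
        have h11 : A.K.index * 2 ≤ A.K.index * c := Nat.mul_le_mul_left _ h10
        omega
      omega
    rw [h9, mul_one] at hc
    have h10 : x.val = n - A.K.index := by omega
    have h11 : x = ((n - A.K.index : ℕ) : ZMod n) := by
      rw [← h10, ZMod.natCast_zmod_val]
    rw [h11, Nat.cast_sub (by omega), ZMod.natCast_self]
    ring
  rcases brk_exit A Z hb with ⟨x, h1, h2, h3⟩ | ⟨i, x, h1, h2, h3, h4⟩
  · have h4 := key x h1 h2 h3
    rw [h4] at h2 h3
    exact ⟨h2, h3, key⟩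
  · have h5 := h.exit ih h2 i h3
    omega

/-- broken classes of a set of level `< D` -/
theorem Pr.cls {A : Data n} {N a : ℕ} (ih : IH A N) {R : Finset (ZMod n)} (h : Pr A N R a)
    (ha : a < A.K.index) {j : ℕ} (hj1 : 1 ≤ j) (hj2 : j ≤ A.K.index)
    (hb : Brk A (sh (-(j : ZMod n)) R)) :
    j ≤ a ∧ (0 : ZMod n) ∈ sh (-(j : ZMod n)) R ∧ A.u 0 ∉ sh (-(j : ZMod n)) R ∧
      (∀ x ∈ A.K, x ∈ sh (-(j : ZMod n)) R → x + A.u 0 ∉ sh (-(j : ZMod n)) R → x = 0) ∧
      Pr A N (sh (-(j : ZMod n)) R) (n - 1 + (a - j + 1)) := by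
  have hDn : A.K.index ≤ n := Nat.le_of_dvd (Nat.pos_of_ne_zero (NeZero.ne n)) (index_dvd' _)
  have hb' : Brk A (sh ((A.K.index - j : ℕ) : ZMod n) R) := by
    obtain ⟨⟨k, hk1, hk2⟩, k', hk3, hk4⟩ := hb
    refine ⟨⟨k - (A.K.index : ZMod n), A.K.sub_mem hk1 (index_mem' _), ?_⟩,
      k' - (A.K.index : ZMod n), A.K.sub_mem hk3 (index_mem' _), ?_⟩
    · rw [mem_sh] at hk2 ⊢
      rw [Nat.cast_sub hj2]
      convert hk2 using 1
      ring
    · rw [mem_sh] at hk4 ⊢
      rw [Nat.cast_sub hj2]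
      convert hk4 using 2
      ring
  have hp := h.shift (A.K.index - j)
  have h1 := hp.brk ih hb'
  obtain ⟨h2, h3, h4⟩ := hp.xu ih hb' (by omega)
  have hja : j ≤ a := by omega
  refine ⟨hja, ?_, ?_, ?_, ?_⟩
  · rw [mem_sh] at h2 ⊢
    rw [Nat.cast_sub hj2] at h2
    convert h2 using 1
    ring
  · rw [mem_sh] at h3 ⊢
    rw [Nat.cast_sub hj2] at h3
    convert h3 using 2
    ring
  · intro x hx1 hx2 hx3
    have := h4 (x - (A.K.index : ZMod n)) (A.K.sub_mem hx1 (index_mem' _))
      (by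
        rw [mem_sh] at hx2 ⊢
        rw [Nat.cast_sub hj2]
        convert hx2 using 1
        ring)
      (by
        rw [mem_sh] at hx3 ⊢
        rw [Nat.cast_sub hj2]
        convert hx3 using 2
        ring)
    have h5 : x = (x - (A.K.index : ZMod n)) + (A.K.index : ZMod n) := by ring
    rw [h5, this]
    ring
  · have h5 := h.shift (n - j)
    rw [Nat.cast_sub (by omega), ZMod.natCast_self, zero_sub] at h5
    exact h5.mono (by omega)

/-! ### The sets `V_j` -/

/-- `V_j = K ∪ σ K ∪ … ∪ σ^j K` -/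
noncomputable def V (A : Data n) (j : ℕ) : Finset (ZMod n) :=
  open Classical in Finset.univ.filter (fun y => ∃ i ≤ j, ∃ k ∈ A.K, (A.σ ^ i) k = y)

theorem mem_V (A : Data n) (j : ℕ) (y : ZMod n) :
    y ∈ V A j ↔ ∃ i ≤ j, ∃ k ∈ A.K, (A.σ ^ i) k = y := by
  simp [V]

theorem K_sub_V (A : Data n) (j : ℕ) {k : ZMod n} (hk : k ∈ A.K) : k ∈ V A j :=
  (mem_V A j k).2 ⟨0, Nat.zero_le _, k, hk, by simp⟩

theorem V_mono (A : Data n) {i j : ℕ} (h : i ≤ j) : V A i ⊆ V A j := by
  intro y hy
  rw [mem_V] at hy ⊢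
  obtain ⟨l, hl, k, hk, e⟩ := hy
  exact ⟨l, hl.trans h, k, hk, e⟩

/-- (C1) -/
theorem Pr.c1 {A : Data n} {N a : ℕ} (ih : IH A N) {Z : Finset (ZMod n)} (h : Pr A N Z a)
    {x j : ℕ} (hx : (x : ZMod n) ∈ Z) (hj : a + x + j < A.K.index) {v : ZMod n}
    (hv : v ∈ V A j) : (x : ZMod n) + v ∈ Z := by
  rw [mem_V] at hv
  obtain ⟨i, hi, k, hk, rfl⟩ := hv
  have h1 := h.shift x
  have h0 : (0 : ZMod n) ∈ sh (x : ZMod n) Z := by simpa using hx
  have h2 := h1.keep h0 i
  by_contra hcon
  have hb : Brk A (pull (A.σ ^ i) (sh (x : ZMod n) Z)) := by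
    refine ⟨⟨0, A.K.zero_mem, ?_⟩, k, hk, ?_⟩
    · rw [mem_pull, A.pow_zero']
      exact h0
    · rw [mem_pull, mem_sh, add_comm]
      exact hcon
  have h3 := h2.brk ih hb
  omega

/-- no element of `K` reaches `t` within `w` steps -/
def Away (A : Data n) (w : ℕ) (t : ZMod n) : Prop :=
  ∀ s, 1 ≤ s → s ≤ w → ∀ k ∈ A.K, (A.σ ^ s) k ≠ t

theorem Away.mono {A : Data n} {w w' : ℕ} {t : ZMod n} (h : Away A w t) (hw : w' ≤ w) :
    Away A w' t := fun s hs1 hs2 k hk => h s hs1 (hs2.trans hw) k hk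

theorem ret_aux {A : Data n} {N a : ℕ} {U : Finset (ZMod n)}
    (h : Pr A N U (n - 1 + a)) (h0 : (0 : ZMod n) ∈ U) (hu : A.u 0 ∉ U) (B : ℕ)
    (hB : ∀ s, 1 ≤ s → a + s ≤ B + 1 → Pr A N (pull (A.σ ^ s) (U.erase 0)) (a + s - 1) →
      ¬ Brk A (pull (A.σ ^ s) (U.erase 0))) :
    ∀ s, 1 ≤ s → a + s ≤ B + 1 → Pr A N (pull (A.σ ^ s) (U.erase 0)) (a + s - 1) ∧
      ∀ k ∈ A.K, k ∉ pull (A.σ ^ s) (U.erase 0) := by
  have hn : 0 < n := Nat.pos_of_ne_zero (NeZero.ne n)
  have hz : ∀ s, (0 : ZMod n) ∉ pull (A.σ ^ s) (U.erase 0) := by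
    intro s
    rw [mem_pull, A.pow_zero']
    simp
  intro s
  induction s with
  | zero => intro h1; omega
  | succ s ihs =>
    intro _ hs
    have hpr : Pr A N (pull (A.σ ^ (s + 1)) (U.erase 0)) (a + (s + 1) - 1) := by
      have h1 : Pr A N (pull (A.σ ^ s) U) (n - 1 + (a + s)) := by
        have := h.keep h0 s
        rwa [add_assoc] at this
      have h2 : (0 : ZMod n) ∈ pull (A.σ ^ s) U := by
        rw [mem_pull, A.pow_zero']
        exact h0
      have h3 : A.u 0 ∉ pull (A.σ ^ s) U := by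
        rcases Nat.eq_zero_or_pos s with rfl | hs1
        · simpa [pull] using hu
        · intro h4
          apply (ihs hs1 (by omega)).2 (A.u 0) (A.u_mem_K 0)
          rw [mem_pull] at h4 ⊢
          rw [Finset.mem_erase]
          refine ⟨?_, h4⟩
          intro h5
          apply A.u_ne_zero 0
          apply (A.σ ^ s).injective
          rw [h5, A.pow_zero']
      have h4 := h1.drop h2 h3
      have e : pull A.σ ((pull (A.σ ^ s) U).erase 0) = pull (A.σ ^ (s + 1)) (U.erase 0) := by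
        ext y
        simp only [mem_pull, Finset.mem_erase]
        rw [pow_succ, Equiv.Perm.mul_apply]
        constructor
        · rintro ⟨h5, h6⟩
          refine ⟨fun h7 => h5 ?_, h6⟩
          apply (A.σ ^ s).injective
          rw [h7, A.pow_zero']
        · rintro ⟨h5, h6⟩
          refine ⟨fun h7 => h5 ?_, h6⟩
          rw [h7, A.pow_zero']
      rw [e] at h4
      exact h4
    refine ⟨hpr, fun k hk hk2 => ?_⟩
    exact hB (s + 1) (by omega) hs hpr ⟨⟨k, hk, hk2⟩, 0, A.K.zero_mem, hz _⟩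

/-- retention: tokens of a marker state are away from `K` -/
theorem Pr.ret {A : Data n} {N a : ℕ} (ih : IH A N) {U : Finset (ZMod n)}
    (h : Pr A N U (n - 1 + a)) (h0 : (0 : ZMod n) ∈ U) (hu : A.u 0 ∉ U) (_ha : 1 ≤ a)
    {t : ZMod n} (ht : t ∈ U) (ht0 : t ≠ 0) : Away A (A.K.index - a) t := by
  intro s hs1 hs2 k hk he
  have h1 := ret_aux h h0 hu (A.K.index - 1) (by
    intro s h1 h2 h3 h4
    have := h3.brk ih h4
    omega) s hs1 (by omega)
  apply h1.2 k hk
  rw [mem_pull, he, Finset.mem_erase]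
  exact ⟨ht0, ht⟩

/-- retention, gap version -/
theorem Pr.gap {A : Data n} {N a : ℕ} (ih : IH A N) {U : Finset (ZMod n)}
    (h : Pr A N U (n - 1 + a)) (h0 : (0 : ZMod n) ∈ U) (hu : A.u 0 ∉ U) (ha : 1 ≤ a)
    (hgap : ∀ s : ℕ, (A.σ ^ s) (-((A.K.index : ℕ) : ZMod n)) ∈ U →
      (A.σ ^ s) (-((A.K.index : ℕ) : ZMod n)) = 0)
    {t : ZMod n} (ht : t ∈ U) (ht0 : t ≠ 0) : Away A (2 * A.K.index - a) t := by
  intro s hs1 hs2 k hk he
  have hD := index_pos' A.K
  have h1 := ret_aux h h0 hu (2 * A.K.index - 1) (by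
    intro s h1 h2 h3 h4
    have h5 := (h3.xu ih h4 (by omega)).1
    rw [mem_pull, Finset.mem_erase] at h5
    exact h5.1 (hgap s h5.2)) s hs1 (by omega)
  apply h1.2 k hk
  rw [mem_pull, he, Finset.mem_erase]
  exact ⟨ht0, ht⟩

/-- the set after the drop avoids `V` -/
theorem disj_V {A : Data n} {w : ℕ} {U : Finset (ZMod n)}
    (h : ∀ t ∈ U, t ≠ 0 → Away A (w + 1) t) :
    Disjoint (pull A.σ (U.erase 0)) (V A w) := by
  rw [Finset.disjoint_left]
  intro y hy hy2
  rw [mem_pull, Finset.mem_erase] at hy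
  rw [mem_V] at hy2
  obtain ⟨i, hi, k, hk, rfl⟩ := hy2
  refine h _ hy.2 hy.1 (i + 1) (by omega) (by omega) k hk ?_
  rw [pow_succ', Equiv.Perm.mul_apply]

theorem card_V_zero (A : Data n) : (V A 0).card = Nat.card A.K := by
  classical
  rw [Nat.card_eq_fintype_card, Fintype.card_subtype]
  congr 1
  ext y
  rw [mem_V, Finset.mem_filter]
  constructor
  · rintro ⟨i, hi, k, hk, rfl⟩
    have : i = 0 := by omega
    subst this
    simpa using hk
  · rintro ⟨-, h⟩
    exact ⟨0, le_refl _, y, h, by simp⟩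

/-- one step of growth -/
theorem grow_step (A : Data n) (j : ℕ) (Tk : Finset (ZMod n)) (hT : ∀ t ∈ Tk, t ∈ A.K)
    (hw : ∀ t ∈ Tk, Away A (j + 1) t) : (V A j).card + Tk.card ≤ (V A (j + 1)).card := by
  classical
  have h1 : ((V A j).image A.σ ∪ Tk) ⊆ V A (j + 1) := by
    intro y hy
    rw [Finset.mem_union, Finset.mem_image] at hy
    rcases hy with ⟨x, hx, rfl⟩ | hy
    · rw [mem_V] at hx ⊢
      obtain ⟨i, hi, k, hk, rfl⟩ := hx
      exact ⟨i + 1, by omega, k, hk, by rw [pow_succ', Equiv.Perm.mul_apply]⟩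
    · exact K_sub_V A _ (hT y hy)
  have h2 : Disjoint ((V A j).image A.σ) Tk := by
    rw [Finset.disjoint_left]
    intro y hy hy2
    rw [Finset.mem_image] at hy
    obtain ⟨x, hx, rfl⟩ := hy
    rw [mem_V] at hx
    obtain ⟨i, hi, k, hk, rfl⟩ := hx
    refine hw _ hy2 (i + 1) (by omega) (by omega) k hk ?_
    rw [pow_succ', Equiv.Perm.mul_apply]
  have h3 := Finset.card_le_card h1
  rw [Finset.card_union_of_disjoint h2, Finset.card_image_of_injective _ A.σ.injective] at h3
  exact h3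

/-- growth -/
theorem grow (A : Data n) (w : ℕ) (Tk : Finset (ZMod n)) (hT : ∀ t ∈ Tk, t ∈ A.K)
    (hw : ∀ t ∈ Tk, Away A w t) (j : ℕ) (hj : j ≤ w) :
    Nat.card A.K + Tk.card * j ≤ (V A j).card := by
  induction j with
  | zero => simp [card_V_zero]
  | succ j ih =>
    have h1 := ih (by omega)
    have h2 := grow_step A j Tk hT (fun t ht => (hw t ht).mono hj)
    rw [Nat.mul_succ]
    omega

/-! ### Unions of cosets and cardinalities -/

theorem card_coset (G : AddSubgroup (ZMod n)) (x : ZMod n) (S : Finset (ZMod n))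
    (hS : ∀ y, y ∈ S ↔ y - x ∈ G) : S.card = Nat.card G := by
  classical
  rw [Nat.card_eq_fintype_card, Fintype.card_subtype]
  apply Finset.card_bij (fun y _ => y - x)
  · intro y hy
    rw [Finset.mem_filter]
    exact ⟨Finset.mem_univ _, (hS y).1 hy⟩
  · intro a _ b _ h
    exact sub_left_injective h
  · intro b hb
    rw [Finset.mem_filter] at hb
    exact ⟨b + x, (hS _).2 (by simpa using hb.2), by simp⟩

theorem card_dvd_of_isUnion (G : AddSubgroup (ZMod n)) (U : Finset (ZMod n))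
    (hU : IsUnion G U) : Nat.card G ∣ U.card := by
  classical
  induction hk : U.card using Nat.strong_induction_on generalizing U with
  | _ k ih =>
    rcases Finset.eq_empty_or_nonempty U with rfl | ⟨x, hx⟩
    · rw [← hk]
      simp
    · set S : Finset (ZMod n) := Finset.univ.filter (fun y => y - x ∈ G) with hS
      have hScard := card_coset G x S (by intro y; simp [hS])
      have hSU : S ⊆ U := by
        intro y hy
        have h1 : y - x ∈ G := by simpa [hS] using hy
        have := hU x hx _ h1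
        simpa using this
      have hun : IsUnion G (U \ S) := by
        intro y hy h hh
        rw [Finset.mem_sdiff] at hy ⊢
        refine ⟨hU y hy.1 h hh, fun h2 => hy.2 ?_⟩
        have h3 : y + h - x ∈ G := by simpa [hS] using h2
        have h4 : y - x ∈ G := by
          have := G.sub_mem h3 hh
          convert this using 1
          ring
        simpa [hS] using h4
      have hc : (U \ S).card = U.card - S.card := Finset.card_sdiff_of_subset hSU
      have hle := Finset.card_le_card hSU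
      have hp := card_pos' G
      have h5 := ih (U \ S).card (by omega) (U \ S) hun rfl
      have h6 : k = (U \ S).card + Nat.card G := by omega
      rw [h6]
      exact Dvd.dvd.add h5 (dvd_refl _)

theorem exists_class (A : Data n) (y : ZMod n) :
    ∃ j : ℕ, 1 ≤ j ∧ j ≤ A.K.index ∧ y + (j : ZMod n) ∈ A.K := by
  have hD := index_pos' A.K
  have h1 := Nat.mod_lt y.val hD
  refine ⟨A.K.index - y.val % A.K.index, by omega, by omega, ?_⟩
  have h2 : y + ((A.K.index - y.val % A.K.index : ℕ) : ZMod n) =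
      ((y.val + (A.K.index - y.val % A.K.index) : ℕ) : ZMod n) := by
    rw [Nat.cast_add, ZMod.natCast_zmod_val]
  rw [h2]
  apply natCast_mem_of_dvd
  have h3 := Nat.mod_add_div y.val A.K.index
  have h4 : y.val + (A.K.index - y.val % A.K.index) =
      A.K.index * (y.val / A.K.index) + A.K.index := by omega
  rw [h4]
  exact Dvd.dvd.add (Dvd.intro _ rfl) (dvd_refl _)

open Classical in
theorem card_filter_K (A : Data n) : (Finset.univ.filter (fun y => y ∈ A.K)).card =
    Nat.card A.K := by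
  rw [Nat.card_eq_fintype_card, Fintype.card_subtype]

/-- the tokens in `K` -/
noncomputable def inK (A : Data n) (U : Finset (ZMod n)) : Finset (ZMod n) :=
  open Classical in U.filter (fun y => y ∈ A.K)

theorem mem_inK (A : Data n) (U : Finset (ZMod n)) (y : ZMod n) :
    y ∈ inK A U ↔ y ∈ U ∧ y ∈ A.K := by
  simp [inK]

theorem inK_card_lt (A : Data n) {U : Finset (ZMod n)} {k : ZMod n} (hk : k ∈ A.K)
    (hkU : k ∉ U) : (inK A U).card < Nat.card A.K := by
  classical
  rw [← card_filter_K A]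
  apply Finset.card_lt_card
  rw [Finset.ssubset_iff_subset_ne]
  constructor
  · intro y hy
    rw [mem_inK] at hy
    simpa using hy.2
  · intro h
    have h1 : k ∈ inK A U := by
      rw [h]
      simpa using hk
    rw [mem_inK] at h1
    exact hkU h1.1

/-- unbroken classes except `-1` -/
theorem union_off (A : Data n) (R : Finset (ZMod n))
    (h : ∀ j : ℕ, 2 ≤ j → j ≤ A.K.index → ¬ Brk A (sh (-(j : ZMod n)) R)) :
    ∃ F : Finset (ZMod n), IsUnion A.K F ∧ F ⊆ R ∧
      (∀ y, y ∈ F ↔ y ∈ R ∧ y + 1 ∉ A.K) ∧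
      R.card = F.card + (inK A (sh (-1) R)).card := by
  classical
  set F : Finset (ZMod n) := R.filter (fun y => y + 1 ∉ A.K) with hF
  have hFmem : ∀ y, y ∈ F ↔ y ∈ R ∧ y + 1 ∉ A.K := by
    intro y
    rw [hF, Finset.mem_filter]
  refine ⟨F, ?_, Finset.filter_subset _ _, hFmem, ?_⟩
  · intro y hy k hk
    rw [hFmem] at hy ⊢
    refine ⟨?_, fun h1 => hy.2 ?_⟩
    · obtain ⟨j, hj1, hj2, hj3⟩ := exists_class A y
      have hj : 2 ≤ j := by
        rcases Nat.lt_or_ge j 2 with h2 | h2
        · exfalso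
          have : j = 1 := by omega
          subst this
          apply hy.2
          simpa using hj3
        · exact h2
      by_contra hcon
      apply h j hj hj2
      refine ⟨⟨y + j, hj3, ?_⟩, y + k + j, ?_, ?_⟩
      · rw [mem_sh]
        simpa using hy.1
      · have := A.K.add_mem hj3 hk
        convert this using 1
        ring
      · rw [mem_sh]
        simpa using hcon
    · have := A.K.sub_mem h1 hk
      convert this using 1
      ring
  · have h1 := Finset.card_filter_add_card_filter_not (s := R) (fun y => y + 1 ∉ A.K)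
    have h2 : (R.filter (fun y => ¬ (y + 1 ∉ A.K))).card = (inK A (sh (-1) R)).card := by
      apply Finset.card_bij (fun y _ => y + 1)
      · intro y hy
        rw [Finset.mem_filter, not_not] at hy
        rw [mem_inK, mem_sh]
        exact ⟨by simpa using hy.1, hy.2⟩
      · intro a _ b _ hab
        exact add_right_cancel hab
      · intro b hb
        rw [mem_inK, mem_sh] at hb
        refine ⟨b + -1, ?_, by ring⟩
        rw [Finset.mem_filter, not_not]
        exact ⟨hb.1, by simpa using hb.2⟩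
    rw [h2] at h1
    rw [← h1, hF]

/-- Stage lemma -/
theorem stage {A : Data n} {N : ℕ} (ih : IH A N) (a : ℕ) :
    ∀ (R : Finset (ZMod n)) (i : ℕ), Pr A N R a → 1 ≤ a → a < A.K.index → 1 ≤ i →
      i + a ≤ Nat.card A.K → Nat.card A.K ∣ R.card + i →
      ∃ (U : Finset (ZMod n)) (a' i' : ℕ), 1 ≤ a' ∧ a' ≤ a ∧ i ≤ i' ∧ i' + a' ≤ i + a ∧
        U.card ≤ R.card ∧ Pr A N U (n - 1 + a') ∧ (0 : ZMod n) ∈ U ∧ A.u 0 ∉ U ∧
        (∀ x ∈ A.K, x ∈ U → x + A.u 0 ∉ U → x = 0) ∧
        (inK A U).card + i' = Nat.card A.K := by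
  classical
  induction a using Nat.strong_induction_on with
  | _ a iha =>
    intro R i hR ha1 haD hi1 hia hdvd
    by_cases hbig : ∃ j : ℕ, 2 ≤ j ∧ j ≤ A.K.index ∧ Brk A (sh (-(j : ZMod n)) R)
    · obtain ⟨j, hj1, hj2, hb⟩ := hbig
      obtain ⟨h1, h2, h3, h4, h5⟩ := hR.cls ih haD (by omega) hj2 hb
      have h6 := h5.drop h2 h3
      have hpos : 0 < R.card := by
        have : 0 < (sh (-(j : ZMod n)) R).card := Finset.card_pos.2 ⟨0, h2⟩
        rwa [card_sh] at this
      have hcard : (pull A.σ ((sh (-(j : ZMod n)) R).erase 0)).card = R.card - 1 := by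
        rw [card_pull, Finset.card_erase_of_mem h2, card_sh]
      obtain ⟨U, a', i', g1, g2, g3, g4, g5, g6, g7, g8, g9, g10⟩ :=
        iha (a - j + 1) (by omega) _ (i + 1) h6 (by omega) (by omega) (by omega) (by omega)
          (by
            rw [hcard]
            have e : R.card - 1 + (i + 1) = R.card + i := by omega
            rw [e]
            exact hdvd)
      refine ⟨U, a', i', g1, by omega, by omega, by omega, ?_, g6, g7, g8, g9, g10⟩
      rw [hcard] at g5
      omega
    · push Not at hbig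
      obtain ⟨F, hF1, hF2, hF3, hF4⟩ := union_off A R hbig
      have hdF := card_dvd_of_isUnion A.K F hF1
      have h1 : Nat.card A.K ∣ (inK A (sh (-1) R)).card + i := by
        have h2 : R.card + i = F.card + ((inK A (sh (-1) R)).card + i) := by omega
        rw [h2] at hdvd
        exact (Nat.dvd_add_right hdF).1 hdvd
      -- the class `-1` is broken
      have hb : Brk A (sh (-((1 : ℕ) : ZMod n)) R) := by
        by_contra hcon
        by_cases hex : ∃ k ∈ A.K, k ∈ sh (-((1 : ℕ) : ZMod n)) R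
        · have hall : ∀ k ∈ A.K, k ∈ sh (-((1 : ℕ) : ZMod n)) R := by
            intro k hk
            by_contra h2
            exact hcon ⟨hex, k, hk, h2⟩
          have h2 : (inK A (sh (-1) R)).card = Nat.card A.K := by
            rw [← card_filter_K A]
            congr 1
            ext y
            rw [mem_inK]
            simp only [Finset.mem_filter, Finset.mem_univ, true_and]
            constructor
            · exact fun h => h.2
            · intro h
              have := hall y h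
              rw [Nat.cast_one] at this
              exact ⟨this, h⟩
          rw [h2] at h1
          have h3 := (Nat.dvd_add_right (dvd_refl (Nat.card A.K))).1 h1
          have := Nat.le_of_dvd (by omega) h3
          omega
        · have h2 : (inK A (sh (-1) R)).card = 0 := by
            rw [Finset.card_eq_zero, Finset.eq_empty_iff_forall_notMem]
            intro y hy
            rw [mem_inK] at hy
            apply hex
            refine ⟨y, hy.2, ?_⟩
            rw [Nat.cast_one]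
            exact hy.1
          rw [h2, zero_add] at h1
          have := Nat.le_of_dvd (by omega) h1
          omega
      obtain ⟨h2, h3, h4, h5, h6⟩ := hR.cls ih haD (le_refl 1) (by omega) hb
      rw [Nat.cast_one] at h3 h4 h5 h6
      refine ⟨sh (-1) R, a, i, ha1, le_refl _, le_refl _, le_refl _, by rw [card_sh],
        ?_, h3, h4, h5, ?_⟩
      · have e : a - 1 + 1 = a := by omega
        rwa [e] at h6
      · have h7 := inK_card_lt A (A.u_mem_K 0) h4
        obtain ⟨c, hc⟩ := h1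
        have h8 : c = 1 := by
          have hc0 : c ≠ 0 := by
            rintro rfl
            omega
          have hc2 : c < 2 := by
            by_contra h9
            push Not at h9
            have := Nat.mul_le_mul_left (Nat.card A.K) h9
            omega
          omega
        rw [h8, mul_one] at hc
        exact hc

end Pool.Agent.Helper4.Don
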