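import Mathlib

set_option autoImplicit false

/-!
MP_cc0723_lc: the backward-move model. `U` always denotes the complement of the set to be
reached.
-/

namespace Pool.Agent.Helper4.Don

/-- one letter: `true` is `a`, `false` is `b` -/
def step {n : ℕ} (f : ZMod n → ZMod n) (p : ZMod n) (c : Bool) : ZMod n :=
  if c then f p else p + 1

/-- the complement of `U` is reached by a word of length at most `L` -/
def Cst {n : ℕ} [NeZero n] (f : ZMod n → ZMod n) (U : Finset (ZMod n)) (L : ℕ) : Prop :=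
  ∃ w : List Bool, w.length ≤ L ∧
    Finset.univ.image (fun q : ZMod n => w.foldl (step f) q) = Uᶜ

/-- `{y | g y ∈ U}` -/
def pull {n : ℕ} [NeZero n] (g : Equiv.Perm (ZMod n)) (U : Finset (ZMod n)) :
    Finset (ZMod n) :=
  Finset.univ.filter (fun y => g y ∈ U)

/-- `U - x = {y | y + x ∈ U}` -/
def sh {n : ℕ} [NeZero n] (x : ZMod n) (U : Finset (ZMod n)) : Finset (ZMod n) :=
  Finset.univ.filter (fun y => y + x ∈ U)

/-- A standardized letter: `f` agrees with the permutation `σ` off `0`, `σ 0 = 0`, and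
`f 0 ≠ 0`. -/
structure Data (n : ℕ) [NeZero n] where
  f : ZMod n → ZMod n
  σ : Equiv.Perm (ZMod n)
  σ0 : σ 0 = 0
  hf : ∀ x, x ≠ 0 → f x = σ x
  hd : f 0 ≠ 0
  /-- what complete reachability gives -/
  hCR : ∀ H : AddSubgroup (ZMod n), H ≠ ⊤ → ∃ x ∈ H, f x ∉ H

/-- `u i = σ^i (f 0)`, i.e. `u i` is the paper's `u_{i+1} = f^{i+1}(0)`. -/
def Data.u {n : ℕ} [NeZero n] (A : Data n) (i : ℕ) : ZMod n := (A.σ ^ i) (A.f 0)

/-- the orbit subgroup -/
def Data.K {n : ℕ} [NeZero n] (A : Data n) : AddSubgroup (ZMod n) :=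
  AddSubgroup.closure (Set.range A.u)

/-- `U` is a union of cosets of `H` -/
def IsUnion {n : ℕ} (H : AddSubgroup (ZMod n)) (U : Finset (ZMod n)) : Prop :=
  ∀ x ∈ U, ∀ h ∈ H, x + h ∈ U

end Pool.Agent.Helper4.Don
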