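import Pool.Agent.Helper4.DonCore

set_option autoImplicit false
set_option linter.unusedSectionVars false

/-!
MP_cc0723_lc: further general lemmas for the saving lemma (markers from broken sets, the gap,
size bounds, elements of `K`).
-/

namespace Pool.Agent.Helper4.Don

variable {n : ℕ} [NeZero n]

/-- the generator of `K` -/
noncomputable def dl (A : Data n) : ZMod n := ((A.K.index : ℕ) : ZMod n)

theorem dl_mem (A : Data n) : dl A ∈ A.K := index_mem' _

theorem D_le_n (A : Data n) : A.K.index ≤ n :=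
  Nat.le_of_dvd (Nat.pos_of_ne_zero (NeZero.ne n)) (index_dvd' _)

theorem mul_dl (A : Data n) (i : ℕ) : (i : ZMod n) * dl A = ((i * A.K.index : ℕ) : ZMod n) := by
  unfold dl
  push_cast
  rfl

theorem mul_dl_eq_zero (A : Data n) (i : ℕ) : (i : ZMod n) * dl A = 0 ↔ Nat.card A.K ∣ i := by
  rw [mul_dl, ZMod.natCast_eq_zero_iff]
  have h := card_mul_index' A.K
  have hD := index_pos' A.K
  constructor
  · intro h1
    have h2 : Nat.card A.K * A.K.index ∣ i * A.K.index := by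
      rw [h]
      exact h1
    exact Nat.dvd_of_mul_dvd_mul_right hD h2
  · intro h1
    have h2 := Nat.mul_dvd_mul_right h1 A.K.index
    rwa [h] at h2

theorem exists_mul_dl (A : Data n) {k : ZMod n} (hk : k ∈ A.K) :
    ∃ i : ℕ, i < Nat.card A.K ∧ k = (i : ZMod n) * dl A := by
  have h := card_mul_index' A.K
  have hD := index_pos' A.K
  have h1 := hk
  rw [mem_iff_dvd] at h1
  obtain ⟨c, hc⟩ := h1
  refine ⟨c, ?_, ?_⟩
  · by_contra h2
    push Not at h2
    have h3 := Nat.mul_le_mul_right A.K.index h2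
    have h4 := k.val_lt
    rw [mul_comm c] at h3
    omega
  · rw [mul_dl, mul_comm c, ← hc, ZMod.natCast_zmod_val]

theorem mul_dl_mem (A : Data n) (i : ℕ) : (i : ZMod n) * dl A ∈ A.K := by
  have := A.K.nsmul_mem (dl_mem A) i
  rwa [nsmul_eq_mul] at this

/-- `K ≠ ⊤` forces `|K| ≥ 3` -/
theorem three_le_card (A : Data n) (hK : A.K ≠ ⊤) : 3 ≤ Nat.card A.K := by
  by_contra hcon
  push Not at hcon
  have hpos := card_pos' A.K
  have h1 : Nat.card A.K ≠ 1 := by
    intro h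
    have h2 : A.K = ⊥ := AddSubgroup.eq_bot_of_card_eq _ h
    have h3 := A.u_mem_K 0
    rw [h2, AddSubgroup.mem_bot] at h3
    exact A.u_ne_zero 0 h3
  have h2 : Nat.card A.K = 2 := by omega
  -- every element of `K` is `0` or `u 0`
  have hel : ∀ k ∈ A.K, k = 0 ∨ k = dl A := by
    intro k hk
    obtain ⟨i, hi, rfl⟩ := exists_mul_dl A hk
    have h3 : i = 0 ∨ i = 1 := by omega
    rcases h3 with rfl | rfl
    · left; simp
    · right; simp
  have hu : A.f 0 = dl A := by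
    have h3 : A.u 0 = A.f 0 := by simp [Data.u]
    rcases hel _ (A.u_mem_K 0) with h4 | h4
    · exact absurd h4 (A.u_ne_zero 0)
    · rw [← h3, h4]
  obtain ⟨x, hx1, hx2⟩ := A.hCR A.K hK
  rcases hel x hx1 with rfl | rfl
  · exact hx2 (by rw [hu]; exact dl_mem A)
  · have h4 : A.f (dl A) = A.u 1 := by
      have h5 : dl A ≠ 0 := by
        rw [← hu]
        exact A.hd
      rw [A.hf _ h5, ← hu]
      simp [Data.u]
    exact hx2 (by rw [h4]; exact A.u_mem_K 1)

/-- for `H ≠ ⊤` containing `K`: `σ H ⊄ H` -/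
theorem exists_sigma_exit (A : Data n) (H : AddSubgroup (ZMod n)) (hKH : A.K ≤ H) (hH : H ≠ ⊤) :
    ∃ x ∈ H, A.σ x ∉ H := by
  obtain ⟨x, hx1, hx2⟩ := A.hCR H hH
  refine ⟨x, hx1, ?_⟩
  rw [← A.hf]
  · exact hx2
  · rintro rfl
    apply hx2
    have h3 : A.u 0 = A.f 0 := by simp [Data.u]
    rw [← h3]
    exact hKH (A.u_mem_K 0)

/-- marker from a broken set -/
theorem Pr.mk {A : Data n} {N a : ℕ} (ih : IH A N) {Z : Finset (ZMod n)} (h : Pr A N Z a)
    (hb : Brk A Z) (ha : a < 2 * A.K.index) :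
    A.K.index ≤ a ∧ (0 : ZMod n) ∈ sh (-dl A) Z ∧ A.u 0 ∉ sh (-dl A) Z ∧
      (∀ x ∈ A.K, x ∈ sh (-dl A) Z → x + A.u 0 ∉ sh (-dl A) Z → x = 0) ∧
      Pr A N (sh (-dl A) Z) (n - 1 + (a - A.K.index + 1)) := by
  have h1 := h.brk ih hb
  obtain ⟨h2, h3, h4⟩ := h.xu ih hb ha
  have hDn := D_le_n A
  refine ⟨h1, ?_, ?_, ?_, ?_⟩
  · rw [mem_sh, zero_add]
    exact h2
  · rw [mem_sh, add_comm]
    exact h3
  · intro x hx1 hx2 hx3
    have h5 := h4 (x - dl A) (A.K.sub_mem hx1 (dl_mem A))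
      (by rw [mem_sh] at hx2; rwa [sub_eq_add_neg])
      (by
        rw [mem_sh] at hx3
        intro h6
        apply hx3
        convert h6 using 1
        ring)
    have h6 : x = (x - dl A) + dl A := by ring
    rw [h6, h5]
    unfold dl
    ring
  · have h5 := h.shift (n - A.K.index)
    rw [Nat.cast_sub hDn, ZMod.natCast_self, zero_sub] at h5
    exact h5.mono (by omega)

/-- if the orbit of `-D` stays in `K`, the gap condition holds for every marker with a nonempty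
window -/
theorem gap_cond {A : Data n} {w : ℕ} {U : Finset (ZMod n)}
    (hU : ∀ t ∈ U, t ≠ 0 → Away A w t) (hw : 1 ≤ w)
    (hfull : ∀ s : ℕ, (A.σ ^ s) (-dl A) ∈ A.K) (s : ℕ)
    (hs : (A.σ ^ s) (-((A.K.index : ℕ) : ZMod n)) ∈ U) :
    (A.σ ^ s) (-((A.K.index : ℕ) : ZMod n)) = 0 := by
  by_contra hcon
  change (A.σ ^ s) (-dl A) ∈ U at hs
  change ¬ (A.σ ^ s) (-dl A) = 0 at hcon
  -- write the element as `σ (something in K)`
  have h1 : ∃ m : ℕ, (A.σ ^ s) (-dl A) = A.σ ((A.σ ^ m) (-dl A)) := by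
    rcases Nat.eq_zero_or_pos s with rfl | hs1
    · refine ⟨orderOf A.σ - 1, ?_⟩
      have h2 : 0 < orderOf A.σ := orderOf_pos _
      rw [← Equiv.Perm.mul_apply, ← pow_succ', Nat.sub_add_cancel h2, pow_orderOf_eq_one]
      simp
    · refine ⟨s - 1, ?_⟩
      rw [← Equiv.Perm.mul_apply, ← pow_succ', Nat.sub_add_cancel hs1]
  obtain ⟨m, hm⟩ := h1
  exact hU _ hs hcon 1 (le_refl _) hw _ (hfull m) (by rw [pow_one]; exact hm.symm)

/-- gap, ready to use -/
theorem Pr.gap' {A : Data n} {N a : ℕ} (ih : IH A N) {U : Finset (ZMod n)}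
    (h : Pr A N U (n - 1 + a)) (h0 : (0 : ZMod n) ∈ U) (hu : A.u 0 ∉ U) (ha : 1 ≤ a)
    (haD : a < A.K.index) (hfull : ∀ s : ℕ, (A.σ ^ s) (-dl A) ∈ A.K)
    {t : ZMod n} (ht : t ∈ U) (ht0 : t ≠ 0) : Away A (2 * A.K.index - a) t :=
  h.gap ih h0 hu ha (fun s hs => gap_cond (w := A.K.index - a)
    (fun _ ht' ht0' => h.ret ih h0 hu ha ht' ht0') (by omega) hfull s hs) ht ht0

/-- if `-D = u 0` the orbit stays in `K` -/
theorem full_of_eq (A : Data n) (h : -dl A = A.u 0) (s : ℕ) : (A.σ ^ s) (-dl A) ∈ A.K := by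
  rw [h, ← A.u_add]
  exact A.u_mem_K _

/-- size bound from disjointness -/
theorem size_bound {A : Data n} {w : ℕ} {U : Finset (ZMod n)} (h0 : (0 : ZMod n) ∈ U)
    (hU : ∀ t ∈ U, t ≠ 0 → Away A (w + 1) t) : U.card + (V A w).card ≤ n + 1 := by
  classical
  have h1 := disj_V hU
  have h2 := Finset.card_union_of_disjoint h1
  have h3 : (pull A.σ (U.erase 0) ∪ V A w).card ≤ n := by
    have := Finset.card_le_univ (pull A.σ (U.erase 0) ∪ V A w)
    rwa [ZMod.card] at this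
  rw [card_pull, Finset.card_erase_of_mem h0] at h2
  have : 0 < U.card := Finset.card_pos.2 ⟨0, h0⟩
  omega

theorem card_le_of_sub (A : Data n) (G : AddSubgroup (ZMod n)) (j : ℕ)
    (h : ∀ v ∈ V A j, v ∈ G) : (V A j).card ≤ Nat.card G := by
  classical
  rw [Nat.card_eq_fintype_card, Fintype.card_subtype]
  apply Finset.card_le_card
  intro v hv
  simpa using h v hv

theorem le_card_of_isUnion {G : AddSubgroup (ZMod n)} {U : Finset (ZMod n)}
    (h : IsUnion G U) (hne : U.Nonempty) : Nat.card G ≤ U.card :=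
  Nat.le_of_dvd (Finset.card_pos.2 hne) (card_dvd_of_isUnion G U h)

/-- indices and cardinalities for `K < G` -/
theorem dims (A : Data n) (G : AddSubgroup (ZMod n)) (h : A.K < G) :
    ∃ ρ : ℕ, 2 ≤ ρ ∧ A.K.index = G.index * ρ ∧ Nat.card G = Nat.card A.K * ρ := by
  obtain ⟨ρ, hρ⟩ := (le_iff_index_dvd _ _).1 h.le
  have h1 := index_pos' A.K
  have h2 := index_pos' G
  refine ⟨ρ, ?_, hρ, ?_⟩
  · rcases Nat.lt_or_ge ρ 2 with h3 | h3
    · exfalso
      have h4 : ρ = 0 ∨ ρ = 1 := by omega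
      rcases h4 with rfl | rfl
      · omega
      · rw [mul_one] at hρ
        exact h.ne (eq_of_index_eq hρ)
    · exact h3
  · have h3 := card_mul_index' A.K
    have h4 := card_mul_index' G
    rw [hρ] at h3
    have h5 : (Nat.card A.K * ρ) * G.index = Nat.card G * G.index := by
      rw [h4]
      calc Nat.card A.K * ρ * G.index = Nat.card A.K * (G.index * ρ) := by ring
        _ = n := h3
    exact (Nat.eq_of_mul_eq_mul_right h2 h5).symm

/-! ### Arithmetic of the case `ε ≥ 1` -/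

theorem three_mul_le_pow (e : ℕ) (he : 1 ≤ e) : 3 * e ≤ 3 ^ e := by
  induction e with
  | zero => omega
  | succ e ih =>
    rcases Nat.eq_zero_or_pos e with rfl | h
    · norm_num
    · have := ih h
      rw [pow_succ]
      omega

/-- case (B), `ε ≥ 1` -/
theorem arithB {κ μ r e X ω : ℕ} (he : 1 ≤ e) (hμ : 6 * e ≤ μ) (hr : 1 ≤ r)
    (hX : X + e = μ * r) (h1 : X ≤ κ * r) (hω : ω ≤ e + 1)
    (h2 : ω + 1 ≤ κ → (κ - ω - 1) * X ≤ κ * r) : False := by
  have h3 : 5 * e * r ≤ X := by nlinarith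
  have h4 : 5 * e ≤ κ := by
    by_contra h
    push Not at h
    have : κ * r < 5 * e * r := Nat.mul_lt_mul_of_pos_right h hr
    omega
  have h5 := h2 (by omega)
  have h6 : (κ - ω - 1) * (5 * e * r) ≤ κ * r := le_trans (Nat.mul_le_mul_left _ h3) h5
  have h7 : (κ - ω - 1) * (5 * e) ≤ κ := by
    by_contra h
    push Not at h
    have : κ * r < (κ - ω - 1) * (5 * e) * r := Nat.mul_lt_mul_of_pos_right h hr
    have e2 : (κ - ω - 1) * (5 * e) * r = (κ - ω - 1) * (5 * e * r) := by ring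
    omega
  have h8 : (κ - ω - 1) * 5 ≤ (κ - ω - 1) * (5 * e) := Nat.mul_le_mul_left _ (by omega)
  omega

/-- case (A), `ε ≥ 1` -/
theorem arithA {κ μ r e X ω : ℕ} (he : 1 ≤ e) (hμ : 6 * e ≤ μ) (hr : 2 ≤ r)
    (hX : X + e = μ * r) (h1 : X ≤ κ * r) (hω : ω ≤ e + 2)
    (h2 : ω + 1 ≤ κ → (κ - ω - 1) * X ≤ κ * r) : False := by
  have h3 : 11 * e * r ≤ 2 * X := by nlinarith
  have h4 : 11 * e ≤ 2 * κ := by
    by_contra h
    push Not at h
    have : 2 * κ * r < 11 * e * r := Nat.mul_lt_mul_of_pos_right h (by omega)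
    nlinarith
  have h5 := h2 (by omega)
  have h6 : (κ - ω - 1) * (11 * e * r) ≤ 2 * κ * r := by
    have := Nat.mul_le_mul_left (κ - ω - 1) h3
    nlinarith
  have h7 : (κ - ω - 1) * (11 * e) ≤ 2 * κ := by
    by_contra h
    push Not at h
    have : 2 * κ * r < (κ - ω - 1) * (11 * e) * r := Nat.mul_lt_mul_of_pos_right h (by omega)
    have e2 : (κ - ω - 1) * (11 * e) * r = (κ - ω - 1) * (11 * e * r) := by ring
    omega
  have h8 : (κ - ω - 1) * 11 ≤ (κ - ω - 1) * (11 * e) := Nat.mul_le_mul_left _ (by omega)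
  omega

end Pool.Agent.Helper4.Don
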