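import Pool.Agent.Helper4.DonChain
import Pool.Agent.Helper57.DonCaseS

set_option autoImplicit false

/-!
MP_cc0723_lc: assembly. Don's conjecture for standardized completely reachable automata.
-/

namespace Pool.Agent.Helper4.Don

/-- every proper subset of `Z_n` has cost at most `n |U|` -/
theorem cost_le (n : ℕ) [NeZero n] (A : Data n) (U : Finset (ZMod n)) (hU : U ≠ Finset.univ) :
    Cst A.f U (n * U.card) := by
  by_cases hK : A.K = ⊤
  · exact caseTop A hK U hU
  · by_cases hL : ∃ k ∈ A.K, Away A (A.K.index - 2) k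
    · exact caseL A hK hL U hU
    · push Not at hL
      exact Pool.Agent.Helper57.CaseS.caseS A hK hL U hU

/-- the frozen statement S15349 -/
theorem don_main :
    ∀ (n : ℕ) [NeZero n] (f : ZMod n → ZMod n),
      (∀ P : Finset (ZMod n), P.Nonempty →
        ∃ w : List Bool,
          Finset.univ.image (fun q : ZMod n =>
            w.foldl (fun (p : ZMod n) (c : Bool) => if c then f p else p + 1) q) = P) →
      (∀ q : ZMod n, (∀ p : ZMod n, f p ≠ q) ↔ q = 0) →
      (∀ q : ZMod n, (∃ p₁ p₂ : ZMod n, p₁ ≠ p₂ ∧ f p₁ = q ∧ f p₂ = q) ↔ q = f 0) →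
      ∀ S : Finset (ZMod n), S.Nonempty →
        ∃ w : List Bool, w.length ≤ n * (n - S.card) ∧
          Finset.univ.image (fun q : ZMod n =>
            w.foldl (fun (p : ZMod n) (c : Bool) => if c then f p else p + 1) q) = S :=
  frozen_of cost_le

end Pool.Agent.Helper4.Don
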