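import Pool.Agent.Helper4.DonDefs

set_option autoImplicit false

/-!
MP_cc0723_lc: backward moves, exits for sets that are not unions of `K`-cosets, and the final
induction.
-/

namespace Pool.Agent.Helper4.Don

variable {n : ℕ} [NeZero n]

@[simp] theorem mem_pull (g : Equiv.Perm (ZMod n)) (U : Finset (ZMod n)) (y : ZMod n) :
    y ∈ pull g U ↔ g y ∈ U := by simp [pull]

@[simp] theorem mem_sh (x : ZMod n) (U : Finset (ZMod n)) (y : ZMod n) :
    y ∈ sh x U ↔ y + x ∈ U := by simp [sh]

theorem card_pull (g : Equiv.Perm (ZMod n)) (U : Finset (ZMod n)) :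
    (pull g U).card = U.card := by
  apply Finset.card_bij (fun y _ => g y)
  · intro a ha
    exact (mem_pull g U a).1 ha
  · intro a _ b _ h
    exact g.injective h
  · intro b hb
    exact ⟨g.symm b, by simpa using hb, by simp⟩

theorem card_sh (x : ZMod n) (U : Finset (ZMod n)) : (sh x U).card = U.card := by
  apply Finset.card_bij (fun y _ => y + x)
  · intro a ha
    exact (mem_sh x U a).1 ha
  · intro a _ b _ h
    exact add_right_cancel h
  · intro b hb
    exact ⟨b - x, by simpa using hb, by simp⟩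

theorem Cst.mono {f : ZMod n → ZMod n} {U : Finset (ZMod n)} {L L' : ℕ}
    (h : Cst f U L) (hL : L ≤ L') : Cst f U L' := by
  obtain ⟨w, hw, hw'⟩ := h
  exact ⟨w, hw.trans hL, hw'⟩

theorem Cst.empty (f : ZMod n → ZMod n) : Cst f ∅ 0 := by
  refine ⟨[], le_refl _, ?_⟩
  ext y
  simp

theorem Cst.snoc {f : ZMod n → ZMod n} {U V : Finset (ZMod n)} {L : ℕ} (c : Bool)
    (h : Cst f V L) (hV : ∀ y, (∃ x, x ∉ V ∧ step f x c = y) ↔ y ∉ U) : Cst f U (L + 1) := by
  obtain ⟨w, hw, hw'⟩ := h
  refine ⟨w ++ [c], by simpa using hw, ?_⟩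
  ext y
  rw [Finset.mem_compl, ← hV y]
  simp only [List.foldl_append, List.foldl_cons, List.foldl_nil, Finset.mem_image,
    Finset.mem_univ, true_and]
  constructor
  · rintro ⟨q, hq⟩
    refine ⟨w.foldl (step f) q, ?_, hq⟩
    rw [← Finset.mem_compl, ← hw']
    exact Finset.mem_image_of_mem _ (Finset.mem_univ q)
  · rintro ⟨x, hx, hxy⟩
    rw [← Finset.mem_compl, ← hw', Finset.mem_image] at hx
    obtain ⟨q, -, hq⟩ := hx
    exact ⟨q, by rw [hq]; exact hxy⟩

theorem Cst.rot1 {f : ZMod n → ZMod n} {U : Finset (ZMod n)} {L : ℕ}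
    (h : Cst f (sh 1 U) L) : Cst f U (L + 1) := by
  apply h.snoc false
  intro y
  simp only [step, mem_sh]
  constructor
  · rintro ⟨x, hx, rfl⟩
    simpa using hx
  · intro hy
    exact ⟨y - 1, by simpa using hy, by simp⟩

theorem sh_sh (x y : ZMod n) (U : Finset (ZMod n)) : sh x (sh y U) = sh (x + y) U := by
  ext z
  simp [add_assoc]

theorem sh_zero (U : Finset (ZMod n)) : sh 0 U = U := by
  ext z
  simp

theorem Cst.rot_nat {f : ZMod n → ZMod n} {U : Finset (ZMod n)} {L : ℕ} (k : ℕ)
    (h : Cst f (sh (k : ZMod n) U) L) : Cst f U (L + k) := by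
  induction k generalizing U L with
  | zero => simpa [sh_zero] using h
  | succ k ih =>
    have h1 : Cst f (sh (k : ZMod n) (sh 1 U)) L := by
      rw [sh_sh]
      simpa using h
    have h2 := (ih h1).rot1
    exact h2.mono (by omega)

/-- rotation by x costs x.val -/
theorem Cst.rot {f : ZMod n → ZMod n} {U : Finset (ZMod n)} {L : ℕ} (x : ZMod n)
    (h : Cst f (sh x U) L) : Cst f U (L + x.val) := by
  apply Cst.rot_nat
  rwa [ZMod.natCast_zmod_val]

theorem Cst.keep1 (A : Data n) {U : Finset (ZMod n)} {L : ℕ} (h0 : (0 : ZMod n) ∈ U)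
    (h : Cst A.f (pull A.σ U) L) : Cst A.f U (L + 1) := by
  apply h.snoc true
  intro y
  simp only [step, mem_pull, if_true]
  constructor
  · rintro ⟨x, hx, rfl⟩
    have hx0 : x ≠ 0 := by
      rintro rfl
      rw [A.σ0] at hx
      exact hx h0
    rwa [A.hf x hx0]
  · intro hy
    have hx0 : A.σ.symm y ≠ 0 := by
      intro h1
      have h2 : y = 0 := by
        rw [Equiv.symm_apply_eq, A.σ0] at h1
        exact h1
      exact hy (h2 ▸ h0)
    exact ⟨A.σ.symm y, by simpa using hy, by rw [A.hf _ hx0]; simp⟩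

theorem Cst.exit1 (A : Data n) {U : Finset (ZMod n)} {L : ℕ} (h0 : (0 : ZMod n) ∈ U)
    (hd : A.f 0 ∉ U) (h : Cst A.f ((pull A.σ U).erase 0) L) : Cst A.f U (L + 1) := by
  apply h.snoc true
  intro y
  simp only [step, mem_pull, if_true, Finset.mem_erase]
  constructor
  · rintro ⟨x, hx, rfl⟩
    rcases eq_or_ne x 0 with rfl | hx0
    · exact hd
    · rw [A.hf x hx0]
      intro h1
      exact hx ⟨hx0, h1⟩
  · intro hy
    have hx0 : A.σ.symm y ≠ 0 := by
      intro h1
      have h2 : y = 0 := by
        rw [Equiv.symm_apply_eq, A.σ0] at h1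
        exact h1
      exact hy (h2 ▸ h0)
    refine ⟨A.σ.symm y, ?_, by rw [A.hf _ hx0]; simp⟩
    rintro ⟨-, h1⟩
    exact hy (by simpa using h1)

theorem Data.pow_zero' (A : Data n) (i : ℕ) : (A.σ ^ i) 0 = 0 := by
  induction i with
  | zero => simp
  | succ i ih => rw [pow_succ, Equiv.Perm.mul_apply, A.σ0, ih]

theorem pull_pull (g h : Equiv.Perm (ZMod n)) (U : Finset (ZMod n)) :
    pull g (pull h U) = pull (h * g) U := by
  ext y
  simp

/-- keep `0` : `0 ∈ U`, `U → σ^{-i} U` costs i -/
theorem Cst.keep (A : Data n) {U : Finset (ZMod n)} {L : ℕ} (h0 : (0 : ZMod n) ∈ U) (i : ℕ)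
    (h : Cst A.f (pull (A.σ ^ i) U) L) : Cst A.f U (L + i) := by
  induction i generalizing L with
  | zero => simpa [pull] using h
  | succ i ih =>
    have h1 : Cst A.f (pull A.σ (pull (A.σ ^ i) U)) L := by
      rw [pull_pull, ← pow_succ]
      exact h
    have h2 : Cst A.f (pull (A.σ ^ i) U) (L + 1) :=
      Cst.keep1 A (by rw [mem_pull, A.pow_zero']; exact h0) h1
    exact (ih h2).mono (by omega)

/-- exit: `0 ∈ U`, `u_{i+1} ∉ U` : `U → σ^{-(i+1)} U \ 0` costs i+1 -/
theorem Cst.exit (A : Data n) {U : Finset (ZMod n)} {L : ℕ} (h0 : (0 : ZMod n) ∈ U) (i : ℕ)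
    (hi : A.u i ∉ U) (h : Cst A.f ((pull (A.σ ^ (i + 1)) U).erase 0) L) :
    Cst A.f U (L + (i + 1)) := by
  have h1 : Cst A.f ((pull A.σ (pull (A.σ ^ i) U)).erase 0) L := by
    rw [pull_pull, ← pow_succ]
    exact h
  have h2 : Cst A.f (pull (A.σ ^ i) U) (L + 1) :=
    Cst.exit1 A (by rw [mem_pull, A.pow_zero']; exact h0) (by rw [mem_pull]; exact hi) h1
  exact (Cst.keep A h0 i h2).mono (by omega)

/-- sideways at x -/
theorem Cst.side (A : Data n) {U : Finset (ZMod n)} {L : ℕ} {x : ZMod n} (hx : x ∈ U) (i : ℕ)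
    (h : Cst A.f (pull (A.σ ^ i) (sh x U)) L) : Cst A.f U (L + i + x.val) := by
  apply Cst.rot
  exact Cst.keep A (by simpa using hx) i h

/-- exit at x -/
theorem Cst.exitAt (A : Data n) {U : Finset (ZMod n)} {L : ℕ} {x : ZMod n} (hx : x ∈ U) (i : ℕ)
    (hi : x + A.u i ∉ U) (h : Cst A.f ((pull (A.σ ^ (i + 1)) (sh x U)).erase 0) L) :
    Cst A.f U (L + (i + 1) + x.val) := by
  apply Cst.rot
  exact Cst.exit A (by simpa using hx) i (by simpa [add_comm] using hi) h

/-- the size after an exit -/
theorem card_exitAt (A : Data n) {U : Finset (ZMod n)} {x : ZMod n} (hx : x ∈ U) (i : ℕ) :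
    ((pull (A.σ ^ (i + 1)) (sh x U)).erase 0).card = U.card - 1 := by
  rw [Finset.card_erase_of_mem, card_pull, card_sh]
  rw [mem_pull, A.pow_zero', mem_sh]
  simpa using hx

/-! ### Unions of cosets -/

/-- the stabilizer -/
def Stab (U : Finset (ZMod n)) : AddSubgroup (ZMod n) where
  carrier := {h | ∀ x, x + h ∈ U ↔ x ∈ U}
  zero_mem' := by intro x; simp
  add_mem' := by
    intro a b ha hb x
    rw [← add_assoc, hb, ha]
  neg_mem' := by
    intro a ha x
    have := ha (x + -a)
    simpa using this.symm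

theorem mem_Stab (U : Finset (ZMod n)) (h : ZMod n) : h ∈ Stab U ↔ ∀ x, x + h ∈ U ↔ x ∈ U :=
  Iff.rfl

theorem mem_Stab_of (U : Finset (ZMod n)) (h : ZMod n) (hh : ∀ x ∈ U, x + h ∈ U) :
    h ∈ Stab U := by
  rw [mem_Stab]
  have h1 : U ⊆ sh h U := by
    intro x hx
    rw [mem_sh]
    exact hh x hx
  have h2 : U = sh h U := Finset.eq_of_subset_of_card_le h1 (by rw [card_sh])
  intro x
  constructor
  · intro h3
    rw [h2, mem_sh]
    exact h3
  · intro h3
    exact hh x h3

theorem isUnion_iff (H : AddSubgroup (ZMod n)) (U : Finset (ZMod n)) :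
    IsUnion H U ↔ H ≤ Stab U := by
  constructor
  · intro h x hx
    exact mem_Stab_of U x (fun y hy => h y hy x hx)
  · intro h x hx y hy
    exact (h hy x).2 hx

/-- reduction of a representative: `x` is congruent mod `H` to an element with small value -/
theorem exists_small_rep (H : AddSubgroup (ZMod n)) (x : ZMod n) :
    ∃ y : ZMod n, x - y ∈ H ∧ y.val < H.index ∧ y.val ≤ x.val := by
  have hidx : 0 < H.index := Nat.pos_of_ne_zero AddSubgroup.index_ne_zero_of_finite
  have hmem : ((H.index : ℕ) : ZMod n) ∈ H := by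
    have := AddSubgroup.nsmul_index_mem H (1 : ZMod n)
    simpa using this
  refine ⟨((x.val % H.index : ℕ) : ZMod n), ?_, ?_, ?_⟩
  · have h1 : x = ((x.val : ℕ) : ZMod n) := (ZMod.natCast_zmod_val x).symm
    have h2 : x - ((x.val % H.index : ℕ) : ZMod n) =
        (x.val / H.index) • ((H.index : ℕ) : ZMod n) := by
      conv_lhs => rw [h1]
      have h3 := Nat.mod_add_div x.val H.index
      rw [nsmul_eq_mul]
      have h4 : ((x.val : ℕ) : ZMod n) =
          ((x.val % H.index + H.index * (x.val / H.index) : ℕ) : ZMod n) := by rw [h3]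
      rw [ZMod.val_natCast, Nat.mod_eq_of_lt x.val_lt]
      conv_lhs => rw [h4]
      push_cast
      ring
    rw [h2]
    exact H.nsmul_mem hmem _
  · rw [ZMod.val_natCast_of_lt]
    · exact Nat.mod_lt _ hidx
    · exact lt_of_le_of_lt (Nat.mod_le _ _) x.val_lt
  · rw [ZMod.val_natCast_of_lt]
    · exact Nat.mod_le _ _
    · exact lt_of_le_of_lt (Nat.mod_le _ _) x.val_lt

theorem Data.u_ne_zero (A : Data n) (i : ℕ) : A.u i ≠ 0 := by
  intro h
  unfold Data.u at h
  apply A.hd
  apply (A.σ ^ i).injective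
  rw [h, A.pow_zero']

theorem Data.u_add (A : Data n) (i j : ℕ) : A.u (i + j) = (A.σ ^ i) (A.u j) := by
  unfold Data.u
  rw [pow_add, Equiv.Perm.mul_apply]

/-- the subgroup generated by `u_0, …, u_{i-1}` -/
def Data.H (A : Data n) (i : ℕ) : AddSubgroup (ZMod n) :=
  AddSubgroup.closure (A.u '' {j | j < i})

/-- If `u_i` is not among the subgroup generated by the earlier ones, then `i + 1 ≤ |H_i|`. -/
theorem card_H (A : Data n) (i : ℕ) (hi : A.u i ∉ A.H i) : i + 1 ≤ Nat.card (A.H i) := by
  have hmem : ∀ j < i, A.u j ∈ A.H i := fun j hj =>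
    AddSubgroup.subset_closure ⟨j, hj, rfl⟩
  -- distinct
  have hdist : ∀ a b, a < b → b < i → A.u a ≠ A.u b := by
    intro a b hab hb h
    apply hi
    have h1 : A.u i = A.u (i - (b - a)) := by
      have e1 : i = (i - b) + b := by omega
      have e2 : i - (b - a) = (i - b) + a := by omega
      rw [e2, A.u_add, h, ← A.u_add, ← e1]
    rw [h1]
    exact hmem _ (by omega)
  let F : Fin (i + 1) → A.H i := fun j =>
    if h : j.1 < i then ⟨A.u j.1, hmem j.1 h⟩ else 0
  have hF : Function.Injective F := by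
    intro a b hab
    simp only [F] at hab
    split_ifs at hab with h1 h2 h2
    · have h3 : A.u a.1 = A.u b.1 := congrArg Subtype.val hab
      rcases lt_trichotomy a.1 b.1 with h4 | h4 | h4
      · exact absurd h3 (hdist _ _ h4 h2)
      · exact Fin.ext h4
      · exact absurd h3.symm (hdist _ _ h4 h1)
    · exact absurd (congrArg Subtype.val hab) (A.u_ne_zero a.1)
    · exact absurd (congrArg Subtype.val hab).symm (A.u_ne_zero b.1)
    · apply Fin.ext
      omega
  have := Nat.card_le_card_of_injective F hF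
  simpa using this

/-- (C), a sharper form: the exit point lies below `index H`. -/
theorem exists_exit' (A : Data n) (U : Finset (ZMod n)) (hU : ¬ IsUnion A.K U) :
    ∃ i : ℕ, A.H i ≤ Stab U ∧ i + 1 ≤ Nat.card (A.H i) ∧
      ∃ x ∈ U, x + A.u i ∉ U ∧ x.val < (A.H i).index := by
  rw [isUnion_iff] at hU
  have hex : ∃ i, A.u i ∉ Stab U := by
    by_contra hcon
    push Not at hcon
    apply hU
    unfold Data.K
    rw [AddSubgroup.closure_le]
    rintro _ ⟨i, rfl⟩
    exact hcon i
  classical
  set i := Nat.find hex with hi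
  have hi1 : A.u i ∉ Stab U := Nat.find_spec hex
  have hi2 : ∀ j < i, A.u j ∈ Stab U := fun j hj => by
    by_contra h
    exact Nat.find_min hex hj h
  have hH : A.H i ≤ Stab U := by
    unfold Data.H
    rw [AddSubgroup.closure_le]
    rintro _ ⟨j, hj, rfl⟩
    exact hi2 j hj
  refine ⟨i, hH, card_H A i (fun h => hi1 (hH h)), ?_⟩
  have hx : ∃ x ∈ U, x + A.u i ∉ U := by
    by_contra hcon
    push Not at hcon
    exact hi1 (mem_Stab_of U _ hcon)
  obtain ⟨x, hx1, hx2⟩ := hx
  obtain ⟨y, hy1, hy2, -⟩ := exists_small_rep (A.H i) x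
  have hy3 : x - y ∈ Stab U := hH hy1
  have hy4 : y ∈ U := by
    have := (mem_Stab U _).1 hy3 y
    rw [add_sub_cancel] at this
    exact this.1 hx1
  have hy5 : y + A.u i ∉ U := by
    have := (mem_Stab U _).1 hy3 (y + A.u i)
    rw [show y + A.u i + (x - y) = x + A.u i by ring] at this
    exact fun h => hx2 (this.2 h)
  exact ⟨y, hy4, hy5, hy2⟩

theorem add_le_of_mul_eq {a b m : ℕ} (hm : 0 < m) (h : a * b = m) : a + b ≤ m + 1 := by
  rcases Nat.eq_zero_or_pos a with rfl | ha
  · simp at h; omega
  rcases Nat.eq_zero_or_pos b with rfl | hb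
  · simp at h; omega
  obtain ⟨a', rfl⟩ : ∃ a', a = a' + 1 := ⟨a - 1, by omega⟩
  obtain ⟨b', rfl⟩ : ∃ b', b = b' + 1 := ⟨b - 1, by omega⟩
  have : (a' + 1) * (b' + 1) = a' * b' + a' + b' + 1 := by ring
  have h2 := Nat.zero_le (a' * b')
  omega

/-- (C) -/
theorem exists_exit (A : Data n) (U : Finset (ZMod n)) (hU : ¬ IsUnion A.K U) :
    ∃ x ∈ U, ∃ i : ℕ, x + A.u i ∉ U ∧ x.val + (i + 1) ≤ n := by
  obtain ⟨i, -, h2, x, h3, h4, h5⟩ := exists_exit' A U hU
  refine ⟨x, h3, i, h4, ?_⟩
  have h6 : (A.H i).index * Nat.card (A.H i) = n := by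
    rw [AddSubgroup.index_mul_card, Nat.card_zmod]
  have := add_le_of_mul_eq (Nat.pos_of_ne_zero (NeZero.ne n)) h6
  omega

/-- final induction -/
theorem main_of_H (A : Data n)
    (hH : ∀ Y : Finset (ZMod n), Y.Nonempty → Y ≠ Finset.univ → IsUnion A.K Y →
      (∀ Z : Finset (ZMod n), Z.card < Y.card → Cst A.f Z (n * Z.card)) →
        Cst A.f Y (n * Y.card)) :
    ∀ U : Finset (ZMod n), U ≠ Finset.univ → Cst A.f U (n * U.card) := by
  have key : ∀ k : ℕ, ∀ U : Finset (ZMod n), U.card = k → U ≠ Finset.univ →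
      Cst A.f U (n * U.card) := by
    intro k
    induction k using Nat.strong_induction_on with
    | _ k ih =>
      intro U hk hU
      have hIH : ∀ Z : Finset (ZMod n), Z.card < U.card → Cst A.f Z (n * Z.card) := by
        intro Z hZ
        apply ih Z.card (by omega) Z rfl
        rintro rfl
        have := Finset.card_le_card (Finset.subset_univ U)
        omega
      by_cases hun : IsUnion A.K U
      · rcases Finset.eq_empty_or_nonempty U with rfl | hne
        · simpa using Cst.empty A.f
        · exact hH U hne hU hun hIH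
      · obtain ⟨x, hx, i, hi, hc⟩ := exists_exit A U hun
        have hcard := card_exitAt A hx i
        have hpos : 0 < U.card := Finset.card_pos.2 ⟨x, hx⟩
        have h1 := hIH ((pull (A.σ ^ (i + 1)) (sh x U)).erase 0) (by omega)
        have h2 := Cst.exitAt A hx i hi h1
        apply h2.mono
        rw [hcard]
        obtain ⟨m, hm⟩ : ∃ m, U.card = m + 1 := ⟨U.card - 1, by omega⟩
        rw [hm, Nat.add_sub_cancel, Nat.mul_succ]
        omega
  intro U hU
  exact key U.card U rfl hU

/-! ### From the frozen hypotheses to `Data` -/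

/-- Complete reachability: no proper subgroup is invariant. -/
theorem no_invariant (f : ZMod n → ZMod n)
    (hreach : ∀ P : Finset (ZMod n), P.Nonempty →
        ∃ w : List Bool,
          Finset.univ.image (fun q : ZMod n =>
            w.foldl (fun (p : ZMod n) (c : Bool) => if c then f p else p + 1) q) = P)
    (hex : ∀ q : ZMod n, (∀ p : ZMod n, f p ≠ q) ↔ q = 0)
    (H : AddSubgroup (ZMod n)) (hH : H ≠ ⊤) : ∃ x ∈ H, f x ∉ H := by
  by_contra hcon
  push Not at hcon
  classical
  have key : ∀ w : List Bool, ∀ c : ZMod n,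
      ¬ (∀ y : ZMod n, (∃ q : ZMod n, w.foldl (step f) q = y) ↔ y - c ∉ H) := by
    intro w
    induction w using List.reverseRecOn with
    | nil =>
      intro c h
      have := (h c).1 ⟨c, rfl⟩
      rw [sub_self] at this
      exact this H.zero_mem
    | append_singleton w x ih =>
      intro c h
      simp only [List.foldl_append, List.foldl_cons, List.foldl_nil] at h
      cases x with
      | false =>
        apply ih (c - 1)
        intro y
        have := h (y + 1)
        constructor
        · rintro ⟨q, hq⟩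
          have h2 := this.1 ⟨q, by rw [hq]; simp [step]⟩
          rwa [show y - (c - 1) = y + 1 - c by ring]
        · intro hy
          rw [show y - (c - 1) = y + 1 - c by ring] at hy
          obtain ⟨q, hq⟩ := this.2 hy
          refine ⟨q, ?_⟩
          simp only [step] at hq
          simpa using hq
      | true =>
        simp only [step, if_true] at h
        -- 0 - c ∈ H
        have h0 : (0 : ZMod n) - c ∈ H := by
          by_contra h1
          obtain ⟨q, hq⟩ := (h 0).2 h1
          exact (hex 0).2 rfl _ hq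
        have hc : c ∈ H := by
          rw [zero_sub] at h0
          exact neg_mem_iff.1 h0
        have h' : ∀ y : ZMod n, (∃ q : ZMod n, f (w.foldl (step f) q) = y) ↔ y ∉ H := by
          intro y
          rw [h y]
          constructor
          · intro h1 h2
            exact h1 (H.sub_mem h2 hc)
          · intro h1 h2
            apply h1
            have := H.add_mem h2 hc
            simpa using this
        -- T = image of w
        set T : Finset (ZMod n) := Finset.univ.image (fun q => w.foldl (step f) q) with hT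
        set C : Finset (ZMod n) := Finset.univ.filter (fun y => y ∉ H) with hC
        have hTC : T ⊆ C := by
          intro y hy
          rw [hC, Finset.mem_filter]
          refine ⟨Finset.mem_univ _, fun hyH => ?_⟩
          rw [hT, Finset.mem_image] at hy
          obtain ⟨q, -, hq⟩ := hy
          exact (h' (f y)).1 ⟨q, by rw [hq]⟩ (hcon y hyH)
        have hCT : C = T.image f := by
          ext y
          rw [hC, Finset.mem_filter, ← h' y, hT, Finset.image_image, Finset.mem_image]
          simp only [Finset.mem_univ, true_and, Function.comp]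
        have hTeq : T = C := by
          apply Finset.eq_of_subset_of_card_le hTC
          rw [hCT]
          exact Finset.card_image_le
        apply ih 0
        intro y
        rw [sub_zero]
        constructor
        · rintro ⟨q, hq⟩
          have : y ∈ T := by
            rw [hT, Finset.mem_image]
            exact ⟨q, Finset.mem_univ _, hq⟩
          rw [hTeq, hC, Finset.mem_filter] at this
          exact this.2
        · intro hy
          have : y ∈ T := by
            rw [hTeq, hC, Finset.mem_filter]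
            exact ⟨Finset.mem_univ _, hy⟩
          rw [hT, Finset.mem_image] at this
          obtain ⟨q, -, hq⟩ := this
          exact ⟨q, hq⟩
  obtain ⟨z, hz⟩ : ∃ z, z ∉ H := by
    by_contra h
    push Not at h
    exact hH ((AddSubgroup.eq_top_iff' H).2 h)
  obtain ⟨w, hw⟩ := hreach (Finset.univ.filter (fun y => y ∉ H))
    ⟨z, by rw [Finset.mem_filter]; exact ⟨Finset.mem_univ _, hz⟩⟩
  apply key w 0
  intro y
  rw [sub_zero]
  have h1 : y ∈ Finset.univ.image (fun q : ZMod n =>
            w.foldl (fun (p : ZMod n) (c : Bool) => if c then f p else p + 1) q) ↔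
      y ∈ Finset.univ.filter (fun y => y ∉ H) := by rw [hw]
  rw [Finset.mem_image, Finset.mem_filter] at h1
  simp only [Finset.mem_univ, true_and] at h1
  exact h1

/-- the data of a standardized completely reachable automaton -/
theorem exists_data (f : ZMod n → ZMod n)
    (hreach : ∀ P : Finset (ZMod n), P.Nonempty →
        ∃ w : List Bool,
          Finset.univ.image (fun q : ZMod n =>
            w.foldl (fun (p : ZMod n) (c : Bool) => if c then f p else p + 1) q) = P)
    (hex : ∀ q : ZMod n, (∀ p : ZMod n, f p ≠ q) ↔ q = 0)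
    (hdup : ∀ q : ZMod n, (∃ p₁ p₂ : ZMod n, p₁ ≠ p₂ ∧ f p₁ = q ∧ f p₂ = q) ↔ q = f 0) :
    ∃ A : Data n, A.f = f := by
  classical
  let g : ZMod n → ZMod n := fun x => if x = 0 then 0 else f x
  have hg : Function.Surjective g := by
    intro q
    rcases eq_or_ne q 0 with rfl | hq
    · exact ⟨0, by simp [g]⟩
    · have h1 : ¬ (∀ p : ZMod n, f p ≠ q) := fun h => hq ((hex q).1 h)
      push Not at h1
      obtain ⟨p, hp⟩ := h1
      rcases eq_or_ne p 0 with rfl | hp0
      · obtain ⟨p₁, p₂, hne, h2, h3⟩ := (hdup q).2 hp.symm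
        rcases eq_or_ne p₁ 0 with rfl | h4
        · exact ⟨p₂, by simp [g, hne.symm, h3]⟩
        · exact ⟨p₁, by simp [g, h4, h2]⟩
      · exact ⟨p, by simp [g, hp0, hp]⟩
  have hgb : Function.Bijective g := Finite.injective_iff_bijective.1
    (Finite.injective_iff_surjective.2 hg)
  refine ⟨⟨f, Equiv.ofBijective g hgb, by simp [g], ?_, ?_, ?_⟩, rfl⟩
  · intro x hx
    simp [g, hx]
  · exact (hex 0).2 rfl 0
  · intro H hH
    exact no_invariant f hreach hex H hH

/-- the frozen statement -/
theorem frozen_of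
    (H : ∀ (n : ℕ) [NeZero n] (A : Data n) (U : Finset (ZMod n)), U ≠ Finset.univ →
      Cst A.f U (n * U.card)) :
    ∀ (n : ℕ) [NeZero n] (f : ZMod n → ZMod n),
      (∀ P : Finset (ZMod n), P.Nonempty →
        ∃ w : List Bool,
          Finset.univ.image (fun q : ZMod n =>
            w.foldl (fun (p : ZMod n) (c : Bool) => if c then f p else p + 1) q) = P) →
      (∀ q : ZMod n, (∀ p : ZMod n, f p ≠ q) ↔ q = 0) →
      (∀ q : ZMod n, (∃ p₁ p₂ : ZMod n, p₁ ≠ p₂ ∧ f p₁ = q ∧ f p₂ = q) ↔ q = f 0) →
      ∀ S : Finset (ZMod n), S.Nonempty →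
        ∃ w : List Bool, w.length ≤ n * (n - S.card) ∧
          Finset.univ.image (fun q : ZMod n =>
            w.foldl (fun (p : ZMod n) (c : Bool) => if c then f p else p + 1) q) = S := by
  intro n _ f hreach hex hdup S hS
  obtain ⟨A, rfl⟩ := exists_data f hreach hex hdup
  have h1 : Sᶜ ≠ Finset.univ := by
    intro h
    obtain ⟨x, hx⟩ := hS
    have : x ∈ Sᶜ := by rw [h]; exact Finset.mem_univ x
    exact (Finset.mem_compl.1 this) hx
  obtain ⟨w, hw1, hw2⟩ := H n A Sᶜ h1
  refine ⟨w, ?_, ?_⟩
  · rw [Finset.card_compl, ZMod.card] at hw1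
    exact hw1
  · rw [compl_compl] at hw2
    exact hw2

end Pool.Agent.Helper4.Don
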