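import Pool.Agent.Helper4.DonTermA

set_option autoImplicit false
set_option linter.unusedSectionVars false

/-!
MP_cc0723_lc: terminal situations of the chain, general setting, and the case where the set is
not a union of `K`-cosets inside the terminal group.
-/

namespace Pool.Agent.Helper4.Don

variable {n : ℕ} [NeZero n]

/-- the part of `Z` inside `G` -/
noncomputable def inG (G : AddSubgroup (ZMod n)) (Z : Finset (ZMod n)) : Finset (ZMod n) :=
  open Classical in Z.filter (fun y => y ∈ G)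

theorem mem_inG (G : AddSubgroup (ZMod n)) (Z : Finset (ZMod n)) (y : ZMod n) :
    y ∈ inG G Z ↔ y ∈ Z ∧ y ∈ G := by
  simp [inG]

/-- the state of the chain at the group `G` -/
structure Term (A : Data n) (N : ℕ) (G : AddSubgroup (ZMod n)) (Z : Finset (ZMod n))
    (a e : ℕ) : Prop where
  lt : A.K < G
  pr : Pr A N Z a
  card : Z.card = N
  z0 : (0 : ZMod n) ∈ Z
  ha : a ≤ G.index + e
  he : 2 * 3 ^ e ≤ G.index
  hV : ∀ v ∈ V A (A.K.index - G.index - e), v ∈ G

/-- a marker state obtained from the full size -/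
structure Mark (A : Data n) (N : ℕ) (U : Finset (ZMod n)) (w : ℕ) : Prop where
  pr : Pr A N U (n - 1 + w)
  card : U.card = N
  z0 : (0 : ZMod n) ∈ U
  hu : A.u 0 ∉ U
  pos : 1 ≤ w
  ex : ∀ x ∈ A.K, x ∈ U → x + A.u 0 ∉ U → x = 0

theorem mark_of_brk {A : Data n} {N a : ℕ} (ih : IH A N) {Z : Finset (ZMod n)} (h : Pr A N Z a)
    (hc : Z.card = N) (hb : Brk A Z) (ha : a < 2 * A.K.index) :
    A.K.index ≤ a ∧ Mark A N (sh (-dl A) Z) (a - A.K.index + 1) := by
  obtain ⟨h1, h2, h3, h4, h5⟩ := h.mk ih hb ha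
  exact ⟨h1, ⟨h5, by rw [card_sh]; exact hc, h2, h3, by omega, h4⟩⟩

/-- the Stage lemma applied to a marker of full size `N`, `|K| ∣ N` -/
theorem Mark.stage {A : Data n} {N w : ℕ} (ih : IH A N) {U : Finset (ZMod n)}
    (h : Mark A N U w) (hN : Nat.card A.K ∣ N) (hwD : w < A.K.index)
    (hwκ : w + 1 ≤ Nat.card A.K) :
    ∃ (U' : Finset (ZMod n)) (a' i' : ℕ), 1 ≤ a' ∧ a' ≤ w ∧ 1 ≤ i' ∧ i' + a' ≤ 1 + w ∧
      Pr A N U' (n - 1 + a') ∧ (0 : ZMod n) ∈ U' ∧ A.u 0 ∉ U' ∧
      (∀ x ∈ A.K, x ∈ U' → x + A.u 0 ∉ U' → x = 0) ∧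
      (inK A U').card + i' = Nat.card A.K := by
  have h1 := h.pr.drop h.z0 h.hu
  have hpos : 0 < U.card := Finset.card_pos.2 ⟨0, h.z0⟩
  have hcard : (pull A.σ (U.erase 0)).card = N - 1 := by
    rw [card_pull, Finset.card_erase_of_mem h.z0, h.card]
  have hp := h.pos
  have hc := h.card
  obtain ⟨U', a', i', g1, g2, g3, g4, g5, g6, g7, g8, g9, g10⟩ :=
    Don.stage ih w (pull A.σ (U.erase 0)) 1 h1 hp hwD (le_refl _) (by omega)
      (by
        rw [hcard]
        have : N - 1 + 1 = N := by omega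
        rw [this]
        exact hN)
  exact ⟨U', a', i', g1, g2, g3, g4, g6, g7, g8, g9, g10⟩

theorem card_inK_erase {A : Data n} {U : Finset (ZMod n)} (h0 : (0 : ZMod n) ∈ U) :
    ((inK A U).erase 0).card + 1 = (inK A U).card := by
  have h1 : (0 : ZMod n) ∈ inK A U := (mem_inK A U 0).2 ⟨h0, A.K.zero_mem⟩
  rw [Finset.card_erase_of_mem h1]
  have : 0 < (inK A U).card := Finset.card_pos.2 ⟨0, h1⟩
  omega

/-- growth from the tokens of a marker -/
theorem grow_marker {A : Data n} {U : Finset (ZMod n)} {w : ℕ}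
    (hw : ∀ t ∈ U, t ≠ 0 → Away A w t) (j : ℕ) (hj : j ≤ w) :
    Nat.card A.K + ((inK A U).erase 0).card * j ≤ (V A j).card := by
  apply grow A w _ _ _ j hj
  · intro t ht
    rw [Finset.mem_erase, mem_inK] at ht
    exact ht.2.2
  · intro t ht
    rw [Finset.mem_erase, mem_inK] at ht
    exact hw t ht.2.1 ht.1

/-- dimensions for `Term` -/
theorem Term.dims {A : Data n} {N a e : ℕ} {G : AddSubgroup (ZMod n)} {Z : Finset (ZMod n)}
    (h : Term A N G Z a e) : ∃ r : ℕ, 1 ≤ r ∧ A.K.index = G.index * (r + 1) ∧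
      Nat.card G = Nat.card A.K * (r + 1) := by
  obtain ⟨ρ, h1, h2, h3⟩ := Don.dims A G h.lt
  obtain ⟨r, rfl⟩ : ∃ r, ρ = r + 1 := ⟨ρ - 1, by omega⟩
  exact ⟨r, by omega, h2, h3⟩

/-- (1)/(2) for `ε ≥ 1`, from a token set of size `τ` with window `≥ D - μ - ε` -/
theorem Term.bound {A : Data n} {N a e : ℕ} {G : AddSubgroup (ZMod n)} {Z : Finset (ZMod n)}
    (h : Term A N G Z a e) {r τ : ℕ} (hD : A.K.index = G.index * (r + 1))
    (hG : Nat.card G = Nat.card A.K * (r + 1))
    (hg : Nat.card A.K + τ * (A.K.index - G.index - e) ≤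
      (V A (A.K.index - G.index - e)).card) :
    τ * (G.index * r - e) ≤ Nat.card A.K * r := by
  have h1 := card_le_of_sub A G _ h.hV
  rw [hG] at h1
  have h2 : A.K.index - G.index - e = G.index * r - e := by
    rw [hD, Nat.mul_succ]
    omega
  rw [h2] at hg h1
  have h3 : Nat.card A.K * (r + 1) = Nat.card A.K * r + Nat.card A.K := Nat.mul_succ _ _
  omega

theorem Term.e_lt {A : Data n} {N a e : ℕ} {G : AddSubgroup (ZMod n)} {Z : Finset (ZMod n)}
    (h : Term A N G Z a e) : e + 1 < G.index ∧ (1 ≤ e → 6 * e ≤ G.index) := by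
  have h1 := h.he
  constructor
  · rcases Nat.eq_zero_or_pos e with rfl | he
    · simp at h1
      omega
    · have := three_mul_le_pow e he
      omega
  · intro he
    have := three_mul_le_pow e he
    omega

/-- (B), the marker -/
theorem Term.brk_mark {A : Data n} {N a e : ℕ} (ih : IH A N) {G : AddSubgroup (ZMod n)}
    {Z : Finset (ZMod n)} (h : Term A N G Z a e) (hB : ¬ A.K ≤ Stab (inG G Z)) :
    ∃ y : ZMod n, y ∈ G ∧ y.val + G.index ≤ A.K.index ∧ A.K.index ≤ a + y.val ∧
      Mark A N (sh (-dl A) (sh y Z)) (a + y.val - A.K.index + 1) := by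
  obtain ⟨r, hr1, hD, hG⟩ := h.dims
  have hμ := index_pos' G
  have hE := h.e_lt
  rw [← isUnion_iff] at hB
  unfold IsUnion at hB
  push Not at hB
  obtain ⟨x, hx, k, hk, hxk⟩ := hB
  rw [mem_inG] at hx hxk
  have hkG : k ∈ G := h.lt.le hk
  have hxkZ : x + k ∉ Z := fun h1 => hxk ⟨h1, G.add_mem hx.2 hkG⟩
  obtain ⟨y, hy1, hy2, -⟩ := exists_small_rep A.K x
  have hyG : y ∈ G := by
    have := G.sub_mem hx.2 (h.lt.le hy1)
    simpa using this
  have hy3 := val_add_index_le h.lt.le hyG hy2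
  have hpr : Pr A N (sh y Z) (a + y.val) := by
    have := h.pr.shift y.val
    rwa [ZMod.natCast_zmod_val] at this
  have hb : Brk A (sh y Z) := by
    refine ⟨⟨x - y, hy1, ?_⟩, x - y + k, A.K.add_mem hy1 hk, ?_⟩
    · rw [mem_sh]
      simpa using hx.1
    · rw [mem_sh]
      convert hxkZ using 2
      ring
  have ha := h.ha
  have h2D : a + y.val < 2 * A.K.index := by
    have h1 : G.index * (r + 1) = G.index * r + G.index := Nat.mul_succ _ _
    have h2 : G.index ≤ G.index * r := Nat.le_mul_of_pos_right _ hr1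
    omega
  have := mark_of_brk ih hpr (by rw [card_sh]; exact h.card) hb h2D
  exact ⟨y, hyG, hy3, this.1, this.2⟩

/-- (B), `ε ≥ 1` -/
theorem Term.B_pos {A : Data n} {N a e : ℕ} (ih : IH A N) {G : AddSubgroup (ZMod n)}
    {Z : Finset (ZMod n)} (h : Term A N G Z a e) (hB : ¬ A.K ≤ Stab (inG G Z))
    (hN : Nat.card A.K ∣ N) {k0 : ZMod n} (hk0 : k0 ∈ A.K) (hk1 : Away A (A.K.index - 2) k0)
    (he : 1 ≤ e) : False := by
  obtain ⟨r, hr1, hD, hG⟩ := h.dims
  obtain ⟨y, hyG, hy1, hy2, hM⟩ := h.brk_mark ih hB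
  have hE := h.e_lt
  have hμ := index_pos' G
  have ha := h.ha
  have hr2 : G.index ≤ G.index * r := Nat.le_mul_of_pos_right _ hr1
  have hr3 : G.index * (r + 1) = G.index * r + G.index := Nat.mul_succ _ _
  -- (1)
  have hg1 := grow A (A.K.index - 2) {k0} (by simpa using hk0) (by simpa using hk1)
    (A.K.index - G.index - e) (by omega)
  rw [Finset.card_singleton] at hg1
  have h1 := h.bound hD hG hg1
  rw [one_mul] at h1
  refine arithB (κ := Nat.card A.K) (μ := G.index) (r := r) (X := G.index * r - e)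
    (ω := a + y.val - A.K.index + 1) he (hE.2 he) hr1 (by omega) h1 (by omega) ?_
  intro hκ
  obtain ⟨U', a', i', g1, g2, g3, g4, g5, g6, g7, g8, g9⟩ := hM.stage ih hN (by omega) hκ
  have hg2 := grow_marker (A := A) (U := U') (w := A.K.index - a')
    (fun t ht ht0 => g5.ret ih g6 g7 g1 ht ht0) (A.K.index - G.index - e) (by omega)
  have h2 := h.bound hD hG hg2
  refine le_trans (Nat.mul_le_mul_right _ ?_) h2
  have := card_inK_erase (A := A) g6
  omega

/-- `V_j ⊆ Z ∩ G` -/
theorem Term.V_sub {A : Data n} {N a e : ℕ} (ih : IH A N) {G : AddSubgroup (ZMod n)}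
    {Z : Finset (ZMod n)} (h : Term A N G Z a e) (j : ℕ) (hj : a + j < A.K.index)
    (hj2 : j ≤ A.K.index - G.index - e) : V A j ⊆ inG G Z := by
  intro v hv
  rw [mem_inG]
  constructor
  · have := h.pr.c1 ih (x := 0) (j := j) (by simpa using h.z0) (by omega) hv
    simpa using this
  · exact h.hV v (V_mono A hj2 hv)

/-- (B), `ε = 0` -/
theorem Term.B_zero {A : Data n} {N a : ℕ} (ih : IH A N) {G : AddSubgroup (ZMod n)}
    {Z : Finset (ZMod n)} (h : Term A N G Z a 0) (hB : ¬ A.K ≤ Stab (inG G Z))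
    (hN : Nat.card A.K ∣ N) (h3 : 3 ≤ Nat.card A.K) : False := by
  classical
  obtain ⟨r, hr1, hD, hG⟩ := h.dims
  obtain ⟨y, hyG, hy1, hy2, hM⟩ := h.brk_mark ih hB
  have hE := h.e_lt
  have hμ := index_pos' G
  have ha := h.ha
  have hr2 : G.index ≤ G.index * r := Nat.le_mul_of_pos_right _ hr1
  have hr3 : G.index * (r + 1) = G.index * r + G.index := Nat.mul_succ _ _
  have e1 : a + y.val - A.K.index + 1 = 1 := by omega
  rw [e1] at hM
  have haμ : a = G.index := by omega
  obtain ⟨U', a', i', g1, g2, g3, g4, g5, g6, g7, g8, g9⟩ := hM.stage ih hN (by omega) (by omega)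
  have ha' : a' = 1 := by omega
  have hi' : i' = 1 := by omega
  subst ha' hi'
  have hcK := card_inK_erase (A := A) g6
  have hret' : ∀ t ∈ U', t ≠ 0 → Away A (A.K.index - 1) t :=
    fun t ht ht0 => g5.ret ih g6 g7 (le_refl _) ht ht0
  have hgA := grow_marker hret' (A.K.index - G.index) (by omega)
  have hgB := grow_marker hret' (A.K.index - G.index - 1) (by omega)
  set U := sh (-dl A) (sh y Z) with hU
  have hretU : ∀ t ∈ U, t ≠ 0 → Away A (A.K.index - 1) t :=
    fun t ht ht0 => hM.pr.ret ih hM.z0 hM.hu (le_refl _) ht ht0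
  -- the three disjoint parts of `G`
  have hVG : ∀ v ∈ V A (A.K.index - G.index), v ∈ G := by simpa using h.hV
  have hVZ : V A (A.K.index - G.index - 1) ⊆ inG G Z := by
    apply h.V_sub ih
    · omega
    · omega
  have hUcard : (inG G U).card = (inG G Z).card := by
    apply Finset.card_bij (fun v _ => v + -dl A + y)
    · intro v hv
      rw [mem_inG, hU, mem_sh, mem_sh] at hv
      rw [mem_inG]
      exact ⟨hv.1, G.add_mem (G.add_mem hv.2 (G.neg_mem (h.lt.le (dl_mem A)))) hyG⟩
    · intro v _ w _ hvw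
      have := add_right_cancel hvw
      exact add_right_cancel this
    · intro z hz
      rw [mem_inG] at hz
      refine ⟨z - y + dl A, ?_, by ring⟩
      rw [mem_inG, hU, mem_sh, mem_sh]
      constructor
      · convert hz.1 using 1
        ring
      · exact G.add_mem (G.sub_mem hz.2 hyG) (h.lt.le (dl_mem A))
  have hVZc := Finset.card_le_card hVZ
  -- `V \ K`
  set VK := (V A (A.K.index - G.index)).filter (fun v => v ∉ A.K) with hVK
  have hVKc : VK.card + Nat.card A.K = (V A (A.K.index - G.index)).card := by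
    have h1 := Finset.card_filter_add_card_filter_not (s := V A (A.K.index - G.index))
      (fun v => v ∉ A.K)
    have h2 : ((V A (A.K.index - G.index)).filter (fun v => ¬ (v ∉ A.K))).card =
        Nat.card A.K := by
      rw [← card_filter_K A]
      congr 1
      ext v
      simp only [Finset.mem_filter, Finset.mem_univ, true_and, not_not]
      exact ⟨fun h => h.2, fun h => ⟨K_sub_V A _ h, h⟩⟩
    rw [h2] at h1
    exact h1
  have hdis1 : Disjoint (inG G U) VK := by
    rw [Finset.disjoint_left]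
    intro v hv hv2
    rw [mem_inG] at hv
    rw [hVK, Finset.mem_filter, mem_V] at hv2
    obtain ⟨⟨i, hi, k, hk, hik⟩, hvK⟩ := hv2
    have hi0 : 1 ≤ i := by
      rcases Nat.eq_zero_or_pos i with rfl | h1
      · exfalso
        apply hvK
        rw [← hik]
        simpa using hk
      · exact h1
    have hv0 : v ≠ 0 := by
      rintro rfl
      exact hvK A.K.zero_mem
    exact hretU v hv.1 hv0 i hi0 (by omega) k hk hik
  have hsub : (insert (A.u 0) (inG G U ∪ VK)) ⊆ Finset.univ.filter (fun v => v ∈ G) := by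
    intro v hv
    rw [Finset.mem_insert, Finset.mem_union] at hv
    simp only [Finset.mem_filter, Finset.mem_univ, true_and]
    rcases hv with rfl | hv | hv
    · exact h.lt.le (A.u_mem_K 0)
    · exact ((mem_inG _ _ _).1 hv).2
    · rw [hVK, Finset.mem_filter] at hv
      exact hVG v hv.1
  have hnot : A.u 0 ∉ inG G U ∪ VK := by
    rw [Finset.mem_union, mem_inG]
    rintro (h1 | h1)
    · exact hM.hu h1.1
    · rw [hVK, Finset.mem_filter] at h1
      exact h1.2 (A.u_mem_K 0)
  have hcount := Finset.card_le_card hsub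
  rw [Finset.card_insert_of_notMem hnot, Finset.card_union_of_disjoint hdis1, hUcard] at hcount
  have hGc : (Finset.univ.filter (fun v => v ∈ G)).card = Nat.card G := by
    rw [Nat.card_eq_fintype_card, Fintype.card_subtype]
  rw [hGc, hG] at hcount
  -- arithmetic
  obtain ⟨κ, hκ⟩ : ∃ κ, Nat.card A.K = κ + 2 := ⟨Nat.card A.K - 2, by omega⟩
  have hτ : ((inK A U').erase 0).card = κ := by omega
  rw [hτ, hκ] at hgA hgB
  rw [hκ] at hcount hVKc
  have e2 : A.K.index - G.index = G.index * r := by omega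
  have e3 : A.K.index - G.index - 1 = G.index * r - 1 := by omega
  rw [e3] at hgB hVZc
  rw [e2] at hgA hVKc
  obtain ⟨X, hX⟩ : ∃ X, G.index * r = X + 1 := ⟨G.index * r - 1, by omega⟩
  rw [hX, Nat.add_sub_cancel] at hgB hVZc
  rw [hX] at hgA hVKc
  -- 2 r ≤ X + 1
  have h2r : 2 * r ≤ X + 1 := by
    rw [← hX]
    exact Nat.mul_le_mul_right _ (by omega)
  have h5 : κ + 2 + κ * X + (κ * (X + 1)) + 1 ≤ (κ + 2) * (r + 1) := by omega
  have h6 : 1 ≤ κ := by omega
  nlinarith [Nat.mul_le_mul_left κ h2r, Nat.mul_le_mul h6 h2r, Nat.mul_le_mul h6 hr1]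

end Pool.Agent.Helper4.Don
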