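import Pool.Agent.Helper4.DonTermB

set_option autoImplicit false
set_option linter.unusedSectionVars false

/-!
MP_cc0723_lc: terminal situation (A), the stabilizer of `Z ∩ G` is exactly `K`.
-/

namespace Pool.Agent.Helper4.Don

variable {n : ℕ} [NeZero n]

/-- sideways move at `x` breaking `K` -/
theorem side_brk {A : Data n} {N a : ℕ} (ih : IH A N) {Z : Finset (ZMod n)} (h : Pr A N Z a)
    {x : ZMod n} (hx : x ∈ Z) {k : ZMod n} (hk : k ∈ A.K) (hxk : x + A.σ k ∉ Z) :
    Pr A N (pull A.σ (sh x Z)) (a + x.val + 1) ∧ Brk A (pull A.σ (sh x Z)) ∧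
      A.K.index ≤ a + x.val + 1 := by
  have h1 : Pr A N (sh x Z) (a + x.val) := by
    have := h.shift x.val
    rwa [ZMod.natCast_zmod_val] at this
  have h0 : (0 : ZMod n) ∈ sh x Z := by simpa using hx
  have h2 := h1.keep h0 1
  rw [pow_one] at h2
  have hb : Brk A (pull A.σ (sh x Z)) := by
    refine ⟨⟨0, A.K.zero_mem, ?_⟩, k, hk, ?_⟩
    · rw [mem_pull, A.σ0]
      exact h0
    · rw [mem_pull, mem_sh, add_comm]
      exact hxk
  exact ⟨h2, hb, h2.brk ih hb⟩

/-- in situation (A): `|Z ∩ G| ≤ κ r` -/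
theorem Term.inG_card {A : Data n} {N a e : ℕ} {G : AddSubgroup (ZMod n)}
    {Z : Finset (ZMod n)} (h : Term A N G Z a e) (hA : Stab (inG G Z) = A.K) {r : ℕ}
    (hG : Nat.card G = Nat.card A.K * (r + 1)) :
    (inG G Z).card ≤ Nat.card A.K * r := by
  classical
  have h1 : IsUnion A.K (inG G Z) := by
    rw [isUnion_iff, hA]
  obtain ⟨c, hc⟩ := card_dvd_of_isUnion A.K _ h1
  have h2 : (inG G Z).card < Nat.card G := by
    have h3 : inG G Z ⊆ Finset.univ.filter (fun v => v ∈ G) := by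
      intro v hv
      simpa using ((mem_inG _ _ _).1 hv).2
    have h4 : (Finset.univ.filter (fun v => v ∈ G)).card = Nat.card G := by
      rw [Nat.card_eq_fintype_card, Fintype.card_subtype]
    rw [← h4]
    apply Finset.card_lt_card
    rw [Finset.ssubset_iff_subset_ne]
    refine ⟨h3, fun h5 => ?_⟩
    apply h.lt.not_ge
    rw [← hA]
    intro g hg
    apply mem_Stab_of
    intro x hx
    have hxG := ((mem_inG _ _ _).1 hx).2
    rw [h5]
    simpa using G.add_mem hxG hg
  rw [hc, hG] at h2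
  rw [hc]
  apply Nat.mul_le_mul_left
  have := Nat.lt_of_mul_lt_mul_left h2
  omega

/-- (3') -/
theorem Term.bound3 {A : Data n} {N a e : ℕ} (ih : IH A N) {G : AddSubgroup (ZMod n)}
    {Z : Finset (ZMod n)} (h : Term A N G Z a e) (hA : Stab (inG G Z) = A.K) {r : ℕ}
    (hr : 1 ≤ r) (hD : A.K.index = G.index * (r + 1))
    (hG : Nat.card G = Nat.card A.K * (r + 1)) :
    (V A (G.index * r - 1 - e)).card ≤ Nat.card A.K * r := by
  have hE := h.e_lt
  have ha := h.ha
  have h1 : G.index * (r + 1) = G.index * r + G.index := Nat.mul_succ _ _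
  have h2 : G.index ≤ G.index * r := Nat.le_mul_of_pos_right _ hr
  have h3 := h.V_sub ih (G.index * r - 1 - e) (by omega) (by omega)
  exact (Finset.card_le_card h3).trans (h.inG_card hA hG)

/-- (A), the exit and the marker -/
theorem Term.A_mark {A : Data n} {N a e : ℕ} (ih : IH A N) {G : AddSubgroup (ZMod n)}
    {Z : Finset (ZMod n)} (h : Term A N G Z a e) (hA : Stab (inG G Z) = A.K) :
    ∃ (x k : ZMod n), x ∈ Z ∧ x ∈ G ∧ k ∈ A.K ∧ x + A.σ k ∉ Z ∧
      x.val + G.index ≤ A.K.index ∧ A.K.index ≤ a + x.val + 1 ∧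
      Mark A N (sh (-dl A) (pull A.σ (sh x Z))) (a + x.val + 1 - A.K.index + 1) ∧
      dl A ∈ sh (-dl A) (pull A.σ (sh x Z)) := by
  obtain ⟨r, hr1, hD, hG⟩ := h.dims
  have hμ := index_pos' G
  have hE := h.e_lt
  have ha := h.ha
  have hr2 : G.index ≤ G.index * r := Nat.le_mul_of_pos_right _ hr1
  have hr3 : G.index * (r + 1) = G.index * r + G.index := Nat.mul_succ _ _
  have hKtop : A.K ≠ ⊤ := by
    intro h1
    have := h.lt
    rw [h1] at this
    exact not_top_lt this
  obtain ⟨k, hk1, hk2⟩ := exists_sigma_exit A A.K le_rfl hKtop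
  have hkG : A.σ k ∈ G := by
    apply h.hV
    rw [mem_V]
    exact ⟨1, by omega, k, hk1, by simp⟩
  have hex : ∃ z ∈ inG G Z, z + A.σ k ∉ inG G Z := by
    by_contra hcon
    push Not at hcon
    apply hk2
    rw [← hA]
    exact mem_Stab_of _ _ hcon
  obtain ⟨z, hz1, hz2⟩ := hex
  obtain ⟨x, hx1, hx2, -⟩ := exists_small_rep A.K z
  have hxS : z - x ∈ Stab (inG G Z) := by rw [hA]; exact hx1
  have hx3 : x ∈ inG G Z := by
    have := (mem_Stab _ _).1 hxS x
    rw [add_sub_cancel] at this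
    exact this.1 hz1
  have hx4 : x + A.σ k ∉ inG G Z := by
    have := (mem_Stab _ _).1 hxS (x + A.σ k)
    rw [show x + A.σ k + (z - x) = z + A.σ k by ring] at this
    exact fun h => hz2 (this.2 h)
  rw [mem_inG] at hx3 hx4
  have hx5 : x + A.σ k ∉ Z := fun h1 => hx4 ⟨h1, G.add_mem hx3.2 hkG⟩
  have hx6 := val_add_index_le h.lt.le hx3.2 hx2
  obtain ⟨g1, g2, g3⟩ := side_brk ih h.pr hx3.1 hk1 hx5
  have g4 := mark_of_brk ih g1 (by rw [card_pull, card_sh]; exact h.card) g2 (by omega)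
  refine ⟨x, k, hx3.1, hx3.2, hk1, hx5, hx6, g3, g4.2, ?_⟩
  rw [mem_sh, add_neg_cancel, mem_pull, A.σ0, mem_sh, zero_add]
  exact hx3.1

/-- (A), `ε ≥ 1` -/
theorem Term.A_pos {A : Data n} {N a e : ℕ} (ih : IH A N) {G : AddSubgroup (ZMod n)}
    {Z : Finset (ZMod n)} (h : Term A N G Z a e) (hA : Stab (inG G Z) = A.K)
    (hN : Nat.card A.K ∣ N) (h3 : 3 ≤ Nat.card A.K) (he : 1 ≤ e) : False := by
  obtain ⟨r, hr1, hD, hG⟩ := h.dims
  obtain ⟨x, k, hx1, hx2, hk, hxk, hx3, hx4, hM, hdl⟩ := h.A_mark ih hA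
  have hE := h.e_lt
  have hμ := index_pos' G
  have ha := h.ha
  have hr2 : G.index ≤ G.index * r := Nat.le_mul_of_pos_right _ hr1
  have hr3 : G.index * (r + 1) = G.index * r + G.index := Nat.mul_succ _ _
  have hdl0 : dl A ≠ 0 := by
    intro h0
    have := (mul_dl_eq_zero A 1).1 (by simpa using h0)
    have := Nat.le_of_dvd (by omega) this
    omega
  set w := a + x.val + 1 - A.K.index + 1 with hw
  have hret : ∀ t ∈ sh (-dl A) (pull A.σ (sh x Z)), t ≠ 0 → Away A (A.K.index - w) t :=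
    fun t ht ht0 => hM.pr.ret ih hM.z0 hM.hu hM.pos ht ht0
  -- token `D`
  have hgr : ∀ j ≤ A.K.index - w, Nat.card A.K + 1 * j ≤ (V A j).card := by
    intro j hj
    have := grow A (A.K.index - w) {dl A} (by simpa using dl_mem A)
      (by simpa using hret _ hdl hdl0) j hj
    rwa [Finset.card_singleton] at this
  -- `r ≥ 2`
  have hb3 := h.bound3 ih hA hr1 hD hG
  have hr : 2 ≤ r := by
    by_contra h1
    have h2 : r = 1 := by omega
    subst h2
    have h4 := hgr (G.index * 1 - 1 - e) (by omega)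
    have h5 : Nat.card A.K * 1 = Nat.card A.K := mul_one _
    omega
  have hg1 := hgr (A.K.index - G.index - e) (by omega)
  have h1 := h.bound hD hG hg1
  rw [one_mul] at h1
  refine arithA (κ := Nat.card A.K) (μ := G.index) (r := r) (X := G.index * r - e)
    (ω := w) he (hE.2 he) hr (by omega) h1 (by omega) ?_
  intro hκ
  obtain ⟨U', a', i', g1, g2, g3, g4, g5, g6, g7, g8, g9⟩ := hM.stage ih hN (by omega) hκ
  have hg2 := grow_marker (A := A) (U := U') (w := A.K.index - a')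
    (fun t ht ht0 => g5.ret ih g6 g7 g1 ht ht0) (A.K.index - G.index - e) (by omega)
  have h2 := h.bound hD hG hg2
  refine le_trans (Nat.mul_le_mul_right _ ?_) h2
  have := card_inK_erase (A := A) g6
  omega

/-- (A), `ε = 0`: the data -/
structure TA (A : Data n) (N : ℕ) (G : AddSubgroup (ZMod n)) (r : ℕ) (U : Finset (ZMod n))
    (w : ℕ) : Prop where
  lt : A.K < G
  r1 : 1 ≤ r
  mu : 2 ≤ G.index
  hD : A.K.index = G.index * (r + 1)
  hG : Nat.card G = Nat.card A.K * (r + 1)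
  M : Mark A N U w
  w2 : w ≤ 2
  dl : dl A ∈ U
  str : ∀ k ∈ A.K, (k ∈ U ↔ A.σ (k - Don.dl A) ∈ A.K)
  b3 : (V A (G.index * r - 1)).card ≤ Nat.card A.K * r
  k3 : 3 ≤ Nat.card A.K
  dvd : Nat.card A.K ∣ N
  GN : Nat.card G ≤ N

theorem Term.toTA {A : Data n} {N a : ℕ} (ih : IH A N) {G : AddSubgroup (ZMod n)}
    {Z : Finset (ZMod n)} (h : Term A N G Z a 0) (hA : Stab (inG G Z) = A.K)
    (hN : Nat.card A.K ∣ N) (h3 : 3 ≤ Nat.card A.K) (hGN : Nat.card G ≤ N) :
    ∃ (r : ℕ) (U : Finset (ZMod n)) (w : ℕ), TA A N G r U w := by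
  obtain ⟨r, hr1, hD, hG⟩ := h.dims
  obtain ⟨x, k, hx1, hx2, hk, hxk, hx3, hx4, hM, hdl⟩ := h.A_mark ih hA
  have hE := h.e_lt
  have hμ := index_pos' G
  have ha := h.ha
  have hr2 : G.index ≤ G.index * r := Nat.le_mul_of_pos_right _ hr1
  have hr3 : G.index * (r + 1) = G.index * r + G.index := Nat.mul_succ _ _
  -- every exit is at `D - μ`
  have hpos : ∀ y ∈ Z, y ∈ G → y.val + G.index ≤ A.K.index → ∀ k' ∈ A.K,
      y + A.σ k' ∉ Z → y.val + G.index = A.K.index := by
    intro y hy1 hy2 hy3 k' hk' hyk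
    obtain ⟨-, -, g3⟩ := side_brk ih h.pr hy1 hk' hyk
    rw [mem_iff_dvd] at hy2
    obtain ⟨c, hc⟩ := hy2
    have h4 : c = r := by
      have h5 : c ≤ r := by
        by_contra h6
        push Not at h6
        have h7 : G.index * (r + 1) ≤ G.index * c := Nat.mul_le_mul_left _ h6
        omega
      by_contra h6
      have h7 : c + 1 ≤ r := by omega
      have h8 : G.index * (c + 1) ≤ G.index * r := Nat.mul_le_mul_left _ h7
      rw [Nat.mul_succ] at h8
      omega
    rw [h4] at hc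
    omega
  have hxv := hpos x hx1 hx2 hx3 k hk hxk
  refine ⟨r, _, _, ⟨h.lt, hr1, by omega, hD, hG, hM, by omega, hdl, ?_, ?_, h3, hN, hGN⟩⟩
  · intro j hj
    rw [mem_sh, mem_pull, mem_sh, ← sub_eq_add_neg]
    have hj' : j - Don.dl A ∈ A.K := A.K.sub_mem hj (dl_mem A)
    constructor
    · intro h1
      by_contra hcon
      apply hcon
      rw [← hA]
      apply mem_Stab_of
      intro z hz
      have hσG : A.σ (j - Don.dl A) ∈ G := by
        apply h.hV
        rw [mem_V]
        exact ⟨1, by omega, _, hj', by simp⟩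
      obtain ⟨y, hy1, hy2, -⟩ := exists_small_rep A.K z
      have hyS : z - y ∈ Stab (inG G Z) := by rw [hA]; exact hy1
      have hy3 : y ∈ inG G Z := by
        have := (mem_Stab _ _).1 hyS y
        rw [add_sub_cancel] at this
        exact this.1 hz
      have hy4 := (mem_inG _ _ _).1 hy3
      have hy5 := val_add_index_le h.lt.le hy4.2 hy2
      have hy6 : y + A.σ (j - Don.dl A) ∈ Z := by
        by_contra h7
        have h8 := hpos y hy4.1 hy4.2 hy5 _ hj' h7
        have h9 : y.val = x.val := by omega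
        have h10 : y = x := ZMod.val_injective n h9
        rw [h10] at h7
        apply h7
        rw [add_comm]
        exact h1
      have hy7 : y + A.σ (j - Don.dl A) ∈ inG G Z :=
        (mem_inG _ _ _).2 ⟨hy6, G.add_mem hy4.2 hσG⟩
      have := (mem_Stab _ _).1 hyS (y + A.σ (j - Don.dl A))
      rw [show y + A.σ (j - Don.dl A) + (z - y) = z + A.σ (j - Don.dl A) by ring] at this
      exact this.2 hy7
    · intro h1
      have h2 : A.σ (j - Don.dl A) ∈ Stab (inG G Z) := by rw [hA]; exact h1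
      have h4 := ((mem_Stab _ _).1 h2 x).2 ((mem_inG _ _ _).2 ⟨hx1, hx2⟩)
      rw [add_comm]
      exact ((mem_inG _ _ _).1 h4).1
  · have := h.bound3 ih hA hr1 hD hG
    simpa using this

end Pool.Agent.Helper4.Don
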