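import Pool.Agent.Helper4.DonTermC

set_option autoImplicit false
set_option linter.unusedSectionVars false

/-!
MP_cc0723_lc: contradictions in the terminal situation (A), `ε = 0`, except `|K| = 4`.
-/

namespace Pool.Agent.Helper4.Don

variable {n : ℕ} [NeZero n]

theorem mul_dl_inj (A : Data n) {i j : ℕ} (hi : i < Nat.card A.K) (hj : j < Nat.card A.K)
    (h : (i : ZMod n) * dl A = (j : ZMod n) * dl A) : i = j := by
  rcases Nat.le_total i j with h1 | h1
  · have h2 : ((j - i : ℕ) : ZMod n) * dl A = 0 := by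
      rw [Nat.cast_sub h1, sub_mul, h, sub_self]
    have h3 := (mul_dl_eq_zero A _).1 h2
    rcases Nat.eq_zero_or_pos (j - i) with h4 | h4
    · omega
    · have := Nat.le_of_dvd h4 h3
      omega
  · have h2 : ((i - j : ℕ) : ZMod n) * dl A = 0 := by
      rw [Nat.cast_sub h1, sub_mul, h, sub_self]
    have h3 := (mul_dl_eq_zero A _).1 h2
    rcases Nat.eq_zero_or_pos (i - j) with h4 | h4
    · omega
    · have := Nat.le_of_dvd h4 h3
      omega

theorem card_mul_dl (A : Data n) : (Nat.card A.K : ZMod n) * dl A = 0 :=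
  (mul_dl_eq_zero A _).2 (dvd_refl _)

theorem TA.nums {A : Data n} {N r w : ℕ} {G : AddSubgroup (ZMod n)} {U : Finset (ZMod n)}
    (h : TA A N G r U w) : G.index ≤ G.index * r ∧ A.K.index = G.index * r + G.index ∧
      w + 2 ≤ A.K.index ∧ 1 ≤ w := by
  have h1 := h.r1
  have h2 := h.mu
  have h3 := h.hD
  have h4 : G.index ≤ G.index * r := Nat.le_mul_of_pos_right _ h1
  rw [Nat.mul_succ] at h3
  have := h.w2
  have := h.M.pos
  exact ⟨h4, h3, by omega, by omega⟩

theorem TA.ret {A : Data n} {N r w : ℕ} (ih : IH A N) {G : AddSubgroup (ZMod n)}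
    {U : Finset (ZMod n)} (h : TA A N G r U w) :
    ∀ t ∈ U, t ≠ 0 → Away A (A.K.index - w) t :=
  fun _ ht ht0 => h.M.pr.ret ih h.M.z0 h.M.hu h.M.pos ht ht0

theorem TA.dl0 {A : Data n} {N r w : ℕ} {G : AddSubgroup (ZMod n)} {U : Finset (ZMod n)}
    (h : TA A N G r U w) : Don.dl A ≠ 0 := by
  intro h0
  have h1 := (mul_dl_eq_zero A 1).1 (by simpa using h0)
  have h2 := Nat.le_of_dvd (by omega) h1
  have := h.k3
  omega

/-- `u 0 + D ∈ U` -/
theorem TA.u_add {A : Data n} {N r w : ℕ} {G : AddSubgroup (ZMod n)} {U : Finset (ZMod n)}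
    (h : TA A N G r U w) (i : ℕ) : A.u i + Don.dl A ∈ U := by
  rw [h.str _ (A.K.add_mem (A.u_mem_K i) (dl_mem A)), add_sub_cancel_right]
  have : A.σ (A.u i) = A.u (i + 1) := by
    unfold Data.u
    rw [pow_succ', Equiv.Perm.mul_apply]
  rw [this]
  exact A.u_mem_K _

/-- the size argument -/
theorem TA.size {A : Data n} {N r w : ℕ} (ih : IH A N) {G : AddSubgroup (ZMod n)}
    {U : Finset (ZMod n)} (h : TA A N G r U w) (hfull : ∀ s : ℕ, (A.σ ^ s) (-Don.dl A) ∈ A.K) :
    N + (V A (2 * A.K.index - w - 1)).card ≤ n + 1 := by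
  have h1 := h.nums
  have h2 : ∀ t ∈ U, t ≠ 0 → Away A (2 * A.K.index - w - 1 + 1) t := by
    intro t ht ht0
    have e : 2 * A.K.index - w - 1 + 1 = 2 * A.K.index - w := by omega
    rw [e]
    exact h.M.pr.gap' ih h.M.z0 h.M.hu h.M.pos (by omega) hfull ht ht0
  have h3 := size_bound h.M.z0 h2
  rw [h.M.card] at h3
  exact h3

/-- `|K| = 3` -/
theorem TA.three {A : Data n} {N r w : ℕ} (ih : IH A N) {G : AddSubgroup (ZMod n)}
    {U : Finset (ZMod n)} (h : TA A N G r U w) (hκ : Nat.card A.K = 3) : False := by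
  have hn := h.nums
  have hw2 := h.w2
  have hdl0 := h.dl0
  -- `u 0 = -D`
  have hu : -Don.dl A = A.u 0 := by
    obtain ⟨i, hi, hi2⟩ := exists_mul_dl A (A.u_mem_K 0)
    rw [hκ] at hi
    have h3 := card_mul_dl A
    rw [hκ] at h3
    have h4 : i = 0 ∨ i = 1 ∨ i = 2 := by omega
    rcases h4 with rfl | rfl | rfl
    · exact absurd (by rw [hi2]; simp) (A.u_ne_zero 0)
    · exfalso
      apply h.M.hu
      rw [hi2]
      simpa using h.dl
    · rw [hi2]
      push_cast at h3 ⊢
      linear_combination -h3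
  have hfull := full_of_eq A hu
  have hgap : Away A (2 * A.K.index - w) (Don.dl A) :=
    h.M.pr.gap' ih h.M.z0 h.M.hu h.M.pos (by omega) hfull h.dl hdl0
  have hgr : ∀ j ≤ 2 * A.K.index - w, 3 + 1 * j ≤ (V A j).card := by
    intro j hj
    have := grow A (2 * A.K.index - w) {Don.dl A} (by simpa using dl_mem A)
      (by simpa using hgap) j hj
    rwa [Finset.card_singleton, hκ] at this
  have h1 := h.size ih hfull
  have h2 := hgr (2 * A.K.index - w - 1) (by omega)
  have h3 := hgr (G.index * r - 1) (by omega)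
  have h4 := h.b3
  rw [hκ] at h4
  have h5 := card_mul_index' A.K
  rw [hκ] at h5
  have h6 := h.hG
  have h7 := h.GN
  rw [hκ] at h6
  have hr1 := h.r1
  have hmu := h.mu
  -- `μ = 2`
  have h8 : G.index = 2 := by
    by_contra h9
    have h10 : 3 * r ≤ G.index * r := Nat.mul_le_mul_right _ (by omega)
    omega
  rw [h8] at hn
  omega

/-- the arithmetic contradiction when `2 τ ≥ κ` -/
theorem arith3 {κ μ r τ : ℕ} (hμ : 2 ≤ μ) (hr : 1 ≤ r) (hκ : 1 ≤ κ) (hτ : κ ≤ 2 * τ)
    (h : κ + τ * (μ * r - 1) ≤ κ * r) : False := by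
  obtain ⟨s, rfl⟩ : ∃ s, r = s + 1 := ⟨r - 1, by omega⟩
  have h1 : 2 * (s + 1) ≤ μ * (s + 1) := Nat.mul_le_mul_right _ hμ
  have h2 : 2 * s + 1 ≤ μ * (s + 1) - 1 := by omega
  have h3 : τ * (2 * s + 1) ≤ τ * (μ * (s + 1) - 1) := Nat.mul_le_mul_left _ h2
  have h4 : κ * (2 * s + 1) ≤ 2 * τ * (2 * s + 1) := Nat.mul_le_mul_right _ hτ
  nlinarith

/-- stage data for `|K| ≥ 4` -/
theorem TA.stage {A : Data n} {N r w : ℕ} (ih : IH A N) {G : AddSubgroup (ZMod n)}
    {U : Finset (ZMod n)} (h : TA A N G r U w) (hκ : 4 ≤ Nat.card A.K) :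
    w = 2 ∧ (Nat.card A.K = 4 ∨ Nat.card A.K = 5) ∧
    ∃ U' : Finset (ZMod n), Pr A N U' (n - 1 + 1) ∧ (0 : ZMod n) ∈ U' ∧ A.u 0 ∉ U' ∧
      (∀ x ∈ A.K, x ∈ U' → x + A.u 0 ∉ U' → x = 0) ∧
      (inK A U').card + 2 = Nat.card A.K := by
  have hn := h.nums
  have hw2 := h.w2
  obtain ⟨U', a', i', g1, g2, g3, g4, g5, g6, g7, g8, g9⟩ :=
    h.M.stage ih h.dvd (by omega) (by omega)
  have hcK := card_inK_erase (A := A) g6
  have hgr := grow_marker (A := A) (U := U') (w := A.K.index - a')
    (fun t ht ht0 => g5.ret ih g6 g7 g1 ht ht0) (G.index * r - 1) (by have := h.mu; omega)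
  have hb := h.b3
  have hnot : ¬ Nat.card A.K ≤ 2 * ((inK A U').erase 0).card := fun h1 =>
    arith3 h.mu h.r1 (by omega) h1 (hgr.trans hb)
  have hi : i' = 2 := by omega
  have ha : a' = 1 := by omega
  subst hi ha
  exact ⟨by omega, by omega, U', g5, g6, g7, g8, g9⟩

/-- `|K| = 5` -/
theorem TA.five {A : Data n} {N r w : ℕ} (ih : IH A N) {G : AddSubgroup (ZMod n)}
    {U : Finset (ZMod n)} (h : TA A N G r U w) (hκ : Nat.card A.K = 5) : False := by
  classical
  have hn := h.nums
  have hmu := h.mu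
  have hr1 := h.r1
  obtain ⟨hw, -, U', g5, g6, g7, g8, g9⟩ := h.stage ih (by omega)
  subst hw
  have hdl0 := h.dl0
  have hcK := card_inK_erase (A := A) g6
  have hret' : ∀ t ∈ U', t ≠ 0 → Away A (A.K.index - 1) t :=
    fun t ht ht0 => g5.ret ih g6 g7 (le_refl _) ht ht0
  have hT2 : ((inK A U').erase 0).card = 2 := by omega
  -- `T1 ⊆ T3`
  have hsub : (inK A U).erase 0 ⊆ (inK A U').erase 0 := by
    by_contra hcon
    have h1 : (inK A U').erase 0 ⊂ (inK A U).erase 0 ∪ (inK A U').erase 0 := by
      rw [Finset.ssubset_iff_subset_ne]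
      refine ⟨Finset.subset_union_right, fun h2 => hcon ?_⟩
      rw [h2]
      exact Finset.subset_union_left
    have h2 := Finset.card_lt_card h1
    have h3 := grow A (A.K.index - 2) ((inK A U).erase 0 ∪ (inK A U').erase 0)
      (by
        intro t ht
        rw [Finset.mem_union, Finset.mem_erase, Finset.mem_erase, mem_inK, mem_inK] at ht
        rcases ht with ht | ht
        · exact ht.2.2
        · exact ht.2.2)
      (by
        intro t ht
        rw [Finset.mem_union, Finset.mem_erase, Finset.mem_erase, mem_inK, mem_inK] at ht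
        rcases ht with ht | ht
        · exact h.ret ih t ht.2.1 ht.1
        · exact (hret' t ht.2.1 ht.1).mono (by omega)) (G.index * r - 1) (by omega)
    exact arith3 hmu hr1 (by omega) (by omega) (h3.trans h.b3)
  -- elements of `K`
  have h50 := card_mul_dl A
  rw [hκ] at h50
  push_cast at h50
  obtain ⟨c, hc, hcu⟩ := exists_mul_dl A (A.u_mem_K 0)
  rw [hκ] at hc
  have hU'K : ∀ t, t ∈ (inK A U').erase 0 ↔ t ≠ 0 ∧ t ∈ U' ∧ t ∈ A.K := by
    intro t
    rw [Finset.mem_erase, mem_inK]
  have hdlT : Don.dl A ∈ (inK A U').erase 0 := by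
    apply hsub
    rw [Finset.mem_erase, mem_inK]
    exact ⟨hdl0, h.dl, dl_mem A⟩
  -- chain of `u`-translates
  have hchain : ∀ t, t ∈ (inK A U').erase 0 → t + A.u 0 ∈ inK A U' := by
    intro t ht
    rw [hU'K] at ht
    rw [mem_inK]
    refine ⟨?_, A.K.add_mem ht.2.2 (A.u_mem_K 0)⟩
    by_contra h1
    exact ht.1 (g8 t ht.2.2 ht.2.1 h1)
  -- full orbit of `-D`
  have hfull : ∀ s : ℕ, (A.σ ^ s) (-Don.dl A) ∈ A.K := by
    -- `D = -u` or `D = -2u`
    have key : Don.dl A + A.u 0 = 0 ∨ Don.dl A + 2 * A.u 0 = 0 := by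
      by_contra hcon
      push Not at hcon
      have t1 : Don.dl A + A.u 0 ∈ (inK A U').erase 0 := by
        rw [Finset.mem_erase]
        exact ⟨hcon.1, hchain _ hdlT⟩
      have t2 : Don.dl A + 2 * A.u 0 ∈ (inK A U').erase 0 := by
        rw [Finset.mem_erase]
        refine ⟨hcon.2, ?_⟩
        have := hchain _ t1
        rwa [show Don.dl A + A.u 0 + A.u 0 = Don.dl A + 2 * A.u 0 by ring] at this
      have hu0 := A.u_ne_zero 0
      have h2u : (2 : ZMod n) * A.u 0 ≠ 0 := by
        intro h1
        rw [hcu] at h1 hu0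
        have h2 : ((2 * c : ℕ) : ZMod n) * Don.dl A = 0 := by
          push_cast
          linear_combination h1
        have h3 := (mul_dl_eq_zero A _).1 h2
        rw [hκ] at h3
        have h4 : c ≠ 0 := by
          rintro rfl
          simp at hu0
        omega
      have hsub3 : ({Don.dl A, Don.dl A + A.u 0, Don.dl A + 2 * A.u 0} : Finset (ZMod n)) ⊆
          (inK A U').erase 0 := by
        intro t ht
        simp only [Finset.mem_insert, Finset.mem_singleton] at ht
        rcases ht with rfl | rfl | rfl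
        · exact hdlT
        · exact t1
        · exact t2
      have hcard := Finset.card_le_card hsub3
      rw [Finset.card_insert_of_notMem, Finset.card_insert_of_notMem,
        Finset.card_singleton] at hcard
      · omega
      · rw [Finset.mem_singleton]
        intro h1
        apply hu0
        linear_combination -h1
      · rw [Finset.mem_insert, Finset.mem_singleton]
        rintro (h1 | h1)
        · apply hu0
          linear_combination -h1
        · apply h2u
          linear_combination -h1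
    rcases key with h1 | h1
    · exact full_of_eq A (by linear_combination -h1)
    · -- `D = -2u`, so `u = 2D`
      have hc2 : c = 2 := by
        have h2 : ((2 * c + 1 : ℕ) : ZMod n) * Don.dl A = 0 := by
          rw [hcu] at h1
          push_cast
          linear_combination h1
        have h3 := (mul_dl_eq_zero A _).1 h2
        rw [hκ] at h3
        omega
      subst hc2
      push_cast at hcu
      have h3T : 3 * Don.dl A ∈ (inK A U').erase 0 := by
        rw [Finset.mem_erase]
        constructor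
        · intro h2
          have h3 := (mul_dl_eq_zero A 3).1 (by push_cast; exact h2)
          rw [hκ] at h3
          omega
        · have := hchain _ hdlT
          rw [hcu] at this
          rwa [show Don.dl A + 2 * Don.dl A = 3 * Don.dl A by ring] at this
      have hv1 : A.σ (-Don.dl A) ∈ A.K := by
        have := (h.str 0 A.K.zero_mem).1 h.M.z0
        rwa [zero_sub] at this
      have hnT : ∀ t ∈ (inK A U').erase 0, A.σ (-Don.dl A) ≠ t := by
        intro t ht he
        rw [hU'K] at ht
        exact hret' t ht.2.1 ht.1 1 (le_refl _) (by omega) _ (A.K.neg_mem (dl_mem A))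
          (by rw [pow_one]; exact he)
      obtain ⟨i, hi, hi2⟩ := exists_mul_dl A hv1
      rw [hκ] at hi
      have hi0 : i ≠ 0 := by
        rintro rfl
        rw [Nat.cast_zero, zero_mul] at hi2
        apply hdl0
        have h4 : -Don.dl A = 0 := by
          apply A.σ.injective
          rw [hi2, A.σ0]
        exact neg_eq_zero.1 h4
      have hi1 : i ≠ 1 := by
        rintro rfl
        exact hnT _ hdlT (by rw [hi2]; simp)
      have hi3 : i ≠ 3 := by
        rintro rfl
        exact hnT _ h3T (by rw [hi2]; push_cast; rfl)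
      have hcase : i = 2 ∨ i = 4 := by omega
      rcases hcase with rfl | rfl
      · -- `σ(-D) = u 0`
        have h4 : A.σ (-Don.dl A) = A.u 0 := by
          rw [hi2, hcu]
          push_cast
          rfl
        intro s
        rcases Nat.eq_zero_or_pos s with rfl | hs
        · simpa using dl_mem A
        · obtain ⟨m, rfl⟩ : ∃ m, s = m + 1 := ⟨s - 1, by omega⟩
          rw [pow_succ, Equiv.Perm.mul_apply, h4, ← A.u_add]
          exact A.u_mem_K _
      · have h4 : A.σ (-Don.dl A) = -Don.dl A := by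
          rw [hi2]
          push_cast
          linear_combination h50
        intro s
        have h5 : (A.σ ^ s) (-Don.dl A) = -Don.dl A := by
          induction s with
          | zero => simp
          | succ s ihs => rw [pow_succ, Equiv.Perm.mul_apply, h4, ihs]
        rw [h5]
        exact A.K.neg_mem (dl_mem A)
  have h1 := h.size ih hfull
  have hgap' : ∀ t ∈ U', t ≠ 0 → Away A (2 * A.K.index - 1) t :=
    fun t ht ht0 => g5.gap' ih g6 g7 (le_refl _) (by omega) hfull ht ht0
  have h2 := grow_marker hgap' (2 * A.K.index - 2 - 1) (by omega)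
  rw [hT2, hκ] at h2
  have h3 := grow_marker hret' (G.index * r - 1) (by omega)
  rw [hT2, hκ] at h3
  have h4 := h.b3
  rw [hκ] at h4
  have h5 := card_mul_index' A.K
  rw [hκ] at h5
  have h6 := h.hG
  have h7 := h.GN
  rw [hκ] at h6
  -- `μ = 2`
  have h8 : G.index = 2 := by
    by_contra h9
    have h10 : 3 * r ≤ G.index * r := Nat.mul_le_mul_right _ (by omega)
    omega
  rw [h8] at hn
  omega

end Pool.Agent.Helper4.Don
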