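import Pool.Agent.Helper4.DonTermD

set_option autoImplicit false
set_option linter.unusedSectionVars false

/-!
MP_cc0723_lc: contradiction in the terminal situation (A), `ε = 0`, `|K| = 4`.
-/

namespace Pool.Agent.Helper4.Don

variable {n : ℕ} [NeZero n]

/-- `|K| = 4` -/
theorem TA.four {A : Data n} {r w : ℕ} {G : AddSubgroup (ZMod n)} {Y U : Finset (ZMod n)}
    (ih : IH A Y.card) (h : TA A Y.card G r U w) (hκ : Nat.card A.K = 4)
    (hY : Pr A Y.card Y 0) (hGH : G ≤ Stab Y) (hH : Stab Y ≠ ⊤) : False := by
  classical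
  have hn := h.nums
  have hmu := h.mu
  have hr1 := h.r1
  obtain ⟨hw, -, -⟩ := h.stage ih (by omega)
  subst hw
  have hdl0 := h.dl0
  have hret := h.ret ih
  have h40 := card_mul_dl A
  rw [hκ] at h40
  push_cast at h40
  have hne : ∀ i : ℕ, i % 4 ≠ 0 → (i : ZMod n) * Don.dl A ≠ 0 := by
    intro i hi h1
    have := (mul_dl_eq_zero A i).1 h1
    rw [hκ] at this
    omega
  have h2d : (2 : ZMod n) * Don.dl A ≠ 0 := by
    have := hne 2 (by norm_num)
    simpa using this
  have h3d : (3 : ZMod n) * Don.dl A ≠ 0 := by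
    have := hne 3 (by norm_num)
    simpa using this
  -- elements of `K`
  have hel : ∀ k ∈ A.K, k = 0 ∨ k = Don.dl A ∨ k = 2 * Don.dl A ∨ k = -Don.dl A := by
    intro k hk
    obtain ⟨i, hi, rfl⟩ := exists_mul_dl A hk
    rw [hκ] at hi
    have h1 : i = 0 ∨ i = 1 ∨ i = 2 ∨ i = 3 := by omega
    rcases h1 with rfl | rfl | rfl | rfl
    · left; simp
    · right; left; simp
    · right; right; left; push_cast; rfl
    · right; right; right
      push_cast
      linear_combination h40
  -- `|U ∩ K| ≤ 2`
  have hcK := card_inK_erase (A := A) h.M.z0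
  have hUK2 : (inK A U).card ≤ 2 := by
    have hdis : Disjoint ((inK A U).image (fun k => A.σ (k - Don.dl A))) ((inK A U).erase 0) := by
      rw [Finset.disjoint_left]
      intro y hy hy2
      rw [Finset.mem_image] at hy
      obtain ⟨k, hk, rfl⟩ := hy
      rw [mem_inK] at hk
      rw [Finset.mem_erase, mem_inK] at hy2
      exact hret _ hy2.2.1 hy2.1 1 (le_refl _) (by omega) (k - Don.dl A)
        (A.K.sub_mem hk.2 (dl_mem A)) (by rw [pow_one])
    have hsub : ((inK A U).image (fun k => A.σ (k - Don.dl A))) ∪ ((inK A U).erase 0) ⊆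
        Finset.univ.filter (fun y => y ∈ A.K) := by
      intro y hy
      simp only [Finset.mem_filter, Finset.mem_univ, true_and]
      rw [Finset.mem_union, Finset.mem_image, Finset.mem_erase, mem_inK] at hy
      rcases hy with ⟨k, hk, rfl⟩ | hy
      · rw [mem_inK] at hk
        exact (h.str k hk.2).1 hk.1
      · exact hy.2.2
    have h1 := Finset.card_le_card hsub
    rw [Finset.card_union_of_disjoint hdis, card_filter_K, hκ,
      Finset.card_image_of_injective] at h1
    · omega
    · intro a b hab
      have := A.σ.injective hab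
      exact sub_left_injective this
  have hUK : ∀ k, k ∈ inK A U → k = 0 ∨ k = Don.dl A := by
    intro k hk
    by_contra hcon
    push Not at hcon
    have hsub3 : ({0, Don.dl A, k} : Finset (ZMod n)) ⊆ inK A U := by
      intro t ht
      simp only [Finset.mem_insert, Finset.mem_singleton] at ht
      rcases ht with rfl | rfl | rfl
      · exact (mem_inK _ _ _).2 ⟨h.M.z0, A.K.zero_mem⟩
      · exact (mem_inK _ _ _).2 ⟨h.dl, dl_mem A⟩
      · exact hk
    have hcard := Finset.card_le_card hsub3
    rw [Finset.card_insert_of_notMem, Finset.card_insert_of_notMem,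
      Finset.card_singleton] at hcard
    · omega
    · rw [Finset.mem_singleton]
      exact fun h1 => hcon.2 h1.symm
    · rw [Finset.mem_insert, Finset.mem_singleton]
      rintro (h1 | h1)
      · exact hdl0 h1.symm
      · exact hcon.1 h1.symm
  -- all `u i = -D`
  have hui : ∀ i, A.u i = -Don.dl A := by
    intro i
    rcases hUK _ ((mem_inK _ _ _).2 ⟨h.u_add i, A.K.add_mem (A.u_mem_K i) (dl_mem A)⟩) with
      h1 | h1
    · linear_combination h1
    · exfalso
      apply A.u_ne_zero i
      linear_combination h1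
  have hfix : A.σ (-Don.dl A) = -Don.dl A := by
    have h1 : A.σ (A.u 0) = A.u 1 := by
      unfold Data.u
      simp
    rw [hui 0, hui 1] at h1
    exact h1
  have hfixs : ∀ s : ℕ, (A.σ ^ s) (-Don.dl A) = -Don.dl A := by
    intro s
    induction s with
    | zero => simp
    | succ s ihs => rw [pow_succ, Equiv.Perm.mul_apply, hfix, ihs]
  have hfull : ∀ s : ℕ, (A.σ ^ s) (-Don.dl A) ∈ A.K := by
    intro s
    rw [hfixs s]
    exact A.K.neg_mem (dl_mem A)
  have hgap : Away A (2 * A.K.index - 2) (Don.dl A) :=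
    h.M.pr.gap' ih h.M.z0 h.M.hu h.M.pos (by omega) hfull h.dl hdl0
  -- `2D` is at least not the image of an element of `K`
  have haw1 : Away A 1 (2 * Don.dl A) := by
    intro s hs1 hs2 k hk he
    have : s = 1 := by omega
    subst this
    rw [pow_one] at he
    have h1 : A.σ k ∈ A.K := by
      rw [he]
      have := mul_dl_mem A 2
      simpa using this
    have h2 : k + Don.dl A ∈ U := by
      rw [h.str _ (A.K.add_mem hk (dl_mem A)), add_sub_cancel_right]
      exact h1
    rcases hUK _ ((mem_inK _ _ _).2 ⟨h2, A.K.add_mem hk (dl_mem A)⟩) with h3 | h3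
    · have h4 : k = -Don.dl A := by linear_combination h3
      rw [h4, hfix] at he
      apply h3d
      linear_combination -he
    · have h4 : k = 0 := by linear_combination h3
      rw [h4, A.σ0] at he
      exact h2d he.symm
  -- growth
  have hgr1 : 6 ≤ (V A 1).card := by
    have h1 := grow A 1 {Don.dl A, 2 * Don.dl A}
      (by
        intro t ht
        simp only [Finset.mem_insert, Finset.mem_singleton] at ht
        rcases ht with rfl | rfl
        · exact dl_mem A
        · have := mul_dl_mem A 2
          simpa using this)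
      (by
        intro t ht
        simp only [Finset.mem_insert, Finset.mem_singleton] at ht
        rcases ht with rfl | rfl
        · exact hgap.mono (by omega)
        · exact haw1) 1 (le_refl _)
    rw [Finset.card_insert_of_notMem, Finset.card_singleton, hκ] at h1
    · omega
    · rw [Finset.mem_singleton]
      intro h2
      apply hdl0
      linear_combination -h2
  have hgr : ∀ j, 1 ≤ j → j ≤ 2 * A.K.index - 2 → 5 + j ≤ (V A j).card := by
    intro j
    induction j with
    | zero => intro h1; omega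
    | succ j ihj =>
      intro _ hj
      rcases Nat.eq_zero_or_pos j with rfl | hj1
      · exact hgr1
      · have h1 := ihj hj1 (by omega)
        have h2 := grow_step A j {Don.dl A} (by simpa using dl_mem A)
          (by simpa using hgap.mono hj)
        rw [Finset.card_singleton] at h2
        omega
  have hb3 := h.b3
  rw [hκ] at hb3
  have hg3 := hgr (G.index * r - 1) (by omega) (by omega)
  -- `μ ≤ 3`
  have hmu3 : G.index ≤ 3 := by
    by_contra h9
    have h10 : 4 * r ≤ G.index * r := Nat.mul_le_mul_right _ (by omega)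
    omega
  -- `H`
  set H := Stab Y with hHdef
  have hKH : A.K ≤ H := h.lt.le.trans hGH
  have hl2 : 2 ≤ H.index := by
    have h1 := index_pos' H
    have h2 : H.index ≠ 1 := fun h2 => hH (AddSubgroup.index_eq_one.1 h2)
    omega
  have hl3 : H.index ≤ G.index :=
    Nat.le_of_dvd (by omega) ((le_iff_index_dvd _ _).1 hGH)
  have hHn := card_mul_index' H
  have hKn := card_mul_index' A.K
  rw [hκ] at hKn
  have hHc : 2 * Nat.card H ≤ 4 * A.K.index := by
    have : Nat.card H * 2 ≤ Nat.card H * H.index := Nat.mul_le_mul_left _ hl2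
    omega
  -- `2D` returns quickly
  have hshort : ∃ m : ℕ, 1 ≤ m ∧ m ≤ G.index * r - 1 ∧
      ((A.σ ^ m) (Don.dl A) = 2 * Don.dl A ∨ (A.σ ^ m) (2 * Don.dl A) = 2 * Don.dl A) := by
    by_contra hcon
    push Not at hcon
    have haw : Away A (G.index * r - 1) (2 * Don.dl A) := by
      intro s hs1 hs2 k hk he
      have h1 := hcon s hs1 hs2
      rcases hel k hk with rfl | rfl | rfl | rfl
      · rw [A.pow_zero'] at he
        exact h2d he.symm
      · exact h1.1 he
      · exact h1.2 he
      · rw [hfixs] at he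
        apply h3d
        linear_combination -he
    have h1 := grow A (G.index * r - 1) {Don.dl A, 2 * Don.dl A}
      (by
        intro t ht
        simp only [Finset.mem_insert, Finset.mem_singleton] at ht
        rcases ht with rfl | rfl
        · exact dl_mem A
        · have := mul_dl_mem A 2
          simpa using this)
      (by
        intro t ht
        simp only [Finset.mem_insert, Finset.mem_singleton] at ht
        rcases ht with rfl | rfl
        · exact hgap.mono (by omega)
        · exact haw) (G.index * r - 1) (le_refl _)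
    rw [Finset.card_insert_of_notMem, Finset.card_singleton, hκ] at h1
    · have h2 : 2 * r ≤ G.index * r := Nat.mul_le_mul_right _ hmu
      omega
    · rw [Finset.mem_singleton]
      intro h2
      apply hdl0
      linear_combination -h2
  obtain ⟨m, hm1, hm2, hm⟩ := hshort
  -- first time `σ^i K ⊄ H`
  have hex : ∃ i, ∃ k ∈ A.K, (A.σ ^ i) k ∉ H := by
    by_contra hcon
    push Not at hcon
    have h1 : ∀ v ∈ V A (2 * A.K.index - 2), v ∈ H := by
      intro v hv
      rw [mem_V] at hv
      obtain ⟨i, -, k, hk, rfl⟩ := hv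
      exact hcon i k hk
    have h2 := card_le_of_sub A H _ h1
    have h3 := hgr (2 * A.K.index - 2) (by omega) (le_refl _)
    omega
  set i1 := Nat.find hex with hi1
  have hi1a := Nat.find_spec hex
  have hi1b : ∀ i, i < i1 → ∀ k ∈ A.K, (A.σ ^ i) k ∈ H := by
    intro i hi k hk
    by_contra hcon
    exact Nat.find_min hex hi ⟨k, hk, hcon⟩
  rw [← hi1] at hi1a
  -- lower bound for `i1` from (C1)
  have hlow : A.K.index < i1 + H.index := by
    by_contra hcon
    push Not at hcon
    obtain ⟨k, hk, hk2⟩ := hi1a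
    apply hk2
    rw [hHdef]
    apply mem_Stab_of
    intro z hz
    obtain ⟨y, hy1, hy2, -⟩ := exists_small_rep H z
    have hy3 : y ∈ Y := by
      have := (mem_Stab Y _).1 hy1 y
      rw [add_sub_cancel] at this
      exact this.1 hz
    have h1 := hY.c1 ih (x := y.val) (j := i1) (by rwa [ZMod.natCast_zmod_val])
      (by omega) (v := (A.σ ^ i1) k) ((mem_V _ _ _).2 ⟨i1, le_refl _, k, hk, rfl⟩)
    rw [ZMod.natCast_zmod_val] at h1
    have h2 := (mem_Stab Y _).1 hy1 (y + (A.σ ^ i1) k)
    rw [show y + (A.σ ^ i1) k + (z - y) = z + (A.σ ^ i1) k by ring] at h2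
    exact h2.2 h1
  -- upper bound
  have hup : 4 + i1 ≤ Nat.card H := by
    have h1 : ∀ v ∈ V A (min (i1 - 1) (2 * A.K.index - 2)), v ∈ H := by
      intro v hv
      rw [mem_V] at hv
      obtain ⟨i, hi, k, hk, rfl⟩ := hv
      exact hi1b i (by omega) k hk
    have h2 := card_le_of_sub A H _ h1
    have h3 := hgr (min (i1 - 1) (2 * A.K.index - 2)) (by omega) (by omega)
    omega
  have hmi : m < i1 := by omega
  -- the two candidates
  have hcand : (A.σ ^ i1) (Don.dl A) ∉ H ∨ (A.σ ^ i1) (2 * Don.dl A) ∉ H := by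
    obtain ⟨k, hk, hk2⟩ := hi1a
    rcases hel k hk with rfl | rfl | rfl | rfl
    · exact absurd (by rw [A.pow_zero']; exact H.zero_mem) hk2
    · exact Or.inl hk2
    · exact Or.inr hk2
    · exact absurd (by rw [hfixs]; exact H.neg_mem (hKH (dl_mem A))) hk2
  have h2dK : 2 * Don.dl A ∈ A.K := by
    have := mul_dl_mem A 2
    simpa using this
  have hsplit : ∀ k, (A.σ ^ i1) k = (A.σ ^ (i1 - m)) ((A.σ ^ m) k) := by
    intro k
    rw [← Equiv.Perm.mul_apply, ← pow_add, Nat.sub_add_cancel hmi.le]
  have hnboth : (A.σ ^ i1) (Don.dl A) ∈ H ∨ (A.σ ^ i1) (2 * Don.dl A) ∈ H := by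
    rcases hm with h1 | h1
    · left
      rw [hsplit, h1]
      exact hi1b _ (by omega) _ h2dK
    · right
      rw [hsplit, h1]
      exact hi1b _ (by omega) _ h2dK
  -- a representative
  have hrep : ∀ v : ZMod n, v ∉ H → ∃ y : ZMod n, y ∈ Y ∧ y + v ∉ Y ∧ y.val < H.index := by
    intro v hv
    have h1 : ∃ z ∈ Y, z + v ∉ Y := by
      by_contra hcon
      push Not at hcon
      exact hv (mem_Stab_of _ _ hcon)
    obtain ⟨z, hz1, hz2⟩ := h1
    obtain ⟨y, hy1, hy2, -⟩ := exists_small_rep H z
    refine ⟨y, ?_, ?_, hy2⟩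
    · have := (mem_Stab Y _).1 hy1 y
      rw [add_sub_cancel] at this
      exact this.1 hz1
    · intro h2
      have := (mem_Stab Y _).1 hy1 (y + v)
      rw [show y + v + (z - y) = z + v by ring] at this
      exact hz2 (this.2 h2)
  have hstate : ∀ y ∈ Y, Pr A Y.card (pull (A.σ ^ i1) (sh y Y)) (y.val + i1) := by
    intro y hy
    have h1 := hY.shift y.val
    rw [ZMod.natCast_zmod_val] at h1
    have h2 := h1.keep (by simpa using hy) i1
    rwa [zero_add] at h2
  by_cases hb1 : (A.σ ^ i1) (Don.dl A) ∈ H
  · -- (β2)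
    have hb2 : (A.σ ^ i1) (2 * Don.dl A) ∉ H := by
      rcases hcand with h1 | h1
      · exact absurd hb1 h1
      · exact h1
    obtain ⟨y, hy1, hy2, hy3⟩ := hrep _ hb2
    have hpr := hstate y hy1
    have hbrk : Brk A (pull (A.σ ^ i1) (sh y Y)) := by
      refine ⟨⟨0, A.K.zero_mem, ?_⟩, 2 * Don.dl A, h2dK, ?_⟩
      · rw [mem_pull, A.pow_zero', mem_sh, zero_add]
        exact hy1
      · rw [mem_pull, mem_sh, add_comm]
        exact hy2
    obtain ⟨h1, hM⟩ := mark_of_brk ih hpr (by rw [card_pull, card_sh]) hbrk (by omega)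
    have h2 : 2 * Don.dl A ∈ sh (-Don.dl A) (pull (A.σ ^ i1) (sh y Y)) := by
      rw [mem_sh, show 2 * Don.dl A + -Don.dl A = Don.dl A by ring, mem_pull, mem_sh, add_comm]
      exact ((mem_Stab Y _).1 hb1 y).2 hy1
    have h3 := hM.pr.gap' ih hM.z0 hM.hu hM.pos (by omega) hfull h2 h2d
    rcases hm with h4 | h4
    · exact h3 m hm1 (by omega) _ (dl_mem A) h4
    · exact h3 m hm1 (by omega) _ h2dK h4
  · -- (β1)
    have hb2 : (A.σ ^ i1) (2 * Don.dl A) ∈ H := by
      rcases hnboth with h1 | h1
      · exact absurd h1 hb1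
      · exact h1
    obtain ⟨y, hy1, hy2, hy3⟩ := hrep _ hb1
    have hpr := hstate y hy1
    have hdn : Don.dl A ∉ pull (A.σ ^ i1) (sh y Y) := by
      rw [mem_pull, mem_sh, add_comm]
      exact hy2
    have hbrk : Brk A (pull (A.σ ^ i1) (sh y Y)) := by
      refine ⟨⟨0, A.K.zero_mem, ?_⟩, Don.dl A, dl_mem A, hdn⟩
      rw [mem_pull, A.pow_zero', mem_sh, zero_add]
      exact hy1
    obtain ⟨-, -, h4⟩ := hpr.xu ih hbrk (by omega)
    have h5 := h4 (2 * Don.dl A) h2dK
      (by
        rw [mem_pull, mem_sh, add_comm]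
        exact ((mem_Stab Y _).1 hb2 y).2 hy1)
      (by
        rw [hui 0, show 2 * Don.dl A + -Don.dl A = Don.dl A by ring]
        exact hdn)
    apply h3d
    change 2 * Don.dl A = -Don.dl A at h5
    linear_combination h5

end Pool.Agent.Helper4.Don
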