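import Pool.Agent.Helper4.NuTwo

namespace Helper4.Nu

open Finset

theorem ns_six {j : ℕ} (h3 : j % 3 ≠ 0) : ∀ a b : ℤ, a ^ 2 + b ^ 2 ≠ ((2 * (3 * j) : ℕ) : ℤ) := by
  intro a b h
  have h9 : ((a : ZMod 9)) ^ 2 + (b : ZMod 9) ^ 2 = 6 * (j : ZMod 9) := by
    have := congrArg (fun z : ℤ => (z : ZMod 9)) h
    push_cast at this
    rw [this]
    ring
  have hj : (j : ZMod 9) = ((j % 9 : ℕ) : ZMod 9) := by
    rw [ZMod.natCast_mod]
  have hlt : j % 9 < 9 := Nat.mod_lt _ (by norm_num)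
  have h3' : (j % 9) % 3 ≠ 0 := by omega
  rw [hj] at h9
  have key : ∀ (a b : ZMod 9) (m : Fin 9), (m : ℕ) % 3 ≠ 0 →
      a ^ 2 + b ^ 2 ≠ 6 * ((m : ℕ) : ZMod 9) := by decide +kernel
  exact key (a : ZMod 9) (b : ZMod 9) ⟨j % 9, hlt⟩ h3' h9

theorem card_divisors_K (N : ℕ) (hns : ∀ d : ℕ, d * d ≠ N) :
    (Nat.divisors N).card = 2 * K N := by
  have h := card_split_lt (Nat.divisors N) (fun d => d) (fun d => N / d) (fun d => N / d)
    (by
      intro d hd
      rw [Nat.mem_divisors] at hd ⊢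
      exact ⟨Nat.div_dvd_of_dvd hd.1, hd.2⟩)
    (by
      intro d hd
      rw [Nat.mem_divisors] at hd
      exact Nat.div_div_self hd.1 hd.2)
    (by
      intro d hd
      rw [Nat.mem_divisors] at hd
      exact ⟨rfl, Nat.div_div_self hd.1 hd.2⟩)
  have h2 : ((Nat.divisors N).filter (fun d => d = N / d)).card = 0 := by
    rw [Finset.card_eq_zero, Finset.filter_eq_empty_iff]
    intro d hd h
    rw [Nat.mem_divisors] at hd
    apply hns d
    conv_lhs => rw [h]
    rw [← h]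
    exact Nat.div_mul_cancel hd.1 ▸ by rw [← h]
  rw [h2] at h
  unfold K
  omega

theorem K_three (j : ℕ) (h3 : j % 3 ≠ 0) : K (3 * j) = (Nat.divisors j).card := by
  have h := card_divisors_K (3 * j) (by
    intro d hd
    have h1 : 3 ∣ d * d := ⟨j, hd⟩
    have h2 : 3 ∣ d := by
      rcases (Nat.prime_three.dvd_mul).mp h1 with h | h <;> exact h
    obtain ⟨c, hc⟩ := h2
    subst hc
    have : 3 * c * c = j := by
      have : 3 * (3 * c * c) = 3 * j := by rw [← hd]; ring
      omega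
    apply h3
    rw [← this, mul_assoc]
    exact Nat.mul_mod_right 3 _)
  have hc : Nat.Coprime 3 j := by
    rw [Nat.prime_three.coprime_iff_not_dvd]
    omega
  rw [Nat.Coprime.card_divisors_mul hc] at h
  have : (Nat.divisors 3).card = 2 := by decide
  rw [this] at h
  omega

theorem D3_six (j : ℕ) (h2 : j % 2 = 1) (h3 : j % 3 ≠ 0) :
    D3 (2 * (3 * j)) = (Nat.divisors j).card := by
  unfold D3
  symm
  have hj0 : 0 < j := by omega
  apply Finset.card_bij (fun (d : ℕ) _ => if d % 4 = 3 then d else 3 * d)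
  · intro d hd
    rw [Nat.mem_divisors] at hd
    obtain ⟨⟨c, hc⟩, _⟩ := hd
    have hdodd : d % 2 = 1 := by
      rcases Nat.mod_two_eq_zero_or_one d with h | h
      · exfalso
        have : 2 ∣ j := Dvd.dvd.trans (Nat.dvd_of_mod_eq_zero h) ⟨c, hc⟩
        omega
      · exact h
    rw [mem_filter, Nat.mem_divisors]
    split_ifs with h
    · exact ⟨⟨⟨6 * c, by rw [hc]; ring⟩, by omega⟩, h⟩
    · exact ⟨⟨⟨2 * c, by rw [hc]; ring⟩, by omega⟩, by omega⟩
  · intro d hd e he hde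
    rw [Nat.mem_divisors] at hd he
    have hd3 : d % 3 ≠ 0 := fun h => by
      have : 3 ∣ j := Dvd.dvd.trans (Nat.dvd_of_mod_eq_zero h) hd.1
      omega
    have he3 : e % 3 ≠ 0 := fun h => by
      have : 3 ∣ j := Dvd.dvd.trans (Nat.dvd_of_mod_eq_zero h) he.1
      omega
    split_ifs at hde <;> omega
  · intro x hx
    rw [mem_filter, Nat.mem_divisors] at hx
    obtain ⟨⟨hx1, hx2⟩, hx3⟩ := hx
    have hx2' : Nat.Coprime x 2 := by
      rw [Nat.coprime_comm, Nat.prime_two.coprime_iff_not_dvd]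
      omega
    have hx4 : x ∣ 3 * j := hx2'.dvd_of_dvd_mul_left hx1
    by_cases hx5 : x % 3 = 0
    · obtain ⟨y, hy⟩ := Nat.dvd_of_mod_eq_zero hx5
      subst hy
      have hyj : y ∣ j := Nat.dvd_of_mul_dvd_mul_left (by norm_num) hx4
      refine ⟨y, ?_, ?_⟩
      · rw [Nat.mem_divisors]; exact ⟨hyj, by omega⟩
      · rw [if_neg (by omega)]
    · have hx6 : Nat.Coprime x 3 := by
        rw [Nat.coprime_comm, Nat.prime_three.coprime_iff_not_dvd]
        omega
      refine ⟨x, ?_, ?_⟩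
      · rw [Nat.mem_divisors]; exact ⟨hx6.dvd_of_dvd_mul_left hx4, by omega⟩
      · rw [if_pos hx3]

theorem sum_divisors_six (j : ℕ) (h2 : j % 2 = 1) (h3 : j % 3 ≠ 0) :
    ∑ d ∈ Nat.divisors (2 * (3 * j)), d = 12 * ∑ d ∈ Nat.divisors j, d := by
  have hc : Nat.Coprime 6 j := by
    rw [show (6 : ℕ) = 2 * 3 by norm_num, Nat.coprime_mul_iff_left]
    rw [Nat.prime_two.coprime_iff_not_dvd, Nat.prime_three.coprime_iff_not_dvd]
    omega
  rw [show 2 * (3 * j) = 6 * j by ring, Nat.Coprime.sum_divisors_mul hc]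
  congr 1

theorem even_card_divisors (j : ℕ) (hns : ¬ IsSquare j) : Even (Nat.divisors j).card := by
  rw [card_divisors_K j (by intro d hd; exact hns ⟨d, hd.symm⟩)]
  exact even_two_mul _

theorem even_sum_divisors (j : ℕ) (h2 : j % 2 = 1) (hns : ¬ IsSquare j) :
    Even (∑ d ∈ Nat.divisors j, d) := by
  have h : ∑ d ∈ Nat.divisors j, d = 2 * (∑ d ∈ Nat.divisors j, d / 2) + (Nat.divisors j).card := by
    rw [Finset.card_eq_sum_ones, Finset.mul_sum, ← Finset.sum_add_distrib]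
    apply Finset.sum_congr rfl
    intro d hd
    rw [Nat.mem_divisors] at hd
    have hdodd : d % 2 = 1 := by
      rcases Nat.mod_two_eq_zero_or_one d with h | h
      · exfalso
        have : 2 ∣ j := Dvd.dvd.trans (Nat.dvd_of_mod_eq_zero h) hd.1
        omega
      · exact h
    omega
  rw [h]
  exact (even_two_mul _).add (even_card_divisors j hns)

/-- the congruence for two part sizes -/
theorem nu_two_six (j : ℕ) (h2 : j % 2 = 1) (h3 : j % 3 ≠ 0) :
    (nu 2 (6 * j)) % 4 = (2 * ∑ d ∈ Nat.divisors j, d) % 4 := by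
  have h := nu_two_mod (3 * j) (by omega) (ns_six h3)
  rw [sum_divisors_six j h2 h3, K_three j h3, D3_six j h2 h3,
    show 2 * (3 * j) = 6 * j by ring] at h
  omega

theorem nu_two_dvd (j : ℕ) (h2 : j % 2 = 1) (h3 : j % 3 ≠ 0) (hns : ¬ IsSquare j) :
    4 ∣ nu 2 (6 * j) := by
  have h := nu_two_six j h2 h3
  obtain ⟨c, hc⟩ := even_sum_divisors j h2 hns
  omega

theorem nu_two_six_one : ¬ 4 ∣ nu 2 6 := by
  have h := nu_two_six 1 (by norm_num) (by norm_num)
  simp only [mul_one, Nat.divisors_one, sum_singleton] at h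
  omega

theorem P_subset {A B A' B' : ℕ} (h : P A B ⊆ P A' B') :
    A' ∣ A ∧ ∃ c, B = A' * c + B' := by
  obtain ⟨c, hc⟩ := h (show B ∈ P A B from ⟨0, by simp⟩)
  obtain ⟨c', hc'⟩ := h (show A + B ∈ P A B from ⟨1, by simp⟩)
  refine ⟨?_, c, hc⟩
  have h1 : A + A' * c = A' * c' := by omega
  have h2 : A' ∣ A + A' * c := h1 ▸ Dvd.intro c' rfl
  exact (Nat.dvd_add_iff_left (Dvd.intro c rfl : A' ∣ A' * c)).mpr h2

theorem exists_max (k M : ℕ) : ∀ (A B : ℕ), IsProg k M A B →
    ∃ A' B', IsMaxProg k M A' B' ∧ P A B ⊆ P A' B' := by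
  intro A
  induction A using Nat.strong_induction_on with
  | _ A ih =>
    intro B hAB
    by_cases hmax : IsMaxProg k M A B
    · exact ⟨A, B, hmax, subset_rfl⟩
    · unfold IsMaxProg at hmax
      push Not at hmax
      obtain ⟨A', B', hp, hss⟩ := hmax hAB
      obtain ⟨hdvd, c, hc⟩ := P_subset hss.1
      have hA0 : 0 < A := hAB.1
      have hle : A' ≤ A := Nat.le_of_dvd hA0 hdvd
      have hlt : A' < A := by
        rcases Nat.lt_or_eq_of_le hle with h | h
        · exact h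
        · exfalso
          subst h
          have hB1 := hAB.2.2.1
          have hB2 := hp.2.1
          have : c = 0 := by
            by_contra hc0
            have : A' ≤ A' * c := Nat.le_mul_of_pos_right A' (by omega)
            omega
          subst this
          have : B = B' := by omega
          subst this
          exact hss.2 subset_rfl
      obtain ⟨A'', B'', hm, hs⟩ := ih A' hlt B' hp
      exact ⟨A'', B'', hm, hss.1.trans hs⟩

theorem infinite_max (k M : ℕ)
    (hA : ∀ j : ℕ, j % 2 = 1 → j % 3 ≠ 0 → ¬ IsSquare j → M ∣ nu k (6 * j))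
    (hB : ¬ M ∣ nu k 6) : {p : ℕ × ℕ | IsMaxProg k M p.1 p.2}.Infinite := by
  intro hfin
  obtain ⟨K, hK⟩ : ∃ K : ℕ, ∀ p ∈ {p : ℕ × ℕ | IsMaxProg k M p.1 p.2}, p.1 ≤ K := by
    have := (hfin.image Prod.fst).bddAbove
    obtain ⟨K, hK⟩ := this
    exact ⟨K, fun p hp => hK ⟨p, hp, rfl⟩⟩
  obtain ⟨p, hpK, hp⟩ := Nat.exists_infinite_primes (K + 5)
  have : Fact p.Prime := ⟨hp⟩
  obtain ⟨r, hr⟩ : ∃ r : ZMod p, ¬ IsSquare r := by
    apply FiniteField.exists_nonsquare
    rw [ZMod.ringChar_zmod_n]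
    omega
  have hcop : Nat.Coprime 6 p := by
    rw [Nat.coprime_comm, hp.coprime_iff_not_dvd]
    intro h
    have := Nat.le_of_dvd (by norm_num) h
    have h6 : p = 5 ∨ p = 6 := by omega
    rcases h6 with h6 | h6 <;> subst h6
    · omega
    · exact absurd hp (by norm_num)
  obtain ⟨j0, hj6, hjp⟩ := Nat.chineseRemainder hcop 1 r.val
  set j1 := j0 % (6 * p) with hj1
  have hp0 : 0 < p := hp.pos
  have hj1lt : j1 < 6 * p := Nat.mod_lt _ (by omega)
  have hj1six : j1 % 6 = 1 := by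
    rw [hj1, Nat.mod_mul_right_mod]
    exact hj6
  have hj1p : (j1 : ZMod p) = r := by
    rw [← ZMod.natCast_zmod_val r, ZMod.natCast_eq_natCast_iff]
    have h1 : j1 ≡ j0 [MOD p] := by
      rw [hj1]
      exact (Nat.mod_modEq j0 (6 * p)).of_dvd (Dvd.intro_left 6 rfl)
    exact h1.trans hjp
  have hprog : IsProg k M (36 * p) (6 * j1) := by
    refine ⟨by omega, by omega, by omega, ?_⟩
    intro n
    rw [show 36 * p * n + 6 * j1 = 6 * (6 * (p * n) + j1) by ring]
    apply hA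
    · omega
    · omega
    · rintro ⟨c, hc⟩
      apply hr
      refine ⟨(c : ZMod p), ?_⟩
      have := congrArg (fun z : ℕ => (z : ZMod p)) hc
      push_cast at this
      rw [ZMod.natCast_self, hj1p] at this
      rw [← this]
      ring
  obtain ⟨A', B', hm, hs⟩ := exists_max k M _ _ hprog
  obtain ⟨hdvd, c, hc⟩ := P_subset hs
  have hA'K : A' ≤ K := hK (A', B') hm
  have hA'0 : 1 ≤ A' := hm.1.1
  have hcop' : Nat.Coprime A' p := by
    rw [Nat.coprime_comm, hp.coprime_iff_not_dvd]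
    intro h
    have := Nat.le_of_dvd (by omega) h
    omega
  have hA36 : A' ∣ 36 := hcop'.dvd_of_dvd_mul_right hdvd
  have h6 : 6 ≡ B' [MOD A'] := by
    have h1 : 6 ≡ 6 * j1 [MOD 36] := by
      unfold Nat.ModEq
      omega
    have h2 : 6 ≡ 6 * j1 [MOD A'] := h1.of_dvd hA36
    have h3 : 6 * j1 ≡ B' [MOD A'] := by
      rw [hc]
      unfold Nat.ModEq
      simp
    exact h2.trans h3
  have hB'A' : B' ≤ A' := hm.1.2.2.1
  have hB'1 : 1 ≤ B' := hm.1.2.1
  have hB6 : B' ≤ 6 := by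
    by_contra hcon
    have hd := (Nat.modEq_iff_dvd' (show 6 ≤ B' by omega)).mp h6
    have := Nat.le_of_dvd (by omega) hd
    omega
  obtain ⟨e, he⟩ := (Nat.modEq_iff_dvd' hB6).mp h6.symm
  apply hB
  have := hm.1.2.2.2 e
  rwa [show A' * e + B' = 6 by omega] at this

end Helper4.Nu
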