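import Mathlib

namespace Helper4.Nu

open Finset

/-- number of partitions of m with exactly k distinct part sizes -/
def nu (k m : ℕ) : ℕ :=
  (Finset.univ.filter (fun p : Nat.Partition m => p.parts.toFinset.card = k)).card

/-- the arithmetic progression of all A n + B with n a natural number -/
def P (A B : ℕ) : Set ℕ := {m | ∃ n : ℕ, m = A * n + B}

/-- (A, B) is a progression for nu_k and the modulus M -/
def IsProg (k M A B : ℕ) : Prop :=
  1 ≤ A ∧ 1 ≤ B ∧ B ≤ A ∧ ∀ n : ℕ, M ∣ nu k (A * n + B)

/-- (A, B) is a maximal progression for nu_k and the modulus M -/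
def IsMaxProg (k M A B : ℕ) : Prop :=
  IsProg k M A B ∧ ∀ A' B' : ℕ, IsProg k M A' B' → ¬ (P A B ⊂ P A' B')

end Helper4.Nu
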