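import Pool.Agent.Helper4.NuBase

namespace Helper4.Nu

open Finset

/-- quadruples (s, i, t, j) of positive integers with s < t and s i + t j = n -/
def Q2 (n : ℕ) : Finset (ℕ × ℕ × ℕ × ℕ) :=
  ((Icc 1 n) ×ˢ (Icc 1 n) ×ˢ (Icc 1 n) ×ˢ (Icc 1 n)).filter
    (fun q => q.1 < q.2.2.1 ∧ q.1 * q.2.1 + q.2.2.1 * q.2.2.2 = n)

theorem mem_Q2 (n s i t j : ℕ) : (s, i, t, j) ∈ Q2 n ↔
    0 < s ∧ 0 < i ∧ 0 < t ∧ 0 < j ∧ s < t ∧ s * i + t * j = n := by
  unfold Q2
  simp only [mem_filter, mem_product, mem_Icc]
  constructor
  · rintro ⟨⟨⟨h1, h2⟩, ⟨h3, h4⟩, ⟨h5, h6⟩, ⟨h7, h8⟩⟩, h9, h10⟩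
    exact ⟨by omega, by omega, by omega, by omega, h9, h10⟩
  · rintro ⟨hs, hi, ht, hj, hst, h⟩
    have h1 : s ≤ s * i := Nat.le_mul_of_pos_right s hi
    have h2 : i ≤ s * i := Nat.le_mul_of_pos_left i hs
    have h3 : t ≤ t * j := Nat.le_mul_of_pos_right t hj
    have h4 : j ≤ t * j := Nat.le_mul_of_pos_left j ht
    exact ⟨⟨⟨by omega, by omega⟩, ⟨by omega, by omega⟩, ⟨by omega, by omega⟩,
      ⟨by omega, by omega⟩⟩, hst, h⟩

theorem toFinset_two {s i t j : ℕ} (hi : 0 < i) (hj : 0 < j) :
    (Multiset.replicate i s + Multiset.replicate j t).toFinset = {s, t} := by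
  ext x
  rw [Multiset.mem_toFinset, Multiset.mem_add, Multiset.mem_replicate, Multiset.mem_replicate]
  simp only [mem_insert, mem_singleton]
  constructor
  · rintro (h | h)
    · exact Or.inl h.2
    · exact Or.inr h.2
  · rintro (h | h)
    · exact Or.inl ⟨by omega, h⟩
    · exact Or.inr ⟨by omega, h⟩

theorem nu_two (n : ℕ) : nu 2 n = (Q2 n).card := by
  unfold nu
  symm
  apply Finset.card_bij (fun (q : ℕ × ℕ × ℕ × ℕ) (hq : q ∈ Q2 n) =>
    (⟨Multiset.replicate q.2.1 q.1 + Multiset.replicate q.2.2.2 q.2.2.1, by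
      obtain ⟨s, i, t, j⟩ := q
      rw [mem_Q2] at hq
      intro x hx
      rw [Multiset.mem_add, Multiset.mem_replicate, Multiset.mem_replicate] at hx
      simp only at hx
      omega, by
      obtain ⟨s, i, t, j⟩ := q
      rw [mem_Q2] at hq
      rw [Multiset.sum_add, Multiset.sum_replicate, Multiset.sum_replicate]
      simp only [smul_eq_mul]
      rw [mul_comm i s, mul_comm j t]
      exact hq.2.2.2.2.2⟩ : Nat.Partition n))
  · rintro ⟨s, i, t, j⟩ hq
    rw [mem_filter]
    refine ⟨mem_univ _, ?_⟩
    rw [mem_Q2] at hq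
    simp only
    rw [toFinset_two hq.2.1 hq.2.2.2.1]
    exact Finset.card_pair (by omega)
  · rintro ⟨s, i, t, j⟩ hq ⟨s', i', t', j'⟩ hq' h
    rw [mem_Q2] at hq hq'
    have h' : Multiset.replicate i s + Multiset.replicate j t =
        Multiset.replicate i' s' + Multiset.replicate j' t' := congrArg Nat.Partition.parts h
    have hset : ({s, t} : Finset ℕ) = {s', t'} := by
      rw [← toFinset_two hq.2.1 hq.2.2.2.1, ← toFinset_two hq'.2.1 hq'.2.2.2.1, h']
    have e1 : s = s' ∨ s = t' := by
      have : s ∈ ({s', t'} : Finset ℕ) := by rw [← hset]; simp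
      simpa using this
    have e2 : t = s' ∨ t = t' := by
      have : t ∈ ({s', t'} : Finset ℕ) := by rw [← hset]; simp
      simpa using this
    have e3 : s' = s ∨ s' = t := by
      have : s' ∈ ({s, t} : Finset ℕ) := by rw [hset]; simp
      simpa using this
    have hs : s = s' := by omega
    have ht : t = t' := by omega
    subst hs ht
    have c1 := congrArg (Multiset.count s) h'
    have c2 := congrArg (Multiset.count t) h'
    have hst : s ≠ t := by omega
    rw [Multiset.count_add, Multiset.count_add, Multiset.count_replicate, Multiset.count_replicate,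
      Multiset.count_replicate, Multiset.count_replicate] at c1 c2
    simp only [if_true, if_neg hst, if_neg hst.symm] at c1 c2
    simp only [Prod.mk.injEq, true_and]
    omega
  · intro p hp
    rw [mem_filter] at hp
    obtain ⟨x, y, hxy, hset⟩ := Finset.card_eq_two.mp hp.2
    have main : ∀ s t : ℕ, s < t → p.parts.toFinset = {s, t} →
        ∃ (a : ℕ × ℕ × ℕ × ℕ) (ha : a ∈ Q2 n),
        (Multiset.replicate a.2.1 a.1 + Multiset.replicate a.2.2.2 a.2.2.1) = p.parts := by
      intro s t hst hset
      have hs : s ∈ p.parts := by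
        rw [← Multiset.mem_toFinset, hset]; simp
      have ht : t ∈ p.parts := by
        rw [← Multiset.mem_toFinset, hset]; simp
      have hparts : Multiset.replicate (p.parts.count s) s + Multiset.replicate (p.parts.count t) t
          = p.parts := by
        ext x
        rw [Multiset.count_add, Multiset.count_replicate, Multiset.count_replicate]
        by_cases hx1 : s = x
        · subst hx1
          rw [if_pos rfl, if_neg (by omega)]; omega
        · by_cases hx2 : t = x
          · subst hx2
            rw [if_pos rfl, if_neg (by omega)]; omega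
          · rw [if_neg hx1, if_neg hx2]
            symm
            rw [Multiset.count_eq_zero]
            intro hx
            rw [← Multiset.mem_toFinset, hset] at hx
            simp only [mem_insert, mem_singleton] at hx
            omega
      refine ⟨(s, p.parts.count s, t, p.parts.count t), ?_, hparts⟩
      rw [mem_Q2]
      refine ⟨p.parts_pos hs, Multiset.count_pos.mpr hs, p.parts_pos ht,
        Multiset.count_pos.mpr ht, hst, ?_⟩
      have hsum := p.parts_sum
      rw [← hparts, Multiset.sum_add, Multiset.sum_replicate, Multiset.sum_replicate] at hsum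
      simp only [smul_eq_mul] at hsum
      rw [mul_comm s, mul_comm t]
      exact hsum
    rcases lt_or_gt_of_ne hxy with h | h
    · obtain ⟨a, ha, hpa⟩ := main x y h hset
      exact ⟨a, ha, Nat.Partition.ext hpa⟩
    · obtain ⟨a, ha, hpa⟩ := main y x h (by rw [hset, Finset.pair_comm])
      exact ⟨a, ha, Nat.Partition.ext hpa⟩

end Helper4.Nu
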