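import Mathlib

namespace Helper4.Nu

open Finset

theorem even_card_of_invol {α : Type*} [DecidableEq α] (s : Finset α) (f : α → α)
    (hf : ∀ a ∈ s, f a ∈ s) (hinv : ∀ a ∈ s, f (f a) = a) (hne : ∀ a ∈ s, f a ≠ a) :
    Even s.card := by
  have h : ∑ _a ∈ s, (1 : ZMod 2) = 0 := by
    refine Finset.sum_involution (fun a _ => f a) ?_ ?_ ?_ ?_
    · intro a ha; decide
    · intro a ha _; exact hne a ha
    · intro a ha; exact hf a ha
    · intro a ha; exact hinv a ha
  rw [Finset.sum_const, nsmul_eq_mul, mul_one] at h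
  exact (ZMod.natCast_eq_zero_iff_even).mp h

theorem card_mod_two_fixed {α : Type*} [DecidableEq α] (s : Finset α) (f : α → α)
    (hf : ∀ a ∈ s, f a ∈ s) (hinv : ∀ a ∈ s, f (f a) = a) :
    s.card % 2 = (s.filter (fun a => f a = a)).card % 2 := by
  have h := Finset.card_filter_add_card_filter_not (s := s) (fun a => f a = a)
  have h2 : Even (s.filter (fun a => ¬ f a = a)).card := by
    apply even_card_of_invol _ f
    · intro a ha
      rw [mem_filter] at ha ⊢
      refine ⟨hf a ha.1, ?_⟩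
      rw [hinv a ha.1]
      exact fun h => ha.2 h.symm
    · intro a ha
      rw [mem_filter] at ha
      exact hinv a ha.1
    · intro a ha
      rw [mem_filter] at ha
      exact ha.2
  obtain ⟨c, hc⟩ := h2
  omega

/-- triples (a, x, y) of integers, with x and y positive and a^2 + x y = n -/
noncomputable def T (n : ℤ) : Finset (ℤ × ℤ × ℤ) :=
  ((Icc (-n) n) ×ˢ (Icc 1 n) ×ˢ (Icc 1 n)).filter (fun p => p.1 ^ 2 + p.2.1 * p.2.2 = n)

theorem mem_T (n : ℤ) (a x y : ℤ) :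
    (a, x, y) ∈ T n ↔ 0 < x ∧ 0 < y ∧ a ^ 2 + x * y = n := by
  unfold T
  simp only [mem_filter, mem_product, mem_Icc]
  constructor
  · rintro ⟨⟨⟨h1, h2⟩, ⟨h3, h4⟩, ⟨h5, h6⟩⟩, h7⟩
    exact ⟨by omega, by omega, h7⟩
  · rintro ⟨hx, hy, h⟩
    refine ⟨⟨⟨?_, ?_⟩, ⟨by omega, ?_⟩, ⟨by omega, ?_⟩⟩, h⟩ <;> nlinarith [sq_nonneg a, sq_nonneg (a-1), sq_nonneg (a+1), mul_pos hx hy]

/-- one step along the river -/
def rho (p : ℤ × ℤ × ℤ) : ℤ × ℤ × ℤ :=
  if 0 < p.2.1 + 2 * p.1 - p.2.2 then (p.1 - p.2.2, p.2.1 + 2 * p.1 - p.2.2, p.2.2)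
  else (p.1 + p.2.1, p.2.1, p.2.2 - 2 * p.1 - p.2.1)

/-- one step backwards along the river -/
def rhoInv (p : ℤ × ℤ × ℤ) : ℤ × ℤ × ℤ :=
  if 0 < p.2.1 - 2 * p.1 - p.2.2 then (p.1 + p.2.2, p.2.1 - 2 * p.1 - p.2.2, p.2.2)
  else (p.1 - p.2.1, p.2.1, p.2.2 + 2 * p.1 - p.2.1)

theorem not_sq {n : ℤ} (hn : n % 4 = 2) (b : ℤ) : b ^ 2 ≠ n := by
  intro h
  have h4 : ((b : ZMod 4)) ^ 2 = 2 := by
    have : ((b ^ 2 : ℤ) : ZMod 4) = ((2 : ℤ) : ZMod 4) := by
      rw [ZMod.intCast_eq_intCast_iff, h]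
      exact hn
    push_cast at this
    exact this
  revert h4
  generalize (b : ZMod 4) = c
  revert c
  decide

theorem rho_mem {n : ℤ} (hn : n % 4 = 2) {p : ℤ × ℤ × ℤ} (hp : p ∈ T n) : rho p ∈ T n := by
  obtain ⟨a, x, y⟩ := p
  rw [mem_T] at hp
  obtain ⟨hx, hy, h⟩ := hp
  unfold rho
  simp only
  split_ifs with hc
  · rw [mem_T]
    exact ⟨hc, hy, by linear_combination h⟩
  · rw [mem_T]
    have hne : x + 2 * a - y ≠ 0 := by
      intro h0
      apply not_sq hn (a + x)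
      have : y = x + 2 * a := by omega
      rw [this] at h
      linear_combination h
    exact ⟨hx, by omega, by linear_combination h⟩

theorem rhoInv_mem {n : ℤ} (hn : n % 4 = 2) {p : ℤ × ℤ × ℤ} (hp : p ∈ T n) :
    rhoInv p ∈ T n := by
  obtain ⟨a, x, y⟩ := p
  rw [mem_T] at hp
  obtain ⟨hx, hy, h⟩ := hp
  unfold rhoInv
  simp only
  split_ifs with hc
  · rw [mem_T]
    exact ⟨hc, hy, by linear_combination h⟩
  · rw [mem_T]
    have hne : x - 2 * a - y ≠ 0 := by
      intro h0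
      apply not_sq hn (a - x)
      have : y = x - 2 * a := by omega
      rw [this] at h
      linear_combination h
    exact ⟨hx, by omega, by linear_combination h⟩

theorem rhoInv_rho {n : ℤ} {p : ℤ × ℤ × ℤ} (hp : p ∈ T n) :
    rhoInv (rho p) = p := by
  obtain ⟨a, x, y⟩ := p
  rw [mem_T] at hp
  obtain ⟨hx, hy, h⟩ := hp
  unfold rho
  simp only
  split_ifs with hc
  · unfold rhoInv
    simp only
    rw [if_pos (by omega)]
    ext <;> simp only <;> ring
  · unfold rhoInv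
    simp only
    rw [if_neg (by omega)]
    ext <;> simp only <;> ring

theorem rho_rhoInv {n : ℤ} {p : ℤ × ℤ × ℤ} (hp : p ∈ T n) :
    rho (rhoInv p) = p := by
  obtain ⟨a, x, y⟩ := p
  rw [mem_T] at hp
  obtain ⟨hx, hy, h⟩ := hp
  unfold rhoInv
  simp only
  split_ifs with hc
  · unfold rho
    simp only
    rw [if_pos (by omega)]
    ext <;> simp only <;> ring
  · unfold rho
    simp only
    rw [if_neg (by omega)]
    ext <;> simp only <;> ring

/-- the sign of a triple, in terms of residues modulo 4 -/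
def sgn4 (a x y : ZMod 4) : Bool :=
  ((a = 1 ∨ a = 3) ∧ x = 1) ∨ ((a = 0 ∨ a = 2) ∧ (x = 3 ∨ y = 3))

theorem sgn4_step1 : ∀ a x y : ZMod 4, a ^ 2 + x * y = 2 →
    sgn4 (a - y) (x + 2 * a - y) y = !(sgn4 a x y) := by decide

theorem sgn4_step2 : ∀ a x y : ZMod 4, a ^ 2 + x * y = 2 →
    sgn4 (a + x) x (y - 2 * a - x) = !(sgn4 a x y) := by decide

theorem sgn4_neg : ∀ a x y : ZMod 4, a ^ 2 + x * y = 2 →
    sgn4 (-a) x y = sgn4 a x y := by decide

theorem sgn4_swap : ∀ a x y : ZMod 4, a ^ 2 + x * y = 2 →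
    sgn4 a y x = sgn4 a x y := by decide

/-- the sign of a triple -/
def sgn (p : ℤ × ℤ × ℤ) : Bool := sgn4 (p.1 : ZMod 4) (p.2.1 : ZMod 4) (p.2.2 : ZMod 4)

theorem zmod_eq {n : ℤ} (hn : n % 4 = 2) {a x y : ℤ} (h : a ^ 2 + x * y = n) :
    (a : ZMod 4) ^ 2 + (x : ZMod 4) * (y : ZMod 4) = 2 := by
  have : ((a ^ 2 + x * y : ℤ) : ZMod 4) = ((2 : ℤ) : ZMod 4) := by
    rw [ZMod.intCast_eq_intCast_iff, h]
    exact hn
  push_cast at this
  exact this

theorem sgn_rho {n : ℤ} (hn : n % 4 = 2) {p : ℤ × ℤ × ℤ} (hp : p ∈ T n) :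
    sgn (rho p) = !(sgn p) := by
  obtain ⟨a, x, y⟩ := p
  rw [mem_T] at hp
  obtain ⟨hx, hy, h⟩ := hp
  have h4 := zmod_eq hn h
  unfold rho sgn
  simp only
  split_ifs with hc
  · push_cast
    exact sgn4_step1 _ _ _ h4
  · push_cast
    exact sgn4_step2 _ _ _ h4

theorem card_T_eq {n : ℤ} (hn : n % 4 = 2) :
    (T n).card = 2 * ((T n).filter (fun p => sgn p = true)).card := by
  have h := Finset.card_filter_add_card_filter_not (s := T n) (fun p => sgn p = true)
  have h1 : ((T n).filter (fun p => sgn p = true)).card ≤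
      ((T n).filter (fun p => ¬ sgn p = true)).card := by
    apply Finset.card_le_card_of_injOn rho
    · intro p hp
      simp only [coe_filter, Set.mem_ofPred_eq] at hp ⊢
      refine ⟨rho_mem hn hp.1, ?_⟩
      rw [sgn_rho hn hp.1, hp.2]
      simp
    · intro p hp q hq hpq
      simp only [coe_filter, Set.mem_ofPred_eq] at hp hq
      rw [← rhoInv_rho hp.1, ← rhoInv_rho hq.1, hpq]
  have h2 : ((T n).filter (fun p => ¬ sgn p = true)).card ≤
      ((T n).filter (fun p => sgn p = true)).card := by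
    apply Finset.card_le_card_of_injOn rho
    · intro p hp
      simp only [coe_filter, Set.mem_ofPred_eq] at hp ⊢
      refine ⟨rho_mem hn hp.1, ?_⟩
      rw [sgn_rho hn hp.1]
      simpa using hp.2
    · intro p hp q hq hpq
      simp only [coe_filter, Set.mem_ofPred_eq] at hp hq
      rw [← rhoInv_rho hp.1, ← rhoInv_rho hq.1, hpq]
  omega


theorem card_split_sign (s : Finset (ℤ × ℤ × ℤ))
    (hneg : ∀ p ∈ s, (-p.1, p.2.1, p.2.2) ∈ s) :
    s.card = 2 * (s.filter (fun p => 0 < p.1)).card + (s.filter (fun p => p.1 = 0)).card := by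
  have h1 := Finset.card_filter_add_card_filter_not (s := s) (fun p => 0 < p.1)
  have h2 := Finset.card_filter_add_card_filter_not
    (s := s.filter (fun p => ¬ 0 < p.1)) (fun p => p.1 = 0)
  rw [filter_filter, filter_filter] at h2
  have h3 : (s.filter (fun p => (¬ 0 < p.1) ∧ p.1 = 0)) = s.filter (fun p => p.1 = 0) := by
    apply filter_congr
    intro p _
    constructor
    · exact fun h => h.2
    · intro h; exact ⟨by omega, h⟩
  have h4 : (s.filter (fun p => (¬ 0 < p.1) ∧ ¬ p.1 = 0)).card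
      = (s.filter (fun p => 0 < p.1)).card := by
    apply Finset.card_bij (fun p _ => (-p.1, p.2.1, p.2.2))
    · intro p hp
      rw [mem_filter] at hp ⊢
      exact ⟨hneg p hp.1, by simp only; omega⟩
    · intro p _ q _ hpq
      simp only [Prod.mk.injEq, neg_inj] at hpq
      exact Prod.ext hpq.1 (Prod.ext hpq.2.1 hpq.2.2)
    · intro p hp
      rw [mem_filter] at hp
      refine ⟨(-p.1, p.2.1, p.2.2), ?_, ?_⟩
      · rw [mem_filter]
        exact ⟨hneg p hp.1, by simp only; omega⟩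
      · simp
  rw [h3, h4] at h2
  omega

theorem T_neg {n : ℤ} {p : ℤ × ℤ × ℤ} (hp : p ∈ T n) : (-p.1, p.2.1, p.2.2) ∈ T n := by
  obtain ⟨a, x, y⟩ := p
  rw [mem_T] at hp ⊢
  exact ⟨hp.1, hp.2.1, by linear_combination hp.2.2⟩

theorem T_swap {n : ℤ} {p : ℤ × ℤ × ℤ} (hp : p ∈ T n) : (p.1, p.2.2, p.2.1) ∈ T n := by
  obtain ⟨a, x, y⟩ := p
  rw [mem_T] at hp ⊢
  exact ⟨hp.2.1, hp.1, by linear_combination hp.2.2⟩

theorem sgn_T_neg {n : ℤ} (hn : n % 4 = 2) {p : ℤ × ℤ × ℤ} (hp : p ∈ T n) :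
    sgn (-p.1, p.2.1, p.2.2) = sgn p := by
  obtain ⟨a, x, y⟩ := p
  rw [mem_T] at hp
  have h4 := zmod_eq hn hp.2.2
  unfold sgn
  push_cast
  exact sgn4_neg _ _ _ h4

theorem sgn_T_swap {n : ℤ} (hn : n % 4 = 2) {p : ℤ × ℤ × ℤ} (hp : p ∈ T n) :
    sgn (p.1, p.2.2, p.2.1) = sgn p := by
  obtain ⟨a, x, y⟩ := p
  rw [mem_T] at hp
  have h4 := zmod_eq hn hp.2.2
  unfold sgn
  exact sgn4_swap _ _ _ h4

theorem even_card_swap {n : ℤ} (hns : ∀ a b : ℤ, a ^ 2 + b ^ 2 ≠ n)
    (s : Finset (ℤ × ℤ × ℤ)) (hs : s ⊆ T n) (hsw : ∀ p ∈ s, (p.1, p.2.2, p.2.1) ∈ s) :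
    Even s.card := by
  apply even_card_of_invol s (fun p => (p.1, p.2.2, p.2.1)) hsw
  · intro p _; rfl
  · intro p hp h
    have hp' := hs hp
    obtain ⟨a, x, y⟩ := p
    simp only [Prod.mk.injEq, true_and] at h
    rw [mem_T] at hp'
    apply hns a x
    have : y = x := h.1
    rw [this] at hp'
    linear_combination hp'.2.2

theorem sgn_zero_iff : ∀ x y : ZMod 4, x * y = 2 →
    (sgn4 0 x y = true ↔ (x = 3 ∨ y = 3)) := by decide

theorem not_both : ∀ x y : ZMod 4, x * y = 2 → ¬ (x = 3 ∧ y = 3) := by decide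

theorem zmod3 (x : ℤ) : (x : ZMod 4) = 3 ↔ x % 4 = 3 := by
  have := ZMod.intCast_eq_intCast_iff x 3 4
  push_cast at this
  rw [this]
  rfl

/-- number of positive divisors of n that are 3 modulo 4 -/
def D3 (n : ℕ) : ℕ := ((Nat.divisors n).filter (fun d => d % 4 = 3)).card

theorem card_zero_plus {n : ℕ} (hn : n % 4 = 2) :
    (((T (n : ℤ)).filter (fun p => sgn p = true)).filter (fun p => p.1 = 0)).card
      = 2 * D3 n := by
  have hn' : (n : ℤ) % 4 = 2 := by omega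
  have key : ∀ q : ℤ × ℤ × ℤ, q ∈ (T (n : ℤ)) → q.1 = 0 →
      (sgn q = true ↔ (q.2.1 % 4 = 3 ∨ q.2.2 % 4 = 3)) ∧
      ¬ (q.2.1 % 4 = 3 ∧ q.2.2 % 4 = 3) := by
    rintro ⟨a, x, y⟩ hq h0
    simp only at h0
    subst h0
    rw [mem_T] at hq
    have h4 := zmod_eq hn' hq.2.2
    have h5 : (x : ZMod 4) * (y : ZMod 4) = 2 := by
      rw [← h4]; push_cast; ring
    unfold sgn
    simp only
    rw [← zmod3, ← zmod3]
    push_cast
    exact ⟨sgn_zero_iff _ _ h5, not_both _ _ h5⟩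
  have h1 := Finset.card_filter_add_card_filter_not
    (s := (((T (n : ℤ)).filter (fun p => sgn p = true)).filter (fun p => p.1 = 0)))
    (fun p => p.2.1 % 4 = 3)
  have h2 : ((((T (n : ℤ)).filter (fun p => sgn p = true)).filter (fun p => p.1 = 0)).filter
    (fun p => p.2.1 % 4 = 3)).card = D3 n := by
    unfold D3
    symm
    apply Finset.card_bij (fun (d : ℕ) _ => ((0 : ℤ), (d : ℤ), ((n / d : ℕ) : ℤ)))
    · intro d hd
      rw [mem_filter, Nat.mem_divisors] at hd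
      obtain ⟨⟨hd1, hd2⟩, hd3⟩ := hd
      have hdpos : 0 < d := Nat.pos_of_dvd_of_pos hd1 (by omega)
      have hq : 0 < n / d := Nat.div_pos (Nat.le_of_dvd (by omega) hd1) hdpos
      have hmem : ((0 : ℤ), (d : ℤ), ((n / d : ℕ) : ℤ)) ∈ T (n : ℤ) := by
        rw [mem_T]
        refine ⟨by omega, by omega, ?_⟩
        have : d * (n / d) = n := Nat.mul_div_cancel' hd1
        have h' : (d : ℤ) * ((n / d : ℕ) : ℤ) = n := by exact_mod_cast this
        linear_combination h'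
      have hk := key _ hmem rfl
      simp only [mem_filter]
      refine ⟨⟨⟨hmem, ?_⟩, trivial⟩, ?_⟩
      · rw [hk.1]; left; simp only; omega
      · omega
    · intro d hd e he hde
      simp only [Prod.mk.injEq] at hde
      exact_mod_cast hde.2.1
    · rintro ⟨a, x, y⟩ hb
      simp only [mem_filter] at hb
      obtain ⟨⟨⟨hm, _⟩, h0⟩, h3⟩ := hb
      subst h0
      rw [mem_T] at hm
      obtain ⟨hx, hy, hxy⟩ := hm
      have hxy' : x * y = n := by linear_combination hxy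
      lift x to ℕ using by omega
      lift y to ℕ using by omega
      have hxyn : x * y = n := by exact_mod_cast hxy'
      refine ⟨x, ?_, ?_⟩
      · rw [mem_filter, Nat.mem_divisors]
        refine ⟨⟨⟨y, hxyn.symm⟩, by omega⟩, by omega⟩
      · have hx' : 0 < x := by omega
        have : n / x = y := by
          rw [← hxyn]; exact Nat.mul_div_cancel_left y hx'
        rw [this]
  have h3 : ((((T (n : ℤ)).filter (fun p => sgn p = true)).filter (fun p => p.1 = 0)).filter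
    (fun p => ¬ p.2.1 % 4 = 3)).card = ((((T (n : ℤ)).filter (fun p => sgn p = true)).filter
      (fun p => p.1 = 0)).filter (fun p => p.2.1 % 4 = 3)).card := by
    apply Finset.card_bij (fun p _ => (p.1, p.2.2, p.2.1))
    · intro p hp
      simp only [mem_filter] at hp ⊢
      obtain ⟨⟨⟨hm, hs⟩, h0⟩, h3⟩ := hp
      refine ⟨⟨⟨T_swap hm, ?_⟩, h0⟩, ?_⟩
      · rw [sgn_T_swap hn' hm]; exact hs
      · have := (key p hm h0).1.mp hs
        tauto
    · intro p _ q _ hpq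
      simp only [Prod.mk.injEq] at hpq
      exact Prod.ext hpq.1 (Prod.ext hpq.2.2 hpq.2.1)
    · intro p hp
      simp only [mem_filter] at hp
      obtain ⟨⟨⟨hm, hs⟩, h0⟩, h3⟩ := hp
      refine ⟨(p.1, p.2.2, p.2.1), ?_, rfl⟩
      simp only [mem_filter]
      refine ⟨⟨⟨T_swap hm, ?_⟩, h0⟩, ?_⟩
      · rw [sgn_T_swap hn' hm]; exact hs
      · have := (key p hm h0).2
        tauto
  omega

theorem card_T_mod8 {n : ℕ} (hn : n % 4 = 2) (hns : ∀ a b : ℤ, a ^ 2 + b ^ 2 ≠ n) :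
    (T (n : ℤ)).card % 8 = (4 * D3 n) % 8 := by
  have hn' : (n : ℤ) % 4 = 2 := by omega
  have h1 := card_T_eq hn'
  have h2 := card_split_sign ((T (n : ℤ)).filter (fun p => sgn p = true)) (by
    intro p hp
    rw [mem_filter] at hp ⊢
    refine ⟨T_neg hp.1, ?_⟩
    rw [sgn_T_neg hn' hp.1]; exact hp.2)
  rw [card_zero_plus hn] at h2
  have h3 : Even (((T (n : ℤ)).filter (fun p => sgn p = true)).filter
      (fun p => 0 < p.1)).card := by
    apply even_card_swap hns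
    · exact (filter_subset _ _).trans (filter_subset _ _)
    · intro p hp
      simp only [mem_filter] at hp ⊢
      refine ⟨⟨T_swap hp.1.1, ?_⟩, hp.2⟩
      rw [sgn_T_swap hn' hp.1.1]; exact hp.1.2
  obtain ⟨c, hc⟩ := h3
  omega

end Helper4.Nu
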