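import Pool.Agent.Helper4.NuArith

namespace Helper4.Nu

open Finset

/-- tuples (a1, a2, a3, b1, b2, b3) of positive integers with
a1 (b1 + b2 + b3) + a2 (b2 + b3) + a3 b3 = n -/
def Q3 (n : ℕ) : Finset (ℕ × ℕ × ℕ × ℕ × ℕ × ℕ) :=
  ((Icc 1 n) ×ˢ (Icc 1 n) ×ˢ (Icc 1 n) ×ˢ (Icc 1 n) ×ˢ (Icc 1 n) ×ˢ (Icc 1 n)).filter
    (fun q => q.1 * (q.2.2.2.1 + q.2.2.2.2.1 + q.2.2.2.2.2) +
      q.2.1 * (q.2.2.2.2.1 + q.2.2.2.2.2) + q.2.2.1 * q.2.2.2.2.2 = n)

theorem mem_Q3 (n a1 a2 a3 b1 b2 b3 : ℕ) : (a1, a2, a3, b1, b2, b3) ∈ Q3 n ↔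
    (0 < a1 ∧ 0 < a2 ∧ 0 < a3 ∧ 0 < b1 ∧ 0 < b2 ∧ 0 < b3) ∧
      a1 * (b1 + b2 + b3) + a2 * (b2 + b3) + a3 * b3 = n := by
  unfold Q3
  simp only [mem_filter, mem_product, mem_Icc]
  constructor
  · rintro ⟨⟨⟨h1, _⟩, ⟨h3, _⟩, ⟨h5, _⟩, ⟨h7, _⟩, ⟨h9, _⟩, ⟨h11, _⟩⟩, h⟩
    exact ⟨⟨by omega, by omega, by omega, by omega, by omega, by omega⟩, h⟩
  · rintro ⟨⟨h1, h2, h3, h4, h5, h6⟩, h⟩
    have e1 : a1 ≤ a1 * (b1 + b2 + b3) := Nat.le_mul_of_pos_right a1 (by omega)
    have e2 : a2 ≤ a2 * (b2 + b3) := Nat.le_mul_of_pos_right a2 (by omega)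
    have e3 : a3 ≤ a3 * b3 := Nat.le_mul_of_pos_right a3 (by omega)
    have e4 : (b1 + b2 + b3) ≤ a1 * (b1 + b2 + b3) := Nat.le_mul_of_pos_left _ h1
    exact ⟨⟨⟨by omega, by omega⟩, ⟨by omega, by omega⟩, ⟨by omega, by omega⟩,
      ⟨by omega, by omega⟩, ⟨by omega, by omega⟩, ⟨by omega, by omega⟩⟩, h⟩

/-- the multiset with b1 copies of a1, b2 copies of a1 + a2 and b3 copies of a1 + a2 + a3 -/
def ms (q : ℕ × ℕ × ℕ × ℕ × ℕ × ℕ) : Multiset ℕ :=
  Multiset.replicate q.2.2.2.1 q.1 + Multiset.replicate q.2.2.2.2.1 (q.1 + q.2.1) +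
    Multiset.replicate q.2.2.2.2.2 (q.1 + q.2.1 + q.2.2.1)

theorem mem_ms {a1 a2 a3 b1 b2 b3 : ℕ} (h1 : 0 < b1) (h2 : 0 < b2) (h3 : 0 < b3) (x : ℕ) :
    x ∈ ms (a1, a2, a3, b1, b2, b3) ↔ x = a1 ∨ x = a1 + a2 ∨ x = a1 + a2 + a3 := by
  unfold ms
  rw [Multiset.mem_add, Multiset.mem_add, Multiset.mem_replicate, Multiset.mem_replicate,
    Multiset.mem_replicate]
  simp only
  constructor
  · rintro ((h | h) | h)
    · exact Or.inl h.2
    · exact Or.inr (Or.inl h.2)
    · exact Or.inr (Or.inr h.2)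
  · rintro (h | h | h)
    · exact Or.inl (Or.inl ⟨by omega, h⟩)
    · exact Or.inl (Or.inr ⟨by omega, h⟩)
    · exact Or.inr ⟨by omega, h⟩

theorem toFinset_ms {a1 a2 a3 b1 b2 b3 : ℕ} (h1 : 0 < b1) (h2 : 0 < b2) (h3 : 0 < b3) :
    (ms (a1, a2, a3, b1, b2, b3)).toFinset = {a1, a1 + a2, a1 + a2 + a3} := by
  ext x
  rw [Multiset.mem_toFinset, mem_ms h1 h2 h3]
  simp only [mem_insert, mem_singleton]

theorem count_ms (a1 a2 a3 b1 b2 b3 x : ℕ) :
    (ms (a1, a2, a3, b1, b2, b3)).count x =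
      (if a1 = x then b1 else 0) + (if a1 + a2 = x then b2 else 0) +
        (if a1 + a2 + a3 = x then b3 else 0) := by
  unfold ms
  rw [Multiset.count_add, Multiset.count_add, Multiset.count_replicate, Multiset.count_replicate,
    Multiset.count_replicate]

theorem sum_ms (a1 a2 a3 b1 b2 b3 : ℕ) :
    (ms (a1, a2, a3, b1, b2, b3)).sum = a1 * (b1 + b2 + b3) + a2 * (b2 + b3) + a3 * b3 := by
  unfold ms
  rw [Multiset.sum_add, Multiset.sum_add, Multiset.sum_replicate, Multiset.sum_replicate,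
    Multiset.sum_replicate]
  simp only [smul_eq_mul]
  ring

theorem nu_three (n : ℕ) : nu 3 n = (Q3 n).card := by
  unfold nu
  symm
  apply Finset.card_bij (fun (q : ℕ × ℕ × ℕ × ℕ × ℕ × ℕ) (hq : q ∈ Q3 n) =>
    (⟨ms q, by
      obtain ⟨a1, a2, a3, b1, b2, b3⟩ := q
      rw [mem_Q3] at hq
      intro x hx
      rw [mem_ms hq.1.2.2.2.1 hq.1.2.2.2.2.1 hq.1.2.2.2.2.2] at hx
      omega, by
      obtain ⟨a1, a2, a3, b1, b2, b3⟩ := q
      rw [mem_Q3] at hq
      rw [sum_ms]
      exact hq.2⟩ : Nat.Partition n))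
  · rintro ⟨a1, a2, a3, b1, b2, b3⟩ hq
    rw [mem_filter]
    refine ⟨mem_univ _, ?_⟩
    rw [mem_Q3] at hq
    obtain ⟨⟨h1, h2, h3, h4, h5, h6⟩, h⟩ := hq
    simp only
    rw [toFinset_ms h4 h5 h6]
    rw [Finset.card_eq_three]
    exact ⟨a1, a1 + a2, a1 + a2 + a3, by omega, by omega, by omega, rfl⟩
  · rintro ⟨a1, a2, a3, b1, b2, b3⟩ hq ⟨a1', a2', a3', b1', b2', b3'⟩ hq' h
    rw [mem_Q3] at hq hq'
    have h' : ms (a1, a2, a3, b1, b2, b3) = ms (a1', a2', a3', b1', b2', b3') :=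
      congrArg Nat.Partition.parts h
    obtain ⟨⟨h1, h2, h3, h4, h5, h6⟩, _⟩ := hq
    obtain ⟨⟨h1', h2', h3', h4', h5', h6'⟩, _⟩ := hq'
    have hm : ∀ x, (x = a1 ∨ x = a1 + a2 ∨ x = a1 + a2 + a3) ↔
        (x = a1' ∨ x = a1' + a2' ∨ x = a1' + a2' + a3') := by
      intro x
      rw [← mem_ms h4 h5 h6, ← mem_ms h4' h5' h6', h']
    have m1 := hm a1
    have m2 := hm (a1 + a2)
    have m3 := hm (a1 + a2 + a3)
    have m4 := hm a1'
    have m5 := hm (a1' + a2')
    have m6 := hm (a1' + a2' + a3')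
    have e1 : a1 = a1' := by omega
    subst e1
    have e2 : a2 = a2' := by omega
    subst e2
    have e3 : a3 = a3' := by omega
    subst e3
    have c1 := congrArg (Multiset.count a1) h'
    have c2 := congrArg (Multiset.count (a1 + a2)) h'
    have c3 := congrArg (Multiset.count (a1 + a2 + a3)) h'
    rw [count_ms, count_ms] at c1 c2 c3
    rw [if_pos rfl, if_neg (by omega), if_neg (by omega), if_pos rfl, if_neg (by omega),
      if_neg (by omega)] at c1
    rw [if_neg (by omega), if_pos rfl, if_neg (by omega), if_neg (by omega), if_pos rfl,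
      if_neg (by omega)] at c2
    rw [if_neg (by omega), if_neg (by omega), if_pos rfl, if_neg (by omega), if_neg (by omega),
      if_pos rfl] at c3
    simp only [Prod.mk.injEq, true_and]
    omega
  · intro p hp
    rw [mem_filter] at hp
    obtain ⟨x, y, z, hxy, hxz, hyz, hset⟩ := Finset.card_eq_three.mp hp.2
    have main : ∀ s t u : ℕ, s < t → t < u → p.parts.toFinset = {s, t, u} →
        ∃ (a : ℕ × ℕ × ℕ × ℕ × ℕ × ℕ) (ha : a ∈ Q3 n), ms a = p.parts := by
      intro s t u hst htu hset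
      have hs : s ∈ p.parts := by
        rw [← Multiset.mem_toFinset, hset]; simp
      have ht : t ∈ p.parts := by
        rw [← Multiset.mem_toFinset, hset]; simp
      have hu : u ∈ p.parts := by
        rw [← Multiset.mem_toFinset, hset]; simp
      have hparts : ms (s, t - s, u - t, p.parts.count s, p.parts.count t, p.parts.count u)
          = p.parts := by
        ext x
        rw [count_ms]
        have e1 : s + (t - s) = t := by omega
        have e2 : s + (t - s) + (u - t) = u := by omega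
        rw [e2, e1]
        by_cases hx1 : s = x
        · subst hx1
          rw [if_pos rfl, if_neg (by omega), if_neg (by omega)]; omega
        · by_cases hx2 : t = x
          · subst hx2
            rw [if_pos rfl, if_neg (by omega), if_neg (by omega)]; omega
          · by_cases hx3 : u = x
            · subst hx3
              rw [if_pos rfl, if_neg (by omega), if_neg (by omega)]; omega
            · rw [if_neg hx1, if_neg hx2, if_neg hx3]
              symm
              rw [Multiset.count_eq_zero]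
              intro hx
              rw [← Multiset.mem_toFinset, hset] at hx
              simp only [mem_insert, mem_singleton] at hx
              omega
      refine ⟨(s, t - s, u - t, p.parts.count s, p.parts.count t, p.parts.count u), ?_, hparts⟩
      rw [mem_Q3]
      refine ⟨⟨p.parts_pos hs, by omega, by omega, Multiset.count_pos.mpr hs,
        Multiset.count_pos.mpr ht, Multiset.count_pos.mpr hu⟩, ?_⟩
      rw [← sum_ms, hparts]
      exact p.parts_sum
    have fin : ∃ (a : ℕ × ℕ × ℕ × ℕ × ℕ × ℕ) (ha : a ∈ Q3 n), ms a = p.parts := by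
      rcases lt_or_gt_of_ne hxy with h1 | h1 <;> rcases lt_or_gt_of_ne hxz with h2 | h2 <;>
        rcases lt_or_gt_of_ne hyz with h3 | h3
      · exact main x y z h1 h3 hset
      · exact main x z y h2 h3 (by rw [hset]; ext w; simp only [mem_insert, mem_singleton]; tauto)
      · omega
      · exact main z x y h2 h1 (by rw [hset]; ext w; simp only [mem_insert, mem_singleton]; tauto)
      · exact main y x z h1 h2 (by rw [hset]; ext w; simp only [mem_insert, mem_singleton]; tauto)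
      · omega
      · exact main y z x h3 h2 (by rw [hset]; ext w; simp only [mem_insert, mem_singleton]; tauto)
      · exact main z y x h3 h1 (by rw [hset]; ext w; simp only [mem_insert, mem_singleton]; tauto)
    obtain ⟨a, ha, hpa⟩ := fin
    exact ⟨a, ha, Nat.Partition.ext hpa⟩

/-- triples in T(n) with odd first entry a and x > y + 2|a| -/
noncomputable def III (n : ℤ) : Finset (ℤ × ℤ × ℤ) :=
  (T n).filter (fun p => p.1 % 2 = 1 ∧ p.2.2 + 2 * p.1 < p.2.1 ∧ p.2.2 - 2 * p.1 < p.2.1)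

theorem parity_T {n : ℤ} (hn : n % 4 = 2) {a x y : ℤ} (h : a ^ 2 + x * y = n) :
    (a % 2 = 1 → x % 2 = 1 ∧ y % 2 = 1) ∧ (a % 2 = 0 → x * y % 4 = 2) := by
  constructor
  · intro ha
    have h1 : (a ^ 2) % 2 = 1 := by
      rw [pow_two, Int.mul_emod, ha]; norm_num
    have h2 : (x * y) % 2 = 1 := by omega
    have hx : x % 2 = 1 := by
      rcases Int.emod_two_eq_zero_or_one x with hx | hx
      · rw [Int.mul_emod, hx] at h2; norm_num at h2
      · exact hx
    have hy : y % 2 = 1 := by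
      rcases Int.emod_two_eq_zero_or_one y with hy | hy
      · rw [Int.mul_emod, hy] at h2; norm_num at h2
      · exact hy
    exact ⟨hx, hy⟩
  · intro ha
    obtain ⟨b, hb⟩ : ∃ b, a = 2 * b := ⟨a / 2, by omega⟩
    have : a ^ 2 = 4 * b ^ 2 := by rw [hb]; ring
    omega

theorem parity_T2 {x y : ℤ} (h : x * y % 4 = 2) (hx : x % 2 = 0) :
    (x / 2) % 2 = 1 ∧ y % 2 = 1 := by
  obtain ⟨c, hc⟩ : ∃ c, x = 2 * c := ⟨x / 2, by omega⟩
  subst hc
  rw [show 2 * c / 2 = c by omega]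
  have h2 : c * y % 2 = 1 := by
    have : 2 * c * y = 2 * (c * y) := by ring
    rw [this] at h
    omega
  constructor
  · rcases Int.emod_two_eq_zero_or_one c with hx | hx
    · rw [Int.mul_emod, hx] at h2; norm_num at h2
    · exact hx
  · rcases Int.emod_two_eq_zero_or_one y with hy | hy
    · rw [Int.mul_emod, hy] at h2; norm_num at h2
    · exact hy

theorem nu_three_mod {n : ℕ} (hn : n % 4 = 2) :
    nu 3 n % 2 = ((III (n : ℤ)).filter (fun p => 0 < p.1)).card % 2 := by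
  rw [nu_three]
  rw [card_mod_two_fixed (Q3 n)
    (fun q => (q.2.2.2.2.2, q.2.2.2.2.1, q.2.2.2.1, q.2.2.1, q.2.1, q.1))]
  · congr 1
    apply Finset.card_bij (fun (q : ℕ × ℕ × ℕ × ℕ × ℕ × ℕ) _ =>
      ((q.2.1 : ℤ), (q.1 : ℤ) + 2 * q.2.1 + 2 * q.2.2.1, (q.1 : ℤ)))
    · rintro ⟨a1, a2, a3, b1, b2, b3⟩ hq
      rw [mem_filter, mem_Q3] at hq
      simp only [Prod.mk.injEq] at hq
      obtain ⟨⟨⟨h1, h2, h3, h4, h5, h6⟩, h⟩, h7, h8, h9, h10, h11, h12⟩ := hq
      subst h7 h8 h9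
      have hz : ((b2 : ℤ)) ^ 2 + ((b3 : ℤ) + 2 * b2 + 2 * b1) * (b3 : ℤ) = (n : ℤ) := by
        rw [← h]; push_cast; ring
      have hodd : b2 % 2 = 1 := by
        by_contra hcon
        have he : (b2 : ℤ) % 2 = 0 := by omega
        have hp := (parity_T (n := (n : ℤ)) (by omega) hz).2 he
        rcases Int.emod_two_eq_zero_or_one (b3 : ℤ) with h3 | h3
        · have := parity_T2 (x := (b3 : ℤ)) (y := ((b3 : ℤ) + 2 * b2 + 2 * b1))
            (by rw [mul_comm]; exact hp) h3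
          omega
        · have hxo : ((b3 : ℤ) + 2 * b2 + 2 * b1) % 2 = 1 := by omega
          have : (((b3 : ℤ) + 2 * b2 + 2 * b1) * (b3 : ℤ)) % 2 = 1 := by
            rw [Int.mul_emod, hxo, h3]; norm_num
          omega
      rw [mem_filter]
      unfold III
      rw [mem_filter, mem_T]
      simp only
      exact ⟨⟨⟨by omega, by omega, hz⟩, by omega, by omega, by omega⟩, by omega⟩
    · rintro ⟨a1, a2, a3, b1, b2, b3⟩ hq ⟨a1', a2', a3', b1', b2', b3'⟩ hq' heq
      rw [mem_filter, mem_Q3] at hq hq'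
      simp only [Prod.mk.injEq] at hq hq' heq ⊢
      omega
    · rintro ⟨a, x, y⟩ hb
      rw [mem_filter] at hb
      unfold III at hb
      rw [mem_filter, mem_T] at hb
      simp only at hb
      obtain ⟨⟨⟨hx, hy, h⟩, h1, h2, h3⟩, h4⟩ := hb
      have hpar := (parity_T (n := (n : ℤ)) (by omega) h).1 h1
      obtain ⟨c, hc⟩ : ∃ c, x = y + 2 * a + 2 * c := ⟨(x - y - 2 * a) / 2, by omega⟩
      subst hc
      lift a to ℕ using by omega
      lift y to ℕ using by omega
      lift c to ℕ using by omega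
      refine ⟨(y, a, c, c, a, y), ?_, ?_⟩
      · rw [mem_filter, mem_Q3]
        refine ⟨⟨by omega, ?_⟩, rfl⟩
        have : ((y * (c + a + y) + a * (a + y) + c * y : ℕ) : ℤ) = (n : ℤ) := by
          rw [← h]; push_cast; ring
        exact_mod_cast this
      · simp only
  · rintro ⟨a1, a2, a3, b1, b2, b3⟩ hq
    rw [mem_Q3] at hq ⊢
    obtain ⟨⟨h1, h2, h3, h4, h5, h6⟩, h⟩ := hq
    refine ⟨⟨h6, h5, h4, h3, h2, h1⟩, ?_⟩
    rw [← h]; ring
  · intro _ _; rfl

/-- even to even steps of the second kind -/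
noncomputable def EE2 (n : ℤ) : Finset (ℤ × ℤ × ℤ) :=
  (T n).filter (fun p => p.1 % 2 = 0 ∧ ¬ (0 < p.2.1 + 2 * p.1 - p.2.2) ∧ p.2.1 % 2 = 0)

/-- even to even steps of the first kind -/
noncomputable def EE1 (n : ℤ) : Finset (ℤ × ℤ × ℤ) :=
  (T n).filter (fun p => p.1 % 2 = 0 ∧ 0 < p.2.1 + 2 * p.1 - p.2.2 ∧ p.2.2 % 2 = 0)

theorem card_EE2 {n : ℤ} (hn : n % 4 = 2) : (EE2 n).card = (III n).card := by
  apply Finset.card_bij (fun (p : ℤ × ℤ × ℤ) _ =>
    (p.1 + p.2.1 / 2, 2 * p.2.2 - 2 * p.1 - p.2.1 / 2, p.2.1 / 2))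
  · rintro ⟨a, x, y⟩ hp
    unfold EE2 at hp
    rw [mem_filter, mem_T] at hp
    simp only at hp
    obtain ⟨⟨hx, hy, h⟩, h1, h2, h3⟩ := hp
    have hpar := parity_T2 ((parity_T hn h).2 h1) h3
    have hne : x + 2 * a - y ≠ 0 := by
      intro h0
      apply not_sq hn (a + x)
      have : y = x + 2 * a := by omega
      rw [this] at h
      linear_combination h
    obtain ⟨c, hc⟩ : ∃ c, x = 2 * c := ⟨x / 2, by omega⟩
    subst hc
    rw [show 2 * c / 2 = c by omega] at hpar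
    unfold III
    rw [mem_filter, mem_T]
    simp only
    rw [show 2 * c / 2 = c by omega]
    refine ⟨⟨by omega, by omega, by linear_combination h⟩, by omega, by omega, by omega⟩
  · rintro ⟨a, x, y⟩ hp ⟨a', x', y'⟩ hp' heq
    unfold EE2 at hp hp'
    rw [mem_filter, mem_T] at hp hp'
    simp only [Prod.mk.injEq] at hp hp' heq ⊢
    omega
  · rintro ⟨a, x, y⟩ hb
    unfold III at hb
    rw [mem_filter, mem_T] at hb
    simp only at hb
    obtain ⟨⟨hx, hy, h⟩, h1, h2, h3⟩ := hb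
    have hpar := (parity_T hn h).1 h1
    obtain ⟨c, hc⟩ : ∃ c, x = 2 * c - 2 * a + y := ⟨(x + 2 * a - y) / 2, by omega⟩
    refine ⟨(a - y, 2 * y, c), ?_, ?_⟩
    · unfold EE2
      rw [mem_filter, mem_T]
      simp only
      refine ⟨⟨by omega, by omega, ?_⟩, by omega, by omega, by omega⟩
      rw [hc] at h
      linear_combination h
    · simp only [Prod.mk.injEq]
      omega

theorem card_EE1 {n : ℤ} (hn : n % 4 = 2) : (EE1 n).card = (EE2 n).card := by
  have hne : ∀ a x y : ℤ, a ^ 2 + x * y = n → x + 2 * a - y ≠ 0 := by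
    intro a x y h h0
    apply not_sq hn (a + x)
    have : y = x + 2 * a := by omega
    rw [this] at h
    linear_combination h
  apply Finset.card_bij (fun (p : ℤ × ℤ × ℤ) _ => (-p.1, p.2.2, p.2.1))
  · rintro ⟨a, x, y⟩ hp
    unfold EE1 at hp
    rw [mem_filter, mem_T] at hp
    simp only at hp
    obtain ⟨⟨hx, hy, h⟩, h1, h2, h3⟩ := hp
    unfold EE2
    rw [mem_filter, mem_T]
    simp only
    exact ⟨⟨hy, hx, by linear_combination h⟩, by omega, by omega, by omega⟩
  · rintro ⟨a, x, y⟩ _ ⟨a', x', y'⟩ _ heq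
    simp only [Prod.mk.injEq] at heq ⊢
    omega
  · rintro ⟨a, x, y⟩ hb
    unfold EE2 at hb
    rw [mem_filter, mem_T] at hb
    simp only at hb
    obtain ⟨⟨hx, hy, h⟩, h1, h2, h3⟩ := hb
    have hne' := hne a x y h
    refine ⟨(-a, y, x), ?_, by simp⟩
    unfold EE1
    rw [mem_filter, mem_T]
    simp only
    exact ⟨⟨hy, hx, by linear_combination h⟩, by omega, by omega, by omega⟩

theorem card_EO {n : ℤ} (hn : n % 4 = 2) :
    ((T n).filter (fun p => p.1 % 2 = 0 ∧ (rho p).1 % 2 = 1)).card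
      = ((T n).filter (fun p => p.1 % 2 = 1)).card := by
  apply Finset.card_bij (fun (p : ℤ × ℤ × ℤ) _ => rho p)
  · intro p hp
    rw [mem_filter] at hp ⊢
    exact ⟨rho_mem hn hp.1, hp.2.2⟩
  · intro p hp q hq hpq
    rw [mem_filter] at hp hq
    rw [← rhoInv_rho hp.1, ← rhoInv_rho hq.1, hpq]
  · intro q hq
    rw [mem_filter] at hq
    refine ⟨rhoInv q, ?_, rho_rhoInv hq.1⟩
    rw [mem_filter, rho_rhoInv hq.1]
    refine ⟨rhoInv_mem hn hq.1, ?_, hq.2⟩
    obtain ⟨a, x, y⟩ := q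
    rw [mem_T] at hq
    simp only at hq
    have hpar := (parity_T hn hq.1.2.2).1 hq.2
    unfold rhoInv
    simp only
    split_ifs <;> simp only <;> omega

theorem card_T_III {n : ℤ} (hn : n % 4 = 2) :
    (T n).card = 2 * ((T n).filter (fun p => p.1 % 2 = 1)).card + 2 * (III n).card := by
  have h1 := Finset.card_filter_add_card_filter_not (s := T n) (fun p => p.1 % 2 = 1)
  have h2 := Finset.card_filter_add_card_filter_not
    (s := (T n).filter (fun p => ¬ p.1 % 2 = 1)) (fun p => (rho p).1 % 2 = 1)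
  rw [filter_filter, filter_filter] at h2
  have h3 : (T n).filter (fun p => (¬ p.1 % 2 = 1) ∧ (rho p).1 % 2 = 1) =
      (T n).filter (fun p => p.1 % 2 = 0 ∧ (rho p).1 % 2 = 1) := by
    apply filter_congr
    intro p _
    omega
  rw [h3, card_EO hn] at h2
  have h4 : (T n).filter (fun p => (¬ p.1 % 2 = 1) ∧ ¬ (rho p).1 % 2 = 1) = EE1 n ∪ EE2 n := by
    ext ⟨a, x, y⟩
    unfold EE1 EE2 rho
    rw [mem_filter, mem_union, mem_filter, mem_filter]
    simp only
    constructor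
    · rintro ⟨hm, ha, hr⟩
      split_ifs at hr with hc
      · left
        simp only at hr
        exact ⟨hm, by omega, hc, by omega⟩
      · right
        simp only at hr
        exact ⟨hm, by omega, hc, by omega⟩
    · rintro (⟨hm, ha, hc, hy⟩ | ⟨hm, ha, hc, hx⟩)
      · rw [if_pos hc]
        simp only
        exact ⟨hm, by omega, by omega⟩
      · rw [if_neg hc]
        simp only
        exact ⟨hm, by omega, by omega⟩
  have h5 : Disjoint (EE1 n) (EE2 n) := by
    rw [Finset.disjoint_left]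
    intro p hp hq
    unfold EE1 at hp
    unfold EE2 at hq
    rw [mem_filter] at hp hq
    exact hq.2.2.1 hp.2.2.1
  rw [h4, Finset.card_union_of_disjoint h5, card_EE1 hn, card_EE2 hn] at h2
  omega

theorem card_T_mod8' {n : ℤ} (hn : n % 4 = 2) (hns : ∀ a b : ℤ, a ^ 2 + b ^ 2 ≠ n) :
    (T n).card % 8 = (4 * ((III n).filter (fun p => 0 < p.1)).card) % 8 := by
  have h1 := card_T_III hn
  have h2 := card_split_sign ((T n).filter (fun p => p.1 % 2 = 1)) (by
    intro p hp
    rw [mem_filter] at hp ⊢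
    exact ⟨T_neg hp.1, by simp only; omega⟩)
  have h3 := card_split_sign (III n) (by
    intro p hp
    unfold III at hp ⊢
    rw [mem_filter] at hp ⊢
    exact ⟨T_neg hp.1, by simp only; omega⟩)
  have h4 : (((T n).filter (fun p => p.1 % 2 = 1)).filter (fun p => p.1 = 0)).card = 0 := by
    rw [Finset.card_eq_zero, Finset.filter_eq_empty_iff]
    intro p hp h
    rw [mem_filter] at hp
    omega
  have h5 : ((III n).filter (fun p => p.1 = 0)).card = 0 := by
    rw [Finset.card_eq_zero, Finset.filter_eq_empty_iff]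
    intro p hp h
    unfold III at hp
    rw [mem_filter] at hp
    omega
  have h6 : Even (((T n).filter (fun p => p.1 % 2 = 1)).filter (fun p => 0 < p.1)).card := by
    apply even_card_swap hns
    · exact (filter_subset _ _).trans (filter_subset _ _)
    · intro p hp
      rw [mem_filter, mem_filter] at hp ⊢
      exact ⟨⟨T_swap hp.1.1, hp.1.2⟩, hp.2⟩
  obtain ⟨c, hc⟩ := h6
  omega

theorem nu_three_D3 {n : ℕ} (hn : n % 4 = 2) (hns : ∀ a b : ℤ, a ^ 2 + b ^ 2 ≠ n) :
    nu 3 n % 2 = D3 n % 2 := by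
  have h1 := nu_three_mod hn
  have h2 := card_T_mod8' (n := (n : ℤ)) (by omega) hns
  have h3 := card_T_mod8 hn hns
  omega

/-- the congruence for three part sizes -/
theorem nu_three_six (j : ℕ) (h2 : j % 2 = 1) (h3 : j % 3 ≠ 0) :
    (nu 3 (6 * j)) % 2 = (Nat.divisors j).card % 2 := by
  have h := nu_three_D3 (n := 2 * (3 * j)) (by omega) (ns_six h3)
  rw [D3_six j h2 h3, show 2 * (3 * j) = 6 * j by ring] at h
  exact h

theorem nu_three_dvd (j : ℕ) (h2 : j % 2 = 1) (h3 : j % 3 ≠ 0) (hns : ¬ IsSquare j) :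
    2 ∣ nu 3 (6 * j) := by
  have h := nu_three_six j h2 h3
  obtain ⟨c, hc⟩ := even_card_divisors j hns
  omega

theorem nu_three_six_one : ¬ 2 ∣ nu 3 6 := by
  have h := nu_three_six 1 (by norm_num) (by norm_num)
  simp only [mul_one, Nat.divisors_one, card_singleton] at h
  omega

end Helper4.Nu
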