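import Pool.Agent.Helper4.NuDefs
import Pool.Agent.Helper4.NuRiver

namespace Helper4.Nu

open Finset

/-- quadruples (s, i, t, j) of positive integers with s i + t j = n -/
def X (n : ℕ) : Finset (ℕ × ℕ × ℕ × ℕ) :=
  ((Icc 1 n) ×ˢ (Icc 1 n) ×ˢ (Icc 1 n) ×ˢ (Icc 1 n)).filter
    (fun q => q.1 * q.2.1 + q.2.2.1 * q.2.2.2 = n)

theorem mem_X (n s i t j : ℕ) : (s, i, t, j) ∈ X n ↔
    0 < s ∧ 0 < i ∧ 0 < t ∧ 0 < j ∧ s * i + t * j = n := by
  unfold X
  simp only [mem_filter, mem_product, mem_Icc]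
  constructor
  · rintro ⟨⟨⟨h1, h2⟩, ⟨h3, h4⟩, ⟨h5, h6⟩, ⟨h7, h8⟩⟩, h10⟩
    exact ⟨by omega, by omega, by omega, by omega, h10⟩
  · rintro ⟨hs, hi, ht, hj, h⟩
    have h1 : s ≤ s * i := Nat.le_mul_of_pos_right s hi
    have h2 : i ≤ s * i := Nat.le_mul_of_pos_left i hs
    have h3 : t ≤ t * j := Nat.le_mul_of_pos_right t hj
    have h4 : j ≤ t * j := Nat.le_mul_of_pos_left j ht
    exact ⟨⟨⟨by omega, by omega⟩, ⟨by omega, by omega⟩, ⟨by omega, by omega⟩,
      ⟨by omega, by omega⟩⟩, h⟩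

/-- generic splitting of a finite set of quadruples according to a comparison of two
natural number valued functions, exchanged by an involution -/
theorem card_split_lt {α : Type*} [DecidableEq α] (s : Finset α) (f g : α → ℕ) (e : α → α)
    (he : ∀ a ∈ s, e a ∈ s) (hinv : ∀ a ∈ s, e (e a) = a)
    (hfg : ∀ a ∈ s, f (e a) = g a ∧ g (e a) = f a) :
    s.card = 2 * (s.filter (fun a => f a < g a)).card + (s.filter (fun a => f a = g a)).card := by
  have h1 := Finset.card_filter_add_card_filter_not (s := s) (fun a => f a < g a)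
  have h2 := Finset.card_filter_add_card_filter_not
    (s := s.filter (fun a => ¬ f a < g a)) (fun a => f a = g a)
  rw [filter_filter, filter_filter] at h2
  have h3 : (s.filter (fun a => (¬ f a < g a) ∧ f a = g a)) = s.filter (fun a => f a = g a) := by
    apply filter_congr
    intro p _
    constructor
    · exact fun h => h.2
    · intro h; exact ⟨by omega, h⟩
  have h4 : (s.filter (fun a => (¬ f a < g a) ∧ ¬ f a = g a)).card
      = (s.filter (fun a => f a < g a)).card := by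
    apply Finset.card_bij (fun a _ => e a)
    · intro a ha
      rw [mem_filter] at ha ⊢
      have := hfg a ha.1
      exact ⟨he a ha.1, by omega⟩
    · intro a ha b hb hab
      rw [mem_filter] at ha hb
      rw [← hinv a ha.1, ← hinv b hb.1, hab]
    · intro b hb
      rw [mem_filter] at hb
      refine ⟨e b, ?_, hinv b hb.1⟩
      rw [mem_filter]
      have := hfg b hb.1
      exact ⟨he b hb.1, by omega⟩
  rw [h3, h4] at h2
  omega

theorem card_X_eq (n : ℕ) :
    (X n).card = 2 * (Q2 n).card + ((X n).filter (fun q => q.1 = q.2.2.1)).card := by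
  have h := card_split_lt (X n) (fun q => q.1) (fun q => q.2.2.1)
    (fun q => (q.2.2.1, q.2.2.2, q.1, q.2.1))
    (by
      rintro ⟨s, i, t, j⟩ hq
      rw [mem_X] at hq ⊢
      exact ⟨hq.2.2.1, hq.2.2.2.1, hq.1, hq.2.1, (add_comm _ _).trans hq.2.2.2.2⟩)
    (fun _ _ => rfl) (fun _ _ => ⟨rfl, rfl⟩)
  have h2 : (X n).filter (fun q => q.1 < q.2.2.1) = Q2 n := by
    ext ⟨s, i, t, j⟩
    rw [mem_filter, mem_X, mem_Q2]
    tauto
  rw [h2] at h
  exact h

theorem card_X_diag (n : ℕ) (hn : 0 < n) :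
    ((X n).filter (fun q => q.1 = q.2.2.1)).card + (Nat.divisors n).card
      = ∑ d ∈ Nat.divisors n, d := by
  have h1 : ((X n).filter (fun q => q.1 = q.2.2.1)).card
      = ∑ d ∈ Nat.divisors n, (n / d - 1) := by
    rw [Finset.card_eq_sum_card_fiberwise (f := fun q => q.1) (t := Nat.divisors n)]
    · apply Finset.sum_congr rfl
      intro d hd
      rw [Nat.mem_divisors] at hd
      obtain ⟨⟨c, hc⟩, hn0⟩ := hd
      have hd0 : 0 < d := by
        rcases Nat.eq_zero_or_pos d with h | h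
        · subst h; simp at hc; omega
        · exact h
      have hcd : n / d = c := by rw [hc]; exact Nat.mul_div_cancel_left c hd0
      rw [hcd]
      rw [show c - 1 = (Finset.Icc 1 (c - 1)).card by rw [Nat.card_Icc]; omega]
      apply Finset.card_bij (fun (q : ℕ × ℕ × ℕ × ℕ) _ => q.2.1)
      · rintro ⟨s, i, t, j⟩ hq
        rw [mem_filter, mem_filter, mem_X] at hq
        obtain ⟨⟨⟨hs, hi, ht, hj, h⟩, h1⟩, h2⟩ := hq
        simp only at h1 h2 ⊢
        subst h1 h2
        rw [mem_Icc]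
        have : s * (i + j) = s * c := by rw [← hc, ← h]; ring
        have := Nat.eq_of_mul_eq_mul_left hs this
        omega
      · rintro ⟨s, i, t, j⟩ hq ⟨s', i', t', j'⟩ hq' heq
        rw [mem_filter, mem_filter, mem_X] at hq hq'
        obtain ⟨⟨⟨hs, hi, ht, hj, h⟩, h1⟩, h2⟩ := hq
        obtain ⟨⟨⟨hs', hi', ht', hj', h'⟩, h1'⟩, h2'⟩ := hq'
        simp only at h1 h2 h1' h2' heq ⊢
        subst h1 h2 h1' heq
        subst h2'
        have e1 : s' * (i + j) = s' * (i + j') := by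
          rw [mul_add, mul_add, h, h']
        have := Nat.eq_of_mul_eq_mul_left hs e1
        simp only [Prod.mk.injEq, true_and]
        omega
      · intro i hi
        rw [mem_Icc] at hi
        refine ⟨(d, i, d, c - i), ?_, rfl⟩
        rw [mem_filter, mem_filter, mem_X]
        refine ⟨⟨⟨hd0, by omega, hd0, by omega, ?_⟩, rfl⟩, rfl⟩
        rw [← mul_add, hc]
        congr 1
        omega
    · rintro ⟨s, i, t, j⟩ hq
      simp only [coe_filter, Set.mem_ofPred_eq] at hq
      rw [mem_X] at hq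
      obtain ⟨⟨hs, hi, ht, hj, h⟩, h1⟩ := hq
      subst h1
      rw [Finset.mem_coe, Nat.mem_divisors]
      exact ⟨⟨i + j, by rw [← h]; ring⟩, by omega⟩
  rw [h1, ← Nat.sum_div_divisors n (fun d => d)]
  rw [Finset.card_eq_sum_ones, ← Finset.sum_add_distrib]
  apply Finset.sum_congr rfl
  intro d hd
  rw [Nat.mem_divisors] at hd
  have hd0 : 0 < d := Nat.pos_of_dvd_of_pos hd.1 hn
  have := Nat.div_pos (Nat.le_of_dvd hn hd.1) hd0
  omega

/-- number of pairs s < i with s i = N -/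
def K (N : ℕ) : ℕ := ((Nat.divisors N).filter (fun s => s < N / s)).card

/-- the part of the triples with positive first entry -/
noncomputable def Tp (n : ℤ) : Finset (ℤ × ℤ × ℤ) := (T n).filter (fun p => 0 < p.1)

theorem card_si (n : ℕ) : ((X n).filter (fun q => q.1 = q.2.1)).card = (Tp n).card := by
  apply Finset.card_bij (fun (q : ℕ × ℕ × ℕ × ℕ) _ => ((q.1 : ℤ), (q.2.2.1 : ℤ), (q.2.2.2 : ℤ)))
  · rintro ⟨s, i, t, j⟩ hq
    rw [mem_filter, mem_X] at hq
    obtain ⟨⟨hs, hi, ht, hj, h⟩, h1⟩ := hq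
    simp only at h1
    subst h1
    unfold Tp
    rw [mem_filter, mem_T]
    simp only
    refine ⟨⟨by omega, by omega, ?_⟩, by omega⟩
    rw [← h]; push_cast; ring
  · rintro ⟨s, i, t, j⟩ hq ⟨s', i', t', j'⟩ hq' heq
    rw [mem_filter, mem_X] at hq hq'
    simp only [Prod.mk.injEq, Nat.cast_inj] at heq
    obtain ⟨h1, h2, h3⟩ := heq
    have e1 := hq.2
    have e2 := hq'.2
    simp only at e1 e2
    subst h1 h2 h3 e1 e2
    rfl
  · rintro ⟨a, x, y⟩ hb
    unfold Tp at hb
    rw [mem_filter, mem_T] at hb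
    simp only at hb
    obtain ⟨⟨hx, hy, h⟩, ha⟩ := hb
    lift a to ℕ using by omega
    lift x to ℕ using by omega
    lift y to ℕ using by omega
    refine ⟨(a, a, x, y), ?_, rfl⟩
    rw [mem_filter, mem_X]
    refine ⟨⟨by omega, by omega, by omega, by omega, ?_⟩, rfl⟩
    have : ((a * a + x * y : ℕ) : ℤ) = (n : ℤ) := by rw [← h]; push_cast; ring
    exact_mod_cast this

theorem card_T_zero (n : ℕ) (hn : 0 < n) :
    ((T (n : ℤ)).filter (fun p => p.1 = 0)).card = (Nat.divisors n).card := by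
  symm
  apply Finset.card_bij (fun (d : ℕ) _ => ((0 : ℤ), (d : ℤ), ((n / d : ℕ) : ℤ)))
  · intro d hd
    rw [Nat.mem_divisors] at hd
    have hdpos : 0 < d := Nat.pos_of_dvd_of_pos hd.1 hn
    have hq : 0 < n / d := Nat.div_pos (Nat.le_of_dvd hn hd.1) hdpos
    rw [mem_filter, mem_T]
    refine ⟨⟨by omega, by omega, ?_⟩, rfl⟩
    have : d * (n / d) = n := Nat.mul_div_cancel' hd.1
    have h' : (d : ℤ) * ((n / d : ℕ) : ℤ) = n := by exact_mod_cast this
    linear_combination h'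
  · intro d _ e _ hde
    simp only [Prod.mk.injEq] at hde
    exact_mod_cast hde.2.1
  · rintro ⟨a, x, y⟩ hb
    rw [mem_filter, mem_T] at hb
    obtain ⟨⟨hx, hy, hxy⟩, h0⟩ := hb
    simp only at h0
    subst h0
    have hxy' : x * y = n := by linear_combination hxy
    lift x to ℕ using by omega
    lift y to ℕ using by omega
    have hxyn : x * y = n := by exact_mod_cast hxy'
    refine ⟨x, ?_, ?_⟩
    · rw [Nat.mem_divisors]
      exact ⟨⟨y, hxyn.symm⟩, by omega⟩
    · have hx' : 0 < x := by omega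
      have : n / x = y := by
        rw [← hxyn]; exact Nat.mul_div_cancel_left y hx'
      rw [this]

theorem card_T_Tp (n : ℕ) (hn : 0 < n) :
    (T (n : ℤ)).card = 2 * (Tp n).card + (Nat.divisors n).card := by
  have h := card_split_sign (T (n : ℤ)) (fun p hp => T_neg hp)
  rw [card_T_zero n hn] at h
  exact h

theorem card_X_mod8 (N : ℕ) (hN : 0 < N)
    (hns : ∀ a b : ℤ, a ^ 2 + b ^ 2 ≠ ((2 * N : ℕ) : ℤ)) :
    (X (2 * N)).card % 8 = (2 * (Tp ((2 * N : ℕ) : ℤ)).card + 4 * K N) % 8 := by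
  set n := 2 * N with hn
  have hns' : ∀ s t : ℕ, s * s + t * t ≠ n := by
    intro s t h
    apply hns s t
    rw [← h]; push_cast; ring
  -- split off s = i
  have a1 := card_split_lt (X n) (fun q => q.1) (fun q => q.2.1)
    (fun q => (q.2.1, q.1, q.2.2.1, q.2.2.2))
    (by
      rintro ⟨s, i, t, j⟩ hq
      rw [mem_X] at hq ⊢
      exact ⟨hq.2.1, hq.1, hq.2.2.1, hq.2.2.2.1, by rw [mul_comm i s]; exact hq.2.2.2.2⟩)
    (fun _ _ => rfl) (fun _ _ => ⟨rfl, rfl⟩)
  have a2 := card_split_lt ((X n).filter (fun q => q.1 < q.2.1))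
    (fun q => q.2.2.1) (fun q => q.2.2.2)
    (fun q => (q.1, q.2.1, q.2.2.2, q.2.2.1))
    (by
      rintro ⟨s, i, t, j⟩ hq
      rw [mem_filter, mem_X] at hq ⊢
      exact ⟨⟨hq.1.1, hq.1.2.1, hq.1.2.2.2.1, hq.1.2.2.1,
        by rw [mul_comm j t]; exact hq.1.2.2.2.2⟩, hq.2⟩)
    (fun _ _ => rfl) (fun _ _ => ⟨rfl, rfl⟩)
  -- the set with s < i and t = j
  have a3 : (((X n).filter (fun q => q.1 < q.2.1)).filter (fun q => q.2.2.1 = q.2.2.2)).card * 2
      = (Tp (n : ℤ)).card := by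
    have b1 := card_split_lt ((X n).filter (fun q => q.1 = q.2.1))
      (fun q => q.2.2.1) (fun q => q.2.2.2)
      (fun q => (q.1, q.2.1, q.2.2.2, q.2.2.1))
      (by
        rintro ⟨s, i, t, j⟩ hq
        rw [mem_filter, mem_X] at hq ⊢
        exact ⟨⟨hq.1.1, hq.1.2.1, hq.1.2.2.2.1, hq.1.2.2.1,
          by rw [mul_comm j t]; exact hq.1.2.2.2.2⟩, hq.2⟩)
      (fun _ _ => rfl) (fun _ _ => ⟨rfl, rfl⟩)
    rw [card_si] at b1
    have b2 : (((X n).filter (fun q => q.1 = q.2.1)).filter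
        (fun q => q.2.2.1 = q.2.2.2)).card = 0 := by
      rw [Finset.card_eq_zero, Finset.filter_eq_empty_iff]
      rintro ⟨s, i, t, j⟩ hq h2
      rw [mem_filter, mem_X] at hq
      have h1 := hq.2
      simp only at h1 h2
      subst h1 h2
      exact hns' _ _ hq.1.2.2.2.2
    have b3 : (((X n).filter (fun q => q.1 < q.2.1)).filter (fun q => q.2.2.1 = q.2.2.2)).card
        = (((X n).filter (fun q => q.1 = q.2.1)).filter (fun q => q.2.2.1 < q.2.2.2)).card := by
      apply Finset.card_bij (fun (q : ℕ × ℕ × ℕ × ℕ) _ => (q.2.2.1, q.2.2.2, q.1, q.2.1))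
      · rintro ⟨s, i, t, j⟩ hq
        simp only [mem_filter, mem_X] at hq ⊢
        omega
      · rintro ⟨s, i, t, j⟩ _ ⟨s', i', t', j'⟩ _ heq
        simp only [Prod.mk.injEq] at heq ⊢
        tauto
      · rintro ⟨s, i, t, j⟩ hq
        refine ⟨(t, j, s, i), ?_, rfl⟩
        simp only [mem_filter, mem_X] at hq ⊢
        omega
    omega
  -- the set with s < i and t < j
  have a4 : (((X n).filter (fun q => q.1 < q.2.1)).filter
      (fun q => q.2.2.1 < q.2.2.2)).card % 2 = K N % 2 := by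
    rw [card_mod_two_fixed _ (fun q => (q.2.2.1, q.2.2.2, q.1, q.2.1))]
    · congr 1
      unfold K
      apply Finset.card_bij (fun (q : ℕ × ℕ × ℕ × ℕ) _ => q.1)
      · rintro ⟨s, i, t, j⟩ hq
        simp only [mem_filter, mem_X, Prod.mk.injEq] at hq
        obtain ⟨⟨⟨⟨hs, hi, ht, hj, h⟩, h1⟩, h2⟩, h3, h4, h5, h6⟩ := hq
        subst h3 h4
        have hN' : N = t * j := by omega
        rw [mem_filter, Nat.mem_divisors]
        refine ⟨⟨⟨j, hN'⟩, by omega⟩, ?_⟩
        rw [hN', Nat.mul_div_cancel_left j hs]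
        exact h1
      · rintro ⟨s, i, t, j⟩ hq ⟨s', i', t', j'⟩ hq' heq
        simp only [mem_filter, mem_X, Prod.mk.injEq] at hq hq' heq ⊢
        obtain ⟨⟨⟨⟨hs, hi, ht, hj, h⟩, h1⟩, h2⟩, h3, h4, h5, h6⟩ := hq
        obtain ⟨⟨⟨⟨hs', hi', ht', hj', h'⟩, h1'⟩, h2'⟩, h3', h4', h5', h6'⟩ := hq'
        subst h3 h4 h3' h4' heq
        have : t * j = t * j' := by omega
        have := Nat.eq_of_mul_eq_mul_left hs this
        tauto
      · intro d hd
        rw [mem_filter, Nat.mem_divisors] at hd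
        obtain ⟨⟨⟨c, hc⟩, hN0⟩, hlt⟩ := hd
        have hd0 : 0 < d := by
          rcases Nat.eq_zero_or_pos d with h | h
          · subst h; simp at hc; omega
          · exact h
        have hcd : N / d = c := by rw [hc]; exact Nat.mul_div_cancel_left c hd0
        rw [hcd] at hlt
        refine ⟨(d, c, d, c), ?_, rfl⟩
        simp only [mem_filter, mem_X]
        exact ⟨⟨⟨⟨hd0, by omega, hd0, by omega, by omega⟩, hlt⟩, hlt⟩, trivial⟩
    · rintro ⟨s, i, t, j⟩ hq
      simp only [mem_filter, mem_X] at hq ⊢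
      omega
    · intro _ _; rfl
  rw [card_si] at a1
  omega

theorem nu_two_mod (N : ℕ) (hN : N % 2 = 1)
    (hns : ∀ a b : ℤ, a ^ 2 + b ^ 2 ≠ ((2 * N : ℕ) : ℤ)) :
    (2 * nu 2 (2 * N) + ∑ d ∈ Nat.divisors (2 * N), d) % 8 = (4 * K N + 4 * D3 (2 * N)) % 8 := by
  have hN0 : 0 < N := by omega
  have h1 := card_X_eq (2 * N)
  have h2 := card_X_diag (2 * N) (by omega)
  have h3 := card_X_mod8 N hN0 hns
  have h4 := card_T_Tp (2 * N) (by omega)
  have h5 := card_T_mod8 (n := 2 * N) (by omega) hns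
  rw [← nu_two] at h1
  omega

end Helper4.Nu
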